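import Mathlib

/-!
# Circle layout of transport matrices with independent support

For a transport matrix `M` (row sums `R`, column sums `C`) with potentials adapted to its partial
sums, every symmetric irreflexive relation `S` on the rows and every set `P` of positions of odd
size satisfy `C ≤ ∑ x x' y, M x' y * [S x x' ≠ P x y]`.
-/

set_option autoImplicit false

open Finset

namespace Pool.Agent.K7.H44.Circle

/-- number of translates of `c` by multiples of `C` in `[A, A + l)` -/
noncomputable def ev (C A l c : ℝ) : ℤ := ⌈(A + l - c) / C⌉ - ⌈(A - c) / C⌉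

lemma ev_nonneg {C A l c : ℝ} (hC : 0 < C) (hl : 0 ≤ l) : 0 ≤ ev C A l c := by
  unfold ev
  have : ⌈(A - c) / C⌉ ≤ ⌈(A + l - c) / C⌉ := Int.ceil_mono (by gcongr; linarith)
  omega

lemma ev_zero (C A c : ℝ) : ev C A 0 c = 0 := by simp [ev]

lemma ceil_periodic {C A : ℝ} (hC : 0 < C) :
    Function.Periodic (fun c : ℝ => ((⌈(A - c) / C⌉ : ℤ) : ℝ) + c / C) C := by
  intro c
  have h1 : (A - (c + C)) / C = (A - c) / C - (1 : ℤ) := by
    push_cast
    field_simp
    ring
  simp only [h1]
  rw [Int.ceil_sub_intCast]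
  push_cast
  field_simp
  ring

lemma ceil_intervalIntegrable (C A a b : ℝ) :
    IntervalIntegrable (fun c : ℝ => ((⌈(A - c) / C⌉ : ℤ) : ℝ)) MeasureTheory.volume a b := by
  rw [intervalIntegrable_iff]
  have hm : Measurable (fun c : ℝ => ((⌈(A - c) / C⌉ : ℤ) : ℝ)) := by
    have h1 : Measurable (fun c : ℝ => (⌈(A - c) / C⌉ : ℤ)) :=
      Int.measurable_ceil.comp (by fun_prop)
    exact (measurable_from_top (f := fun z : ℤ => (z : ℝ))).comp h1
  obtain ⟨B, hB⟩ : ∃ B : ℝ, ∀ c ∈ Set.uIoc a b, ‖((⌈(A - c) / C⌉ : ℤ) : ℝ)‖ ≤ B := by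
    refine ⟨|A| / |C| + (|a| + |b|) / |C| + 1, fun c hc => ?_⟩
    have h2 : |c| ≤ |a| + |b| := by
      rcases Set.mem_uIoc.1 hc with ⟨h3, h4⟩ | ⟨h3, h4⟩
      · rw [abs_le]; constructor
        · linarith [neg_abs_le a, abs_nonneg b]
        · linarith [le_abs_self b, abs_nonneg a]
      · rw [abs_le]; constructor
        · linarith [neg_abs_le b, abs_nonneg a]
        · linarith [le_abs_self a, abs_nonneg b]
    have h5 : |(A - c) / C| ≤ |A| / |C| + (|a| + |b|) / |C| := by
      rw [abs_div, ← add_div]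
      gcongr
      exact (abs_sub A c).trans (by linarith)
    rw [Real.norm_eq_abs, abs_le]
    have h6 := Int.ceil_lt_add_one ((A - c) / C)
    have h7 := Int.le_ceil ((A - c) / C)
    have h8 := abs_le.1 h5
    constructor <;> linarith [h8.1, h8.2]
  exact MeasureTheory.IntegrableOn.of_bound (by simp) hm.aestronglyMeasurable B
    ((MeasureTheory.ae_restrict_iff' measurableSet_uIoc).2 (Filter.Eventually.of_forall hB))

lemma ev_intervalIntegrable (C A l a b : ℝ) :
    IntervalIntegrable (fun c : ℝ => ((ev C A l c : ℤ) : ℝ)) MeasureTheory.volume a b := by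
  unfold ev
  push_cast
  exact (ceil_intervalIntegrable C (A + l) a b).sub (ceil_intervalIntegrable C A a b)

lemma integral_ev {C : ℝ} (hC : 0 < C) (A l : ℝ) :
    ∫ c in (0 : ℝ)..C, ((ev C A l c : ℤ) : ℝ) = l := by
  have key : ∀ B : ℝ, ∫ c in (0 : ℝ)..C, (((⌈(B - c) / C⌉ : ℤ) : ℝ) + c / C) =
      B + ∫ c in (0 : ℝ)..C, (((⌈(0 - c) / C⌉ : ℤ) : ℝ) + c / C) := by
    intro B
    have h1 : ∫ c in (0 : ℝ)..C, (((⌈(B - c) / C⌉ : ℤ) : ℝ) + c / C) =
        ∫ c in (0 : ℝ)..C, ((((⌈(0 - (c - B)) / C⌉ : ℤ) : ℝ) + (c - B) / C) + B / C) := by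
      refine intervalIntegral.integral_congr fun c _ => ?_
      have e1 : (0 - (c - B)) / C = (B - c) / C := by ring
      show ((⌈(B - c) / C⌉ : ℤ) : ℝ) + c / C = ((⌈(0 - (c - B)) / C⌉ : ℤ) : ℝ) + (c - B) / C + B / C
      rw [e1]; ring
    rw [h1, intervalIntegral.integral_add]
    · rw [intervalIntegral.integral_comp_sub_right
        (fun c => ((⌈(0 - c) / C⌉ : ℤ) : ℝ) + c / C) B]
      have h2 := (ceil_periodic (A := 0) hC).intervalIntegral_add_eq (0 - B) 0
      have e2 : C - B = 0 - B + C := by ring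
      rw [e2, h2, intervalIntegral.integral_const, smul_eq_mul, zero_add]
      have : (C - 0) * (B / C) = B := by field_simp; ring
      rw [this]; ring
    · have e3 : (fun c : ℝ => ((⌈(0 - (c - B)) / C⌉ : ℤ) : ℝ) + (c - B) / C) =
          fun c : ℝ => ((⌈(B - c) / C⌉ : ℤ) : ℝ) + (c - B) / C := by
        ext c
        have e1 : (0 - (c - B)) / C = (B - c) / C := by ring
        rw [e1]
      rw [e3]
      exact (ceil_intervalIntegrable C B 0 C).add (Continuous.intervalIntegrable (by fun_prop) _ _)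
    · exact intervalIntegrable_const
  have hI : ∀ B : ℝ, ∫ c in (0 : ℝ)..C, ((⌈(B - c) / C⌉ : ℤ) : ℝ) =
      (∫ c in (0 : ℝ)..C, (((⌈(B - c) / C⌉ : ℤ) : ℝ) + c / C)) - ∫ c in (0 : ℝ)..C, c / C := by
    intro B
    rw [intervalIntegral.integral_add (ceil_intervalIntegrable C B 0 C)
      (Continuous.intervalIntegrable (by fun_prop) _ _)]
    ring
  unfold ev
  push_cast
  rw [intervalIntegral.integral_sub (ceil_intervalIntegrable C (A + l) 0 C)
    (ceil_intervalIntegrable C A 0 C), hI, hI, key (A + l), key A]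
  ring

lemma ii_sum {ι : Type*} (s : Finset ι) (f : ι → ℝ → ℝ) (a b : ℝ)
    (h : ∀ i ∈ s, IntervalIntegrable (f i) MeasureTheory.volume a b) :
    IntervalIntegrable (fun c => ∑ i ∈ s, f i c) MeasureTheory.volume a b := by
  have := IntervalIntegrable.sum s h
  rwa [Finset.sum_fn] at this

/-- telescoping -/
lemma ev_sum (C A c : ℝ) (f : ℕ → ℝ) (n : ℕ) :
    ∑ i ∈ range n, ev C (A + ∑ j ∈ range i, f j) (f i) c = ev C A (∑ j ∈ range n, f j) c := by
  induction n with
  | zero => simp [ev_zero]
  | succ n ih =>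
    rw [sum_range_succ, ih, sum_range_succ]
    unfold ev
    have e1 : A + ∑ j ∈ range n, f j + f n - c = A + (∑ j ∈ range n, f j + f n) - c := by ring
    rw [e1]
    ring

/-- the sum of a symmetric integer matrix with zero diagonal is even -/
lemma even_sum {ι : Type*} [Fintype ι] (F : ι → ι → ℤ) (hs : ∀ i j, F i j = F j i)
    (hd : ∀ i, F i i = 0) : Even (∑ i, ∑ j, F i j) := by
  classical
  have h1 : ∑ x : ι × ι, (F x.1 x.2 : ZMod 2) = 0 := by
    refine Finset.sum_involution (fun x _ => (x.2, x.1)) ?_ ?_ ?_ ?_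
    · intro x _
      simp only
      rw [hs x.2 x.1]
      exact CharTwo.add_self_eq_zero _
    · intro x _ hx he
      apply hx
      have h3 : x.2 = x.1 := congrArg Prod.fst he
      rw [h3, hd]; simp
    · intro x _; exact mem_univ _
    · intro x _; rfl
  rw [← ZMod.intCast_eq_zero_iff_even]
  push_cast
  rw [← h1, Fintype.sum_prod_type]

section layout

variable {n k : ℕ} (M : ℕ → ℕ → ℝ) (R C : ℝ) (j h : ℕ → ℝ)

/-- indicator -/
noncomputable def chi (p : Prop) : ℤ := by
  classical exact if p then 1 else 0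

lemma chi_xor (p q : Prop) : chi (¬ (p ↔ q)) = chi p + chi q - 2 * (chi p * chi q) := by
  unfold chi
  by_cases hp : p <;> by_cases hq : q <;> simp [hp, hq]

lemma chi_nonneg (p : Prop) : 0 ≤ chi p := by
  unfold chi
  by_cases hp : p <;> simp [hp]

/-- Lemma A for matrices with adapted potentials. -/
theorem layout (hC : 0 < C) (hM : ∀ x < n, ∀ y < k, 0 ≤ M x y)
    (hrow : ∀ x < n, ∑ y ∈ range k, M x y = R) (hcol : ∀ y < k, ∑ x ∈ range n, M x y = C)
    (hpot : ∀ x < n, ∀ y < k, M x y ≠ 0 →
      j x + ∑ y' ∈ range y, M x y' = h y + ∑ x' ∈ range x, M x' y)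
    (S : ℕ → ℕ → Prop) (hS : ∀ x x', S x x' ↔ S x' x) (hS0 : ∀ x, ¬ S x x)
    (P : ℕ → ℕ → Prop)
    (hodd : Odd (∑ x ∈ range n, ∑ y ∈ range k, chi (P x y))) :
    C ≤ ∑ x ∈ range n, ∑ y ∈ range k, ∑ x' ∈ range n,
      M x' y * ((chi (¬ (S x x' ↔ P x y)) : ℤ) : ℝ) := by
  -- the number of crossings at the point `c`
  set N : ℝ → ℤ := fun c => ∑ x ∈ range n, ∑ y ∈ range k, ∑ x' ∈ range n,
    ev C (j x + h y + ∑ x'' ∈ range x', M x'' y) (M x' y) c * chi (¬ (S x x' ↔ P x y)) with hN
  have hpos : ∀ c, 1 ≤ N c := by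
    intro c
    have h0 : 0 ≤ N c := by
      refine sum_nonneg fun x _ => sum_nonneg fun y hy => sum_nonneg fun x' hx' => ?_
      exact mul_nonneg (ev_nonneg hC (hM _ (mem_range.1 hx') _ (mem_range.1 hy))) (chi_nonneg _)
    have hoddN : Odd (N c) := by
      have e1 : N c = ∑ x ∈ range n, ∑ y ∈ range k, ∑ x' ∈ range n,
          ev C (j x + h y + ∑ x'' ∈ range x', M x'' y) (M x' y) c * chi (S x x') +
          ∑ x ∈ range n, ∑ y ∈ range k, ∑ x' ∈ range n,
          ev C (j x + h y + ∑ x'' ∈ range x', M x'' y) (M x' y) c * chi (P x y) -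
          2 * ∑ x ∈ range n, ∑ y ∈ range k, ∑ x' ∈ range n,
          ev C (j x + h y + ∑ x'' ∈ range x', M x'' y) (M x' y) c *
            (chi (S x x') * chi (P x y)) := by
        rw [hN]
        simp only [chi_xor, mul_sum, ← sum_add_distrib, ← sum_sub_distrib]
        refine sum_congr rfl fun x _ => sum_congr rfl fun y _ => sum_congr rfl fun x' _ => ?_
        ring
      have e2 : ∑ x ∈ range n, ∑ y ∈ range k, ∑ x' ∈ range n,
          ev C (j x + h y + ∑ x'' ∈ range x', M x'' y) (M x' y) c * chi (P x y) =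
          ∑ x ∈ range n, ∑ y ∈ range k, chi (P x y) := by
        refine sum_congr rfl fun x _ => sum_congr rfl fun y hy => ?_
        rw [← sum_mul, ev_sum, hcol y (mem_range.1 hy)]
        have : ev C (j x + h y) C c = 1 := by
          unfold ev
          have e3 : (j x + h y + C - c) / C = (j x + h y - c) / C + (1 : ℤ) := by
            push_cast; field_simp; ring
          rw [e3, Int.ceil_add_intCast]; ring
        rw [this, one_mul]
      have e4 : ∑ x ∈ range n, ∑ y ∈ range k, ∑ x' ∈ range n,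
          ev C (j x + h y + ∑ x'' ∈ range x', M x'' y) (M x' y) c * chi (S x x') =
          ∑ x : Fin n, ∑ x' : Fin n, ev C (j x + j x') R c * chi (S x x') := by
        rw [Finset.sum_range]
        refine sum_congr rfl fun x _ => ?_
        rw [sum_comm, Finset.sum_range]
        refine sum_congr rfl fun x' _ => ?_
        rw [← sum_mul]
        congr 1
        have e5 : ∀ y ∈ range k, ev C (j x + h y + ∑ x'' ∈ range x', M x'' y) (M x' y) c =
            ev C (j x + j x' + ∑ y' ∈ range y, M x' y') (M x' y) c := by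
          intro y hy
          by_cases h0 : M x' y = 0
          · rw [h0, ev_zero, ev_zero]
          · have := hpot x' x'.2 y (mem_range.1 hy) h0
            have e6 : j x + h y + ∑ x'' ∈ range x', M x'' y =
              j x + j x' + ∑ y' ∈ range y, M x' y' := by linarith
            rw [e6]
        rw [sum_congr rfl e5, ev_sum, hrow x' x'.2]
      have e7 : Even (∑ x : Fin n, ∑ x' : Fin n, ev C (j x + j x') R c * chi (S x x')) := by
        refine even_sum (fun x x' : Fin n => ev C (j x + j x') R c * chi (S x x')) ?_ ?_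
        · intro x x'
          rw [add_comm (j x), show chi (S x x') = chi (S x' x) by rw [hS]]
        · intro x
          have : chi (S x x) = 0 := by simp [chi, hS0]
          simp [this]
      rw [e1, e2, e4]
      have e8 : Even (2 * ∑ x ∈ range n, ∑ y ∈ range k, ∑ x' ∈ range n,
          ev C (j x + h y + ∑ x'' ∈ range x', M x'' y) (M x' y) c *
            (chi (S x x') * chi (P x y))) := even_two_mul _
      exact (e7.add_odd hodd).sub_even e8
    rcases hoddN with ⟨m, hm⟩
    omega
  -- integrate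
  have hint : ∫ c in (0 : ℝ)..C, ((N c : ℤ) : ℝ) = ∑ x ∈ range n, ∑ y ∈ range k, ∑ x' ∈ range n,
      M x' y * ((chi (¬ (S x x' ↔ P x y)) : ℤ) : ℝ) := by
    have e1 : (fun c => ((N c : ℤ) : ℝ)) = fun c => ∑ x ∈ range n, ∑ y ∈ range k, ∑ x' ∈ range n,
        ((ev C (j x + h y + ∑ x'' ∈ range x', M x'' y) (M x' y) c : ℤ) : ℝ) *
          ((chi (¬ (S x x' ↔ P x y)) : ℤ) : ℝ) := by
      ext c
      rw [hN]
      push_cast
      rfl
    rw [e1, intervalIntegral.integral_finsetSum]
    · refine sum_congr rfl fun x _ => ?_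
      rw [intervalIntegral.integral_finsetSum]
      · refine sum_congr rfl fun y _ => ?_
        rw [intervalIntegral.integral_finsetSum]
        · refine sum_congr rfl fun x' _ => ?_
          rw [intervalIntegral.integral_mul_const, integral_ev hC]
        · intro x' _
          exact (ev_intervalIntegrable _ _ _ _ _).mul_const _
      · intro y _
        refine ii_sum _ _ _ _ fun x' _ => ?_
        exact (ev_intervalIntegrable _ _ _ _ _).mul_const _
    · intro x _
      refine ii_sum _ _ _ _ fun y _ => ?_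
      refine ii_sum _ _ _ _ fun x' _ => ?_
      exact (ev_intervalIntegrable _ _ _ _ _).mul_const _
  rw [← hint]
  have h1 : ∫ _c in (0 : ℝ)..C, (1 : ℝ) = C := by simp
  calc C = ∫ _c in (0 : ℝ)..C, (1 : ℝ) := h1.symm
    _ ≤ ∫ c in (0 : ℝ)..C, ((N c : ℤ) : ℝ) := by
      refine intervalIntegral.integral_mono_on hC.le intervalIntegrable_const ?_ ?_
      · have e1 : (fun c => ((N c : ℤ) : ℝ)) = fun c => ∑ x ∈ range n, ∑ y ∈ range k,
            ∑ x' ∈ range n,
            ((ev C (j x + h y + ∑ x'' ∈ range x', M x'' y) (M x' y) c : ℤ) : ℝ) *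
            ((chi (¬ (S x x' ↔ P x y)) : ℤ) : ℝ) := by
          ext c
          rw [hN]
          push_cast
          rfl
        rw [e1]
        refine ii_sum _ _ _ _ fun x _ => ?_
        refine ii_sum _ _ _ _ fun y _ => ?_
        refine ii_sum _ _ _ _ fun x' _ => ?_
        exact (ev_intervalIntegrable _ _ _ _ _).mul_const _
      · intro c _
        have := hpos c
        exact_mod_cast this

end layout

end Pool.Agent.K7.H44.Circle
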