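import Pool.Agent.K7.H44.Circle

/-!
# Lemma A: the linear bound for all transport matrices
-/

set_option autoImplicit false

open Finset

namespace Pool.Agent.K7.H44.LemmaA

open Pool.Agent.K7.H44.Circle

/-- the support of `M` carries no nonzero matrix with zero margins -/
def Inj (n k : ℕ) (M : ℕ → ℕ → ℝ) : Prop :=
  ∀ δ : ℕ → ℕ → ℝ, (∀ x < n, ∀ y < k, M x y = 0 → δ x y = 0) →
    (∀ x < n, ∑ y ∈ range k, δ x y = 0) → (∀ y < k, ∑ x ∈ range n, δ x y = 0) →
    ∀ x < n, ∀ y < k, δ x y = 0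

/-- Potentials exist for independent supports. -/
theorem potentials (n k : ℕ) (M : ℕ → ℕ → ℝ) (hI : Inj n k M) (d : ℕ → ℕ → ℝ) :
    ∃ j h : ℕ → ℝ, ∀ x < n, ∀ y < k, M x y ≠ 0 → j x - h y = d x y := by
  classical
  let T : (Fin n → Fin k → ℝ) →ₗ[ℝ] (Fin n → ℝ) × (Fin k → ℝ) × (Fin n → Fin k → ℝ) :=
    { toFun := fun f => (fun x => ∑ y, f x y, fun y => ∑ x, f x y,
        fun x y => if M x y = 0 then f x y else 0)
      map_add' := by
        intro f g
        refine Prod.ext ?_ (Prod.ext ?_ ?_)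
        · ext x; simp [sum_add_distrib]
        · ext x; simp [sum_add_distrib]
        · ext x y
          simp only [Pi.add_apply, Prod.mk_add_mk]
          split_ifs <;> simp
      map_smul' := by
        intro r f
        refine Prod.ext ?_ (Prod.ext ?_ ?_)
        · ext x; simp [mul_sum]
        · ext x; simp [mul_sum]
        · ext x y
          simp only [Pi.smul_apply, RingHom.id_apply, smul_eq_mul, Prod.smul_mk]
          split_ifs <;> simp }
  have hTdef : ∀ f : Fin n → Fin k → ℝ, T f = (fun x => ∑ y, f x y, fun y => ∑ x, f x y,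
      fun (x : Fin n) (y : Fin k) => if M x y = 0 then f x y else 0) := fun f => rfl
  have hT : Function.Injective T := by
    rw [injective_iff_map_eq_zero]
    intro f hf
    rw [hTdef] at hf
    let δ : ℕ → ℕ → ℝ := fun x y =>
      if hx : x < n then if hy : y < k then f ⟨x, hx⟩ ⟨y, hy⟩ else 0 else 0
    have hδ : ∀ (x : Fin n) (y : Fin k), δ x y = f x y := by
      intro x y
      simp [δ, x.2, y.2]
    have hf1 := congrArg Prod.fst hf
    have hf2 := congrArg (fun z => z.2.1) hf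
    have hf3 := congrArg (fun z => z.2.2) hf
    have h1 : ∀ x < n, ∀ y < k, δ x y = 0 := by
      refine hI δ ?_ ?_ ?_
      · intro x hx y hy h0
        have := congrFun (congrFun hf3 ⟨x, hx⟩) ⟨y, hy⟩
        simp only [h0, if_true] at this
        rw [hδ ⟨x, hx⟩ ⟨y, hy⟩]
        exact this
      · intro x hx
        have := congrFun hf1 ⟨x, hx⟩
        rw [Finset.sum_range]
        simp only [Prod.fst_zero, Pi.zero_apply] at this
        rw [← this]
        exact sum_congr rfl fun y _ => hδ ⟨x, hx⟩ y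
      · intro y hy
        have := congrFun hf2 ⟨y, hy⟩
        rw [Finset.sum_range]
        simp only [Prod.snd_zero, Prod.fst_zero, Pi.zero_apply] at this
        rw [← this]
        exact sum_congr rfl fun x _ => hδ x ⟨y, hy⟩
    ext x y
    rw [← hδ]
    exact h1 x x.2 y y.2
  let φ : (Fin n → Fin k → ℝ) →ₗ[ℝ] ℝ :=
    { toFun := fun f => ∑ x : Fin n, ∑ y : Fin k, d x y * f x y
      map_add' := by
        intro f g
        simp only [Pi.add_apply, mul_add, sum_add_distrib]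
      map_smul' := by
        intro r f
        simp only [Pi.smul_apply, RingHom.id_apply, smul_eq_mul, mul_sum]
        refine sum_congr rfl fun x _ => sum_congr rfl fun y _ => by ring }
  have hφdef : ∀ f, φ f = ∑ x : Fin n, ∑ y : Fin k, d x y * f x y := fun f => rfl
  obtain ⟨ψ, hψ⟩ := LinearMap.dualMap_surjective_of_injective hT φ
  have hψ' : ∀ f, ψ (T f) = φ f := fun f => by
    rw [← hψ]; rfl
  refine ⟨fun x => if hx : x < n then ψ (Pi.single ⟨x, hx⟩ 1, 0, 0) else 0,
    fun y => if hy : y < k then -ψ (0, Pi.single ⟨y, hy⟩ 1, 0) else 0, ?_⟩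
  intro x hx y hy h0
  simp only [hx, hy, dif_pos, sub_neg_eq_add]
  rw [← map_add]
  have h1 := hψ' (Pi.single ⟨x, hx⟩ (Pi.single ⟨y, hy⟩ 1))
  have h2 : T (Pi.single ⟨x, hx⟩ (Pi.single ⟨y, hy⟩ 1)) =
      ((Pi.single ⟨x, hx⟩ 1, 0, 0) : (Fin n → ℝ) × (Fin k → ℝ) × (Fin n → Fin k → ℝ)) +
      (0, Pi.single ⟨y, hy⟩ 1, 0) := by
    rw [hTdef]
    refine Prod.ext ?_ (Prod.ext ?_ ?_)
    · ext z
      by_cases hz : z = ⟨x, hx⟩
      · subst hz; simp
      · simp [hz]
    · ext z
      simp only [Prod.snd_add, Prod.fst_add, zero_add]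
      rw [Finset.sum_eq_single (⟨x, hx⟩ : Fin n)]
      · simp
      · intro b _ hb
        simp [hb]
      · intro hn; exact absurd (mem_univ _) hn
    · ext z w
      simp only [Prod.snd_add, add_zero, Pi.zero_apply]
      by_cases hz : z = ⟨x, hx⟩
      · subst hz
        by_cases hw : w = ⟨y, hy⟩
        · subst hw
          simp [h0]
        · simp [hw]
      · simp [hz]
  rw [h2] at h1
  rw [h1, hφdef, Finset.sum_eq_single (⟨x, hx⟩ : Fin n), Finset.sum_eq_single (⟨y, hy⟩ : Fin k)]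
  · simp
  · intro b _ hb
    simp [hb]
  · intro hn; exact absurd (mem_univ _) hn
  · intro b _ hb
    simp [hb]
  · intro hn; exact absurd (mem_univ _) hn

/-- support as a finite set -/
noncomputable def supp (n k : ℕ) (M : ℕ → ℕ → ℝ) : Finset (ℕ × ℕ) := by
  classical exact (range n ×ˢ range k).filter (fun e => M e.1 e.2 ≠ 0)

/-- Reduction to independent support without increasing a linear cost. -/
theorem reduce (n k : ℕ) (cost : ℕ → ℕ → ℝ) :
    ∀ (N : ℕ) (M : ℕ → ℕ → ℝ), (supp n k M).card = N → (∀ x < n, ∀ y < k, 0 ≤ M x y) →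
      ∃ M' : ℕ → ℕ → ℝ, (∀ x < n, ∀ y < k, 0 ≤ M' x y) ∧ Inj n k M' ∧
        (∀ x < n, ∀ y < k, M x y = 0 → M' x y = 0) ∧
        (∀ x < n, ∑ y ∈ range k, M' x y = ∑ y ∈ range k, M x y) ∧
        (∀ y < k, ∑ x ∈ range n, M' x y = ∑ x ∈ range n, M x y) ∧
        ∑ x ∈ range n, ∑ y ∈ range k, cost x y * M' x y ≤
          ∑ x ∈ range n, ∑ y ∈ range k, cost x y * M x y := by
  classical
  intro N
  induction N using Nat.strong_induction_on with
  | _ N ih =>
  intro M hN h0
  by_cases hI : Inj n k M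
  · exact ⟨M, h0, hI, fun _ _ _ _ h => h, fun _ _ => rfl, fun _ _ => rfl, le_rfl⟩
  · unfold Inj at hI
    push Not at hI
    obtain ⟨δ0, g1, g2, g3, x0, hx0, y0, hy0, hne⟩ := hI
    -- choose the sign
    obtain ⟨δ, k1, k2, k3, kne, kc⟩ : ∃ δ : ℕ → ℕ → ℝ,
        (∀ x < n, ∀ y < k, M x y = 0 → δ x y = 0) ∧ (∀ x < n, ∑ y ∈ range k, δ x y = 0) ∧
        (∀ y < k, ∑ x ∈ range n, δ x y = 0) ∧ δ x0 y0 ≠ 0 ∧
        ∑ x ∈ range n, ∑ y ∈ range k, cost x y * δ x y ≤ 0 := by
      rcases le_total (∑ x ∈ range n, ∑ y ∈ range k, cost x y * δ0 x y) 0 with h | h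
      · exact ⟨δ0, g1, g2, g3, hne, h⟩
      · refine ⟨fun x y => -δ0 x y, ?_, ?_, ?_, ?_, ?_⟩
        · intro x hx y hy h1; simp [g1 x hx y hy h1]
        · intro x hx; simp [g2 x hx]
        · intro y hy; simp [g3 y hy]
        · simpa using hne
        · simp only [mul_neg, sum_neg_distrib]; linarith
    -- negative entries
    set Neg : Finset (ℕ × ℕ) := (range n ×ˢ range k).filter (fun e => δ e.1 e.2 < 0) with hNeg
    have hNe : Neg.Nonempty := by
      by_contra hcon
      rw [not_nonempty_iff_eq_empty] at hcon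
      have hnn : ∀ y ∈ range k, 0 ≤ δ x0 y := by
        intro y hy
        by_contra hlt
        have : (x0, y) ∈ Neg := mem_filter.2 ⟨mem_product.2 ⟨mem_range.2 hx0, hy⟩, not_le.1 hlt⟩
        rw [hcon] at this
        exact absurd this (notMem_empty _)
      have := (sum_eq_zero_iff_of_nonneg hnn).1 (k2 x0 hx0) y0 (mem_range.2 hy0)
      exact kne this
    obtain ⟨e, heN, hemin⟩ := exists_min_image Neg (fun e => M e.1 e.2 / (-δ e.1 e.2)) hNe
    obtain ⟨hep, hed⟩ := mem_filter.1 heN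
    obtain ⟨he1, he2⟩ := mem_product.1 hep
    have he1' := mem_range.1 he1
    have he2' := mem_range.1 he2
    set τ : ℝ := M e.1 e.2 / (-δ e.1 e.2) with hτ
    have hδe : 0 < -δ e.1 e.2 := by linarith
    have hMe : M e.1 e.2 ≠ 0 := by
      intro h
      have := k1 e.1 he1' e.2 he2' h
      linarith
    have hMe0 : 0 < M e.1 e.2 := lt_of_le_of_ne (h0 _ he1' _ he2') (Ne.symm hMe)
    have hτ0 : 0 < τ := div_pos hMe0 hδe
    set M1 : ℕ → ℕ → ℝ := fun x y => M x y + τ * δ x y with hM1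
    have hM1nn : ∀ x < n, ∀ y < k, 0 ≤ M1 x y := by
      intro x hx y hy
      rw [hM1]
      simp only
      rcases lt_or_ge (δ x y) 0 with h | h
      · have hm := hemin (x, y) (mem_filter.2 ⟨mem_product.2 ⟨mem_range.2 hx, mem_range.2 hy⟩, h⟩)
        have h5 : 0 < -δ x y := by linarith
        rw [le_div_iff₀ h5] at hm
        linarith
      · have := h0 x hx y hy
        have := mul_nonneg hτ0.le h
        linarith
    have hM1e : M1 e.1 e.2 = 0 := by
      rw [hM1]
      simp only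
      rw [hτ]
      have h6 : δ e.1 e.2 ≠ 0 := by linarith
      field_simp
      ring
    have hsub : supp n k M1 ⊂ supp n k M := by
      have hs1 : supp n k M1 ⊆ supp n k M := by
        intro z hz
        obtain ⟨hz1, hz2⟩ := mem_filter.1 hz
        refine mem_filter.2 ⟨hz1, fun h => hz2 ?_⟩
        obtain ⟨q1, q2⟩ := mem_product.1 hz1
        rw [hM1]
        simp only
        rw [h, k1 _ (mem_range.1 q1) _ (mem_range.1 q2) h]
        ring
      rw [Finset.ssubset_iff_of_subset hs1]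
      exact ⟨e, mem_filter.2 ⟨hep, hMe⟩, fun h => (mem_filter.1 h).2 hM1e⟩
    obtain ⟨M', r1, r2, r3, r4, r5, r6⟩ := ih _ (hN ▸ card_lt_card hsub) M1 rfl hM1nn
    refine ⟨M', r1, r2, ?_, ?_, ?_, ?_⟩
    · intro x hx y hy h
      refine r3 x hx y hy ?_
      rw [hM1]
      simp only
      rw [h, k1 x hx y hy h]; ring
    · intro x hx
      rw [r4 x hx, hM1]
      simp only [sum_add_distrib, ← mul_sum]
      rw [k2 x hx]; ring
    · intro y hy
      rw [r5 y hy, hM1]
      simp only [sum_add_distrib, ← mul_sum]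
      rw [k3 y hy]; ring
    · refine r6.trans ?_
      rw [hM1]
      simp only
      have e1 : ∑ x ∈ range n, ∑ y ∈ range k, cost x y * (M x y + τ * δ x y) =
          ∑ x ∈ range n, ∑ y ∈ range k, cost x y * M x y +
          τ * ∑ x ∈ range n, ∑ y ∈ range k, cost x y * δ x y := by
        simp only [mul_sum, ← sum_add_distrib]
        refine sum_congr rfl fun x _ => sum_congr rfl fun y _ => by ring
      rw [e1]
      nlinarith

/-- Lemma A. -/
theorem lemmaA {n k : ℕ} (M : ℕ → ℕ → ℝ) (R C : ℝ) (hC : 0 < C)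
    (hM : ∀ x < n, ∀ y < k, 0 ≤ M x y)
    (hrow : ∀ x < n, ∑ y ∈ range k, M x y = R) (hcol : ∀ y < k, ∑ x ∈ range n, M x y = C)
    (S : ℕ → ℕ → Prop) (hS : ∀ x x', S x x' ↔ S x' x) (hS0 : ∀ x, ¬ S x x)
    (P : ℕ → ℕ → Prop)
    (hodd : Odd (∑ x ∈ range n, ∑ y ∈ range k, chi (P x y))) :
    C ≤ ∑ x ∈ range n, ∑ y ∈ range k, ∑ x' ∈ range n,
      M x' y * ((chi (¬ (S x x' ↔ P x y)) : ℤ) : ℝ) := by
  -- the cost of an entry
  set cost : ℕ → ℕ → ℝ := fun x' y => ∑ x ∈ range n, ((chi (¬ (S x x' ↔ P x y)) : ℤ) : ℝ)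
    with hcost
  have hre : ∀ M : ℕ → ℕ → ℝ, ∑ x ∈ range n, ∑ y ∈ range k, ∑ x' ∈ range n,
      M x' y * ((chi (¬ (S x x' ↔ P x y)) : ℤ) : ℝ) =
      ∑ x' ∈ range n, ∑ y ∈ range k, cost x' y * M x' y := by
    intro M
    rw [hcost]
    simp only [sum_mul]
    rw [sum_comm]
    have e1 : ∀ y ∈ range k, ∑ x ∈ range n, ∑ x' ∈ range n,
        M x' y * ((chi (¬ (S x x' ↔ P x y)) : ℤ) : ℝ) =
        ∑ x' ∈ range n, ∑ x ∈ range n, ((chi (¬ (S x x' ↔ P x y)) : ℤ) : ℝ) * M x' y := by
      intro y _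
      rw [sum_comm]
      refine sum_congr rfl fun x _ => sum_congr rfl fun x' _ => mul_comm _ _
    rw [sum_congr rfl e1, sum_comm]
  obtain ⟨M', r1, r2, r3, r4, r5, r6⟩ := reduce n k cost _ M rfl hM
  obtain ⟨j, h, hjh⟩ := potentials n k M' r2
    (fun x y => ∑ x' ∈ range x, M' x' y - ∑ y' ∈ range y, M' x y')
  have := layout (n := n) (k := k) M' R C j h hC r1 (fun x hx => (r4 x hx).trans (hrow x hx))
    (fun y hy => (r5 y hy).trans (hcol y hy)) (fun x hx y hy h0 => by
      have := hjh x hx y hy h0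
      linarith) S hS hS0 P hodd
  rw [hre] at this ⊢
  exact this.trans r6

end Pool.Agent.K7.H44.LemmaA
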