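import Pool.Agent.K7.H44.LemmaA

/-!
# Symmetric families of owner maps and involutions
-/

set_option autoImplicit false

open Finset

namespace Pool.Agent.K7.H44.Owners

open Pool.Agent.K7.H44.Circle Pool.Agent.K7.H44.LemmaA

/-- A symmetric family of owner maps gives an involution. -/
theorem involution {n k : ℕ} (g : Fin n → Fin k → Fin n)
    (hg : ∀ x x', (univ.filter (fun y => g x y = x')).card =
      (univ.filter (fun y => g x' y = x)).card) :
    ∃ θ : Equiv.Perm (Fin n × Fin k), (∀ p, θ (θ p) = p) ∧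
      ∀ p, (θ p).1 = g p.1 p.2 ∧ g (θ p).1 (θ p).2 = p.1 := by
  classical
  let s : Fin n → Fin n → Finset (Fin k) := fun x x' => univ.filter (fun y => g x y = x')
  have hs : ∀ x x', (s x x').card = (s x' x).card := hg
  let Rel : Fin n × Fin k → Fin n × Fin k → Prop := fun p q =>
    ∃ (i : ℕ) (hi : i < (s p.1 q.1).card) (hi' : i < (s q.1 p.1).card),
      p.2 = (s p.1 q.1).orderEmbOfFin rfl ⟨i, hi⟩ ∧ q.2 = (s q.1 p.1).orderEmbOfFin rfl ⟨i, hi'⟩
  have hsymm : ∀ p q, Rel p q → Rel q p := by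
    rintro p q ⟨i, hi, hi', h1, h2⟩
    exact ⟨i, hi', hi, h2, h1⟩
  have hmem : ∀ p q, Rel p q → q.1 = g p.1 p.2 := by
    rintro p q ⟨i, hi, hi', h1, h2⟩
    have : p.2 ∈ s p.1 q.1 := by
      rw [h1]; exact Finset.orderEmbOfFin_mem _ _ _
    exact (mem_filter.1 this).2.symm
  have hex : ∀ p, ∃ q, Rel p q := by
    rintro ⟨x, y⟩
    have hy : y ∈ s x (g x y) := mem_filter.2 ⟨mem_univ _, rfl⟩
    have hr : y ∈ Set.range ((s x (g x y)).orderEmbOfFin rfl) := by
      rw [Finset.range_orderEmbOfFin]; exact hy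
    obtain ⟨⟨i, hi⟩, hi2⟩ := hr
    have hi' : i < (s (g x y) x).card := by rw [← hs]; exact hi
    exact ⟨(g x y, (s (g x y) x).orderEmbOfFin rfl ⟨i, hi'⟩), i, hi, hi', hi2.symm, rfl⟩
  have huniq : ∀ p q q', Rel p q → Rel p q' → q = q' := by
    rintro ⟨x, y⟩ ⟨x1, y1⟩ ⟨x2, y2⟩ h1 h2
    have e1 := hmem _ _ h1
    have e2 := hmem _ _ h2
    simp only at e1 e2
    subst e1
    subst e2
    obtain ⟨i, hi, hi', a1, a2⟩ := h1
    obtain ⟨j, hj, hj', b1, b2⟩ := h2
    simp only at a1 a2 b1 b2 hi hi' hj hj'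
    have hij : i = j := by
      have := a1.symm.trans b1
      have := ((s x (g x y)).orderEmbOfFin rfl).injective this
      exact congrArg Fin.val this
    subst hij
    rw [a2, b2]
  choose f hf using hex
  have hinv : Function.Involutive f := fun p => huniq (f p) _ _ (hf (f p)) (hsymm _ _ (hf p))
  refine ⟨hinv.toPerm f, fun p => hinv p, fun p => ⟨hmem _ _ (hf p), ?_⟩⟩
  exact (hmem _ _ (hsymm _ _ (hf p))).symm

/-- Symmetric owner maps from a transport matrix with independent support. -/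
theorem owners {n k : ℕ} (M : ℕ → ℕ → ℝ) (R C : ℝ) (hC : 0 < C)
    (hM : ∀ x < n, ∀ y < k, 0 ≤ M x y)
    (hrow : ∀ x < n, ∑ y ∈ range k, M x y = R) (hcol : ∀ y < k, ∑ x ∈ range n, M x y = C)
    (hI : Inj n k M) :
    ∃ g : Fin n → Fin k → Fin n, (∀ x y, M (g x y) y ≠ 0) ∧
      ∀ x x', (univ.filter (fun y => g x y = x')).card =
        (univ.filter (fun y => g x' y = x)).card := by
  classical
  obtain ⟨j, h, hjh⟩ := potentials n k M hI
    (fun x y => ∑ x' ∈ range x, M x' y - ∑ y' ∈ range y, M x y')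
  set E : Fin n → Fin k → Fin n → ℤ := fun x y x' =>
    ev C (j x + h y + ∑ x'' ∈ range x', M x'' y) (M x' y) 0 with hE
  have hE0 : ∀ x y x', 0 ≤ E x y x' := fun x y x' => ev_nonneg hC (hM _ x'.2 _ y.2)
  have hE1 : ∀ x y, ∑ x', E x y x' = 1 := by
    intro x y
    have e1 : ∑ x', E x y x' = ∑ x' ∈ range n,
        ev C (j x + h y + ∑ x'' ∈ range x', M x'' y) (M x' y) 0 :=
      (Finset.sum_range (fun x' => ev C (j x + h y + ∑ x'' ∈ range x', M x'' y) (M x' y) 0)).symm
    rw [e1, ev_sum, hcol y y.2]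
    unfold ev
    have e3 : (j x + h y + C - 0) / C = (j x + h y - 0) / C + (1 : ℤ) := by
      push_cast; field_simp; ring
    rw [e3, Int.ceil_add_intCast]; ring
  have hex : ∀ x y, ∃ x', E x y x' ≠ 0 := by
    intro x y
    by_contra hcon
    push Not at hcon
    have := hE1 x y
    rw [sum_eq_zero fun x' _ => hcon x'] at this
    exact zero_ne_one this
  choose g hg using hex
  have hval : ∀ x y x', E x y x' = if g x y = x' then 1 else 0 := by
    intro x y x'
    have h1 := hE1 x y
    rw [← add_sum_erase univ _ (mem_univ (g x y))] at h1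
    have h2 : 0 ≤ ∑ z ∈ univ.erase (g x y), E x y z := sum_nonneg fun z _ => hE0 x y z
    have h3 : 1 ≤ E x y (g x y) := by
      have := hE0 x y (g x y)
      have := hg x y
      omega
    have h4 : ∑ z ∈ univ.erase (g x y), E x y z = 0 := by omega
    by_cases hx : g x y = x'
    · rw [if_pos hx, ← hx]; omega
    · rw [if_neg hx]
      exact (sum_eq_zero_iff_of_nonneg fun z _ => hE0 x y z).1 h4 x'
        (mem_erase.2 ⟨fun h => hx h.symm, mem_univ _⟩)
  have hcount : ∀ x x', (((univ.filter (fun y => g x y = x')).card : ℕ) : ℤ) =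
      ev C (j x + j x') R 0 := by
    intro x x'
    have e1 : (((univ.filter (fun y => g x y = x')).card : ℕ) : ℤ) = ∑ y, E x y x' := by
      rw [sum_congr rfl fun y _ => hval x y x']
      simp
    rw [e1]
    have e2 : ∑ y : Fin k, E x y x' = ∑ y ∈ range k,
        ev C (j x + h y + ∑ x'' ∈ range x', M x'' y) (M x' y) 0 :=
      (Finset.sum_range (fun y => ev C (j x + h y + ∑ x'' ∈ range x', M x'' y) (M x' y) 0)).symm
    rw [e2]
    have e5 : ∀ y ∈ range k, ev C (j x + h y + ∑ x'' ∈ range x', M x'' y) (M x' y) 0 =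
        ev C (j x + j x' + ∑ y' ∈ range y, M x' y') (M x' y) 0 := by
      intro y hy
      by_cases h0 : M x' y = 0
      · rw [h0, ev_zero, ev_zero]
      · have := hjh x' x'.2 y (mem_range.1 hy) h0
        have e6 : j x + h y + ∑ x'' ∈ range x', M x'' y =
          j x + j x' + ∑ y' ∈ range y, M x' y' := by linarith
        rw [e6]
    rw [sum_congr rfl e5, ev_sum, hrow x' x'.2]
  refine ⟨g, ?_, ?_⟩
  · intro x y h0
    have := hval x y (g x y)
    rw [if_pos rfl, hE] at this
    simp only at this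
    rw [h0, ev_zero] at this
    exact zero_ne_one this
  · intro x x'
    have h1 := hcount x x'
    have h2 := hcount x' x
    rw [add_comm (j x' : ℝ) (j x)] at h2
    exact_mod_cast h1.trans h2.symm

end Pool.Agent.K7.H44.Owners
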