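import Mathlib

set_option autoImplicit false

namespace Pool.Agent.K7.H44.Shameful

open Finset
open scoped Classical

/-- pointwise inequality: averages of `s ^ z b` -/
lemma avg_ineq {α : Type} (C A : Finset α) (hAC : A ⊆ C) (z : α → ℕ) (s : ℝ) (hs0 : 0 ≤ s)
    (hs1 : s ≤ 1) (hsum : ∑ b ∈ C, z b ≤ C.card) (hz : ∀ b ∈ C \ A, 1 ≤ z b) :
    (A.card : ℝ) * ∑ b ∈ C, s ^ z b ≤ (C.card : ℝ) * ∑ a ∈ A, s ^ z a := by
  have h1 : (C.card : ℝ) * s ≤ ∑ b ∈ C, s ^ z b := by
    have hb : ∀ b ∈ C, (1 - (z b : ℝ) * (1 - s)) ≤ s ^ z b := by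
      intro b _
      have := one_add_mul_le_pow (a := s - 1) (by linarith) (z b)
      have h2 : (1 + (s - 1)) = s := by ring
      rw [h2] at this
      linarith
    have h2 := Finset.sum_le_sum hb
    have h3 : ∑ b ∈ C, (1 - (z b : ℝ) * (1 - s)) = (C.card : ℝ) - (1 - s) * ∑ b ∈ C, (z b : ℝ) := by
      rw [Finset.sum_sub_distrib, ← Finset.sum_mul]
      simp
      ring
    have h4 : (∑ b ∈ C, (z b : ℝ)) ≤ C.card := by exact_mod_cast hsum
    have h5 : (1 - s) * ∑ b ∈ C, (z b : ℝ) ≤ (1 - s) * C.card :=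
      mul_le_mul_of_nonneg_left h4 (by linarith)
    rw [h3] at h2
    linarith
  have h2 : ∑ b ∈ C \ A, s ^ z b ≤ ((C \ A).card : ℝ) * s := by
    have : ∀ b ∈ C \ A, s ^ z b ≤ s := by
      intro b hb
      calc s ^ z b ≤ s ^ 1 := pow_le_pow_of_le_one hs0 hs1 (hz b hb)
        _ = s := pow_one s
    have h3 := Finset.sum_le_sum this
    simpa using h3
  have h3 : ∑ b ∈ C \ A, s ^ z b + ∑ a ∈ A, s ^ z a = ∑ b ∈ C, s ^ z b :=
    Finset.sum_sdiff hAC
  have h4 : ((C \ A).card : ℝ) + A.card = C.card := by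
    have := Finset.card_sdiff_add_card_eq_card hAC
    exact_mod_cast this
  have h5 : (0 : ℝ) ≤ A.card := by positivity
  have h6 : (0 : ℝ) ≤ (C \ A).card := by positivity
  set T := ∑ b ∈ C, s ^ z b with hT
  set TA := ∑ a ∈ A, s ^ z a with hTA
  set TB := ∑ b ∈ C \ A, s ^ z b with hTB
  -- TA = T - TB ≥ T - (|C\A|) s;  |C| TA ≥ |C| T - |C\A| (|C| s) ≥ |C| T - |C\A| T = |A| T
  have h7 : (C.card : ℝ) * TB ≤ ((C \ A).card : ℝ) * T := by
    calc (C.card : ℝ) * TB ≤ (C.card : ℝ) * (((C \ A).card : ℝ) * s) :=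
          mul_le_mul_of_nonneg_left h2 (by positivity)
      _ = ((C \ A).card : ℝ) * ((C.card : ℝ) * s) := by ring
      _ ≤ ((C \ A).card : ℝ) * T := mul_le_mul_of_nonneg_left h1 h6
  have h8 : (A.card : ℝ) * T = (C.card : ℝ) * T - ((C \ A).card : ℝ) * T := by
    rw [← h4]; ring
  have h9 : (C.card : ℝ) * TA = (C.card : ℝ) * T - (C.card : ℝ) * TB := by
    rw [← h3]; ring
  linarith

variable {V α : Type} [Fintype V] [Fintype α]

/-- proper colourings -/
noncomputable def PC (G : SimpleGraph V) (α : Type) [Fintype α] : Finset (V → α) :=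
  univ.filter (fun f => ∀ u v, G.Adj u v → f u ≠ f v)

/-- size of a colour class -/
noncomputable def Z {V : Type} [Fintype V] (f : V → α) (b : α) : ℕ :=
  (univ.filter (fun v => f v = b)).card

lemma mem_PC {G : SimpleGraph V} {f : V → α} :
    f ∈ PC G α ↔ ∀ u v, G.Adj u v → f u ≠ f v := by
  simp [PC]

/-- extension of a function on the complement of `z0` -/
noncomputable def ext (z0 : V) (g : {j // j ≠ z0} → α) (a : α) : V → α :=
  (Equiv.funSplitAt z0 α).symm (a, g)

omit [Fintype V] [Fintype α] in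
lemma ext_self (z0 : V) (g : {j // j ≠ z0} → α) (a : α) : ext z0 g a z0 = a := by
  simp [ext, Equiv.funSplitAt, Equiv.piSplitAt]

omit [Fintype V] [Fintype α] in
lemma ext_ne (z0 : V) (g : {j // j ≠ z0} → α) (a : α) (u : V) (h : u ≠ z0) :
    ext z0 g a u = g ⟨u, h⟩ := by
  simp [ext, Equiv.funSplitAt, Equiv.piSplitAt, h]

omit [Fintype α] in
lemma Z_ext (z0 : V) (g : {j // j ≠ z0} → α) (a b : α) :
    Z (ext z0 g a) b = Z g b + if a = b then 1 else 0 := by
  unfold Z
  rw [Finset.card_filter, Finset.card_filter]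
  rw [Fintype.sum_eq_add_sum_subtype_ne _ z0, ext_self, add_comm]
  congr 1
  apply Finset.sum_congr rfl
  intro u _
  rw [ext_ne z0 g a u u.2]

/-- the sum over all functions, grouped -/
lemma sum_group (z0 : V) (Φ : (V → α) → ℝ) :
    ∑ f : V → α, Φ f = ∑ g : {j // j ≠ z0} → α, ∑ a : α, Φ (ext z0 g a) := by
  rw [← (Equiv.funSplitAt z0 α).symm.sum_comp, Fintype.sum_prod_type_right]
  rfl


lemma card_C (G : SimpleGraph V) (K : Finset V) (hK : G.IsClique (K : Set V)) (z0 : V)
    (hz0 : z0 ∈ K) (g : {j // j ≠ z0} → α)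
    (hg : ∀ u v : {j // j ≠ z0}, G.Adj u v → g u ≠ g v) :
    ((univ.filter (fun b : α => ∀ u : {j // j ≠ z0}, (u : V) ∈ K → g u ≠ b)).card : ℝ)
      = (Fintype.card α : ℝ) - K.card + 1 := by
  set S : Finset {j // j ≠ z0} := univ.filter (fun u => (u : V) ∈ K) with hS
  have h1 : (univ.filter (fun b : α => ∀ u : {j // j ≠ z0}, (u : V) ∈ K → g u ≠ b))
      = (S.image g)ᶜ := by
    ext b
    simp only [hS, mem_filter, mem_univ, true_and, mem_compl, mem_image, not_exists, not_and]
  have h2 : (S.image g).card = S.card := by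
    apply Finset.card_image_of_injOn
    intro u hu v hv huv
    by_contra hne
    have hu' : (u : V) ∈ K := by simpa [hS] using hu
    have hv' : (v : V) ∈ K := by simpa [hS] using hv
    have hne' : (u : V) ≠ v := fun h => hne (Subtype.ext h)
    exact hg u v (hK (by exact_mod_cast hu') (by exact_mod_cast hv') hne') huv
  have h3 : S.card + 1 = K.card := by
    have h4 : S.card = (K.erase z0).card := by
      have : S.map (Function.Embedding.subtype _) = K.erase z0 := by
        ext x
        simp [hS]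
        constructor
        · rintro ⟨h1, h2⟩
          exact ⟨h2, h1⟩
        · rintro ⟨h1, h2⟩
          exact ⟨h2, h1⟩
      rw [← this, Finset.card_map]
    rw [h4, Finset.card_erase_add_one hz0]
  rw [h1, Finset.card_compl, h2, Nat.cast_sub, ← h3]
  · push_cast
    ring
  · rw [← h2]
    exact Finset.card_le_univ _

lemma sum_z_le (K : Finset V) (z0 : V) (g : {j // j ≠ z0} → α) :
    (∑ b ∈ (univ.filter (fun b : α => ∀ u : {j // j ≠ z0}, (u : V) ∈ K → g u ≠ b)), Z g b)
      + K.card ≤ Fintype.card V := by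
  set C := (univ.filter (fun b : α => ∀ u : {j // j ≠ z0}, (u : V) ∈ K → g u ≠ b)) with hC
  have h1 : ∑ b ∈ C, Z g b = (univ.filter (fun u : {j // j ≠ z0} => g u ∈ C)).card := by
    rw [Finset.card_eq_sum_card_fiberwise (f := g) (t := C)]
    · apply Finset.sum_congr rfl
      intro b hb
      unfold Z
      congr 1
      ext u
      simp only [mem_filter, mem_univ, true_and]
      constructor
      · intro h
        exact ⟨h ▸ hb, h⟩
      · intro h
        exact h.2
    · intro u hu
      simpa using hu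
  have h2 : (univ.filter (fun u : {j // j ≠ z0} => g u ∈ C)).card ≤ (Kᶜ).card := by
    rw [← Finset.card_map (Function.Embedding.subtype _)]
    apply Finset.card_le_card
    intro x hx
    simp only [mem_map, mem_filter, mem_univ, true_and, Function.Embedding.coe_subtype] at hx
    obtain ⟨u, hu, rfl⟩ := hx
    rw [Finset.mem_compl]
    intro hK
    rw [hC] at hu
    simp only [mem_filter, mem_univ, true_and] at hu
    exact hu u hK rfl
  have h3 := Finset.card_add_card_compl K
  omega

lemma keyM (G : SimpleGraph V) (hcard : Fintype.card V ≤ Fintype.card α) (K : Finset V)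
    (hK : G.IsClique (K : Set V)) (z0 : V) (hz0 : z0 ∈ K) (s : ℝ) (hs0 : 0 ≤ s) (hs1 : s ≤ 1) :
    s * ∑ f ∈ PC G α, ∑ b ∈ univ.filter (fun b => ∀ u ∈ K, f u ≠ b), s ^ Z f b
      ≤ ((Fintype.card α : ℝ) - K.card) * ∑ f ∈ PC G α, s ^ Z f (f z0) := by
  set κ : ℝ := (Fintype.card α : ℝ) - K.card with hκ
  set Φ : (V → α) → ℝ := fun f => if f ∈ PC G α then
    κ * s ^ Z f (f z0) - s * ∑ b ∈ univ.filter (fun b => ∀ u ∈ K, f u ≠ b), s ^ Z f b else 0
    with hΦ
  suffices h : 0 ≤ ∑ f : V → α, Φ f by
    rw [hΦ] at h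
    rw [← Finset.sum_filter] at h
    have h1 : (univ.filter (fun f => f ∈ PC G α)) = PC G α := by
      ext f; simp
    rw [h1, Finset.sum_sub_distrib, ← Finset.mul_sum, ← Finset.mul_sum] at h
    linarith
  rw [sum_group z0]
  apply Finset.sum_nonneg
  intro g _
  by_cases hg : ∀ u v : {j // j ≠ z0}, G.Adj u v → g u ≠ g v
  swap
  · apply le_of_eq
    symm
    apply Finset.sum_eq_zero
    intro a _
    rw [hΦ]
    simp only
    rw [if_neg]
    intro hmem
    apply hg
    intro u v huv
    have := mem_PC.1 hmem u v huv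
    rwa [ext_ne z0 g a u u.2, ext_ne z0 g a v v.2] at this
  set A : Finset α := univ.filter (fun a => ∀ u : {j // j ≠ z0}, G.Adj z0 u → g u ≠ a) with hA
  set C : Finset α := univ.filter (fun b => ∀ u : {j // j ≠ z0}, (u : V) ∈ K → g u ≠ b) with hC
  have hAC : A ⊆ C := by
    intro a ha
    rw [hA] at ha
    rw [hC]
    simp only [mem_filter, mem_univ, true_and] at ha ⊢
    intro u hu
    exact ha u (hK (by exact_mod_cast hz0) (by exact_mod_cast hu) (fun h => u.2 h.symm))
  have hmem : ∀ a, ext z0 g a ∈ PC G α ↔ a ∈ A := by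
    intro a
    rw [mem_PC, hA]
    simp only [mem_filter, mem_univ, true_and]
    constructor
    · intro h u hu
      have := h z0 u hu
      rw [ext_self, ext_ne z0 g a u u.2] at this
      exact this.symm
    · intro h u v huv
      by_cases hu : u = z0
      · subst hu
        have hv : v ≠ u := fun h => G.loopless.irrefl _ (h ▸ huv)
        rw [ext_self, ext_ne _ g a v hv]
        exact (h ⟨v, hv⟩ huv).symm
      · by_cases hv : v = z0
        · subst hv
          rw [ext_self, ext_ne _ g a u hu]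
          exact h ⟨u, hu⟩ huv.symm
        · rw [ext_ne _ g a u hu, ext_ne _ g a v hv]
          exact hg ⟨u, hu⟩ ⟨v, hv⟩ huv
  have hCa : ∀ a, univ.filter (fun b => ∀ u ∈ K, ext z0 g a u ≠ b) = C.erase a := by
    intro a
    ext b
    simp only [hC, mem_filter, mem_univ, true_and, mem_erase]
    constructor
    · intro h
      refine ⟨?_, ?_⟩
      · have := h z0 hz0
        rw [ext_self] at this
        exact this.symm
      · intro u hu
        have := h u hu
        rwa [ext_ne _ g a u u.2] at this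
    · rintro ⟨h1, h2⟩ u hu
      by_cases hu' : u = z0
      · subst hu'
        rw [ext_self]
        exact h1.symm
      · rw [ext_ne _ g a u hu']
        exact h2 ⟨u, hu'⟩ hu
  have hΦa : ∀ a, Φ (ext z0 g a) = if a ∈ A then
      s * (κ * s ^ Z g a - ∑ b ∈ C.erase a, s ^ Z g b) else 0 := by
    intro a
    rw [hΦ]
    simp only [hmem a]
    by_cases ha : a ∈ A
    · rw [if_pos ha, if_pos ha, hCa a, ext_self, Z_ext, if_pos rfl, pow_succ]
      have : ∑ b ∈ C.erase a, s ^ Z (ext z0 g a) b = ∑ b ∈ C.erase a, s ^ Z g b := by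
        apply Finset.sum_congr rfl
        intro b hb
        rw [Z_ext, if_neg (fun h => (Finset.ne_of_mem_erase hb) h.symm), add_zero]
      rw [this]
      ring
    · rw [if_neg ha, if_neg ha]
  simp_rw [hΦa]
  rw [← Finset.sum_filter]
  have hfA : (univ.filter (fun a => a ∈ A)) = A := by ext a; simp
  rw [hfA, ← Finset.mul_sum]
  apply mul_nonneg hs0
  have hCcard : (C.card : ℝ) = κ + 1 := by
    rw [hC, card_C G K hK z0 hz0 g hg]
  have hsumz := sum_z_le K z0 g
  have hineq := avg_ineq C A hAC (Z g) s hs0 hs1 (by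
    have h1 : (C.card : ℝ) = (Fintype.card α : ℝ) - K.card + 1 := by rw [hCcard]
    have h2 : (C.card + K.card : ℝ) = (Fintype.card α + 1 : ℝ) := by rw [h1]; ring
    have h3 : C.card + K.card = Fintype.card α + 1 := by exact_mod_cast h2
    rw [← hC] at hsumz
    omega) (by
    intro b hb
    rw [Finset.mem_sdiff] at hb
    obtain ⟨_, hb2⟩ := hb
    rw [hA] at hb2
    simp only [mem_filter, mem_univ, true_and, not_forall, not_not] at hb2
    obtain ⟨u, _, hu⟩ := hb2
    unfold Z
    apply Finset.card_pos.2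
    exact ⟨u, by simpa using hu⟩)
  have hsplit : ∀ a ∈ A, ∑ b ∈ C.erase a, s ^ Z g b = ∑ b ∈ C, s ^ Z g b - s ^ Z g a := by
    intro a ha
    rw [← Finset.add_sum_erase C _ (hAC ha)]
    ring
  rw [Finset.sum_sub_distrib, Finset.sum_congr rfl hsplit, Finset.sum_sub_distrib,
    ← Finset.mul_sum, Finset.sum_const, nsmul_eq_mul]
  rw [hCcard] at hineq
  linarith


lemma sum_swap (G : SimpleGraph V) (Ψ : (V → α) → α → ℝ)
    (hΨ : ∀ (σ : Equiv.Perm α) (f : V → α) (b : α), Ψ (σ ∘ f) (σ b) = Ψ f b) (b c : α) :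
    ∑ f ∈ PC G α, Ψ f b = ∑ f ∈ PC G α, Ψ f c := by
  have hinv : ∀ f : V → α, (Equiv.swap b c) ∘ ((Equiv.swap b c) ∘ f) = f := by
    intro f
    ext x
    simp
  have hmem : ∀ f ∈ PC G α, (Equiv.swap b c) ∘ f ∈ PC G α := by
    intro f hf
    rw [mem_PC] at hf ⊢
    intro u v huv h
    exact hf u v huv ((Equiv.swap b c).injective h)
  refine Finset.sum_nbij' (fun f => (Equiv.swap b c) ∘ f) (fun f => (Equiv.swap b c) ∘ f)
    hmem hmem (fun f _ => hinv f) (fun f _ => hinv f) ?_
  intro f _
  have := hΨ (Equiv.swap b c) f b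
  rw [Equiv.swap_apply_left] at this
  exact this.symm

omit [Fintype α] in
lemma Z_perm (σ : Equiv.Perm α) (f : V → α) (b : α) : Z (σ ∘ f) (σ b) = Z f b := by
  unfold Z
  congr 1
  ext v
  simp

/-- the tilted inequality for a clique -/
lemma keyK (G : SimpleGraph V) (hcard : Fintype.card V ≤ Fintype.card α) (c : α) (K : Finset V)
    (hK : G.IsClique (K : Set V)) (z0 : V) (hz0 : z0 ∈ K) (s : ℝ) (hs0 : 0 ≤ s) (hs1 : s ≤ 1) :
    s * ∑ f ∈ PC G α, (if ∀ u ∈ K, f u ≠ c then s ^ Z f c else 0)
      ≤ ((Fintype.card α : ℝ) - K.card) * ∑ f ∈ PC G α, (if f z0 = c then s ^ Z f c else 0) := by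
  have h := keyM (α := α) G hcard K hK z0 hz0 s hs0 hs1
  have hpos : (0 : ℝ) < Fintype.card α := by
    have : 0 < Fintype.card α := Fintype.card_pos_iff.2 ⟨c⟩
    exact_mod_cast this
  have h1 : ∑ f ∈ PC G α, ∑ b ∈ univ.filter (fun b => ∀ u ∈ K, f u ≠ b), s ^ Z f b
      = (Fintype.card α : ℝ) * ∑ f ∈ PC G α, (if ∀ u ∈ K, f u ≠ c then s ^ Z f c else 0) := by
    calc ∑ f ∈ PC G α, ∑ b ∈ univ.filter (fun b => ∀ u ∈ K, f u ≠ b), s ^ Z f b
        = ∑ f ∈ PC G α, ∑ b : α, (if ∀ u ∈ K, f u ≠ b then s ^ Z f b else 0) := by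
          apply Finset.sum_congr rfl
          intro f _
          rw [Finset.sum_filter]
      _ = ∑ b : α, ∑ f ∈ PC G α, (if ∀ u ∈ K, f u ≠ b then s ^ Z f b else 0) :=
          Finset.sum_comm
      _ = ∑ b : α, ∑ f ∈ PC G α, (if ∀ u ∈ K, f u ≠ c then s ^ Z f c else 0) := by
          apply Finset.sum_congr rfl
          intro b _
          apply sum_swap G (fun f b => if ∀ u ∈ K, f u ≠ b then s ^ Z f b else 0)
          intro σ f b
          simp only [Z_perm, Function.comp_apply, ne_eq, EmbeddingLike.apply_eq_iff_eq]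
      _ = _ := by
          rw [Finset.sum_const, nsmul_eq_mul, Finset.card_univ]
  have h2 : ∑ f ∈ PC G α, s ^ Z f (f z0)
      = (Fintype.card α : ℝ) * ∑ f ∈ PC G α, (if f z0 = c then s ^ Z f c else 0) := by
    calc ∑ f ∈ PC G α, s ^ Z f (f z0)
        = ∑ f ∈ PC G α, ∑ b : α, (if f z0 = b then s ^ Z f b else 0) := by
          apply Finset.sum_congr rfl
          intro f _
          simp
      _ = ∑ b : α, ∑ f ∈ PC G α, (if f z0 = b then s ^ Z f b else 0) :=
          Finset.sum_comm
      _ = ∑ b : α, ∑ f ∈ PC G α, (if f z0 = c then s ^ Z f c else 0) := by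
          apply Finset.sum_congr rfl
          intro b _
          apply sum_swap G (fun f b => if f z0 = b then s ^ Z f b else 0)
          intro σ f b
          simp only [Z_perm, Function.comp_apply, EmbeddingLike.apply_eq_iff_eq]
      _ = _ := by
          rw [Finset.sum_const, nsmul_eq_mul, Finset.card_univ]
  rw [h1, h2] at h
  have h3 : (Fintype.card α : ℝ) * (s * ∑ f ∈ PC G α, (if ∀ u ∈ K, f u ≠ c then s ^ Z f c else 0))
      ≤ (Fintype.card α : ℝ) * (((Fintype.card α : ℝ) - K.card) *
        ∑ f ∈ PC G α, (if f z0 = c then s ^ Z f c else 0)) := by linarith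
  exact le_of_mul_le_mul_left h3 hpos

/-- the tilted partition function -/
noncomputable def W (G : SimpleGraph V) (c : α) (s : ℝ) : ℝ := ∑ f ∈ PC G α, s ^ Z f c

/-- its part where `v` has colour `c` -/
noncomputable def Wv (G : SimpleGraph V) (c : α) (v : V) (s : ℝ) : ℝ :=
  ∑ f ∈ PC G α, (if f v = c then s ^ Z f c else 0)

lemma sum_clique (G : SimpleGraph V) (c : α) (K : Finset V) (hK : G.IsClique (K : Set V)) (s : ℝ) :
    ∑ f ∈ PC G α, (if ∀ u ∈ K, f u ≠ c then s ^ Z f c else 0) = W G c s - ∑ z ∈ K, Wv G c z s := by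
  unfold W Wv
  rw [Finset.sum_comm, ← Finset.sum_sub_distrib]
  apply Finset.sum_congr rfl
  intro f hf
  by_cases h : ∀ u ∈ K, f u ≠ c
  · rw [if_pos h]
    rw [Finset.sum_eq_zero]
    · ring
    · intro z hz
      rw [if_neg (h z hz)]
  · rw [if_neg h]
    push Not at h
    obtain ⟨u, hu, huc⟩ := h
    rw [Finset.sum_eq_single u]
    · rw [if_pos huc]; ring
    · intro z hz hzu
      rw [if_neg]
      intro hzc
      exact mem_PC.1 hf z u (hK (by exact_mod_cast hz) (by exact_mod_cast hu) hzu)
        (hzc.trans huc.symm)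
    · intro h
      exact absurd hu h

lemma K_ineq (G : SimpleGraph V) (hcard : Fintype.card V ≤ Fintype.card α) (c : α) (K : Finset V)
    (hK : G.IsClique (K : Set V)) (s : ℝ) (hs0 : 0 ≤ s) (hs1 : s ≤ 1) :
    s * K.card * W G c s ≤
      ((Fintype.card α : ℝ) - K.card + K.card * s) * ∑ z ∈ K, Wv G c z s := by
  have h : ∀ z ∈ K, s * (W G c s - ∑ z ∈ K, Wv G c z s) ≤
      ((Fintype.card α : ℝ) - K.card) * Wv G c z s := by
    intro z hz
    have := keyK G hcard c K hK z hz s hs0 hs1
    rwa [sum_clique G c K hK s] at this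
  have h2 := Finset.sum_le_sum h
  rw [Finset.sum_const, nsmul_eq_mul, ← Finset.mul_sum] at h2
  linarith

lemma v_ineq (G : SimpleGraph V) (hcard : Fintype.card V ≤ Fintype.card α) (c : α) (v : V)
    (s : ℝ) (hs0 : 0 ≤ s) (hs1 : s ≤ 1) :
    s * W G c s ≤ ((Fintype.card α : ℝ) - 1 + s) * Wv G c v s := by
  have h := K_ineq G hcard c {v} (by simp) s hs0 hs1
  simpa using h

lemma W_nonneg (G : SimpleGraph V) (c : α) (s : ℝ) (hs0 : 0 ≤ s) : 0 ≤ W G c s :=
  Finset.sum_nonneg (fun f _ => pow_nonneg hs0 _)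

lemma hasDerivAt_W (G : SimpleGraph V) (c : α) (s : ℝ) :
    HasDerivAt (W G c) (∑ f ∈ PC G α, (Z f c : ℝ) * s ^ (Z f c - 1)) s := by
  unfold W
  apply HasDerivAt.fun_sum
  intro f _
  simpa using hasDerivAt_pow (Z f c) s

lemma s_deriv (G : SimpleGraph V) (c : α) (s : ℝ) :
    s * (∑ f ∈ PC G α, (Z f c : ℝ) * s ^ (Z f c - 1)) = ∑ v : V, Wv G c v s := by
  unfold Wv
  rw [Finset.sum_comm, Finset.mul_sum]
  apply Finset.sum_congr rfl
  intro f _
  rw [← Finset.sum_filter, Finset.sum_const, nsmul_eq_mul]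
  have : (univ.filter (fun v => f v = c)).card = Z f c := rfl
  rw [this]
  rcases Nat.eq_zero_or_pos (Z f c) with h | h
  · rw [h]; simp
  · obtain ⟨k, hk⟩ := Nat.exists_eq_add_of_lt h
    rw [hk]
    simp
    ring

/-- The main inequality: `W 0 * D 1 ≤ W 1 * D 0`. -/
theorem main_ineq (G : SimpleGraph V) (hcard : Fintype.card V ≤ Fintype.card α) (c : α)
    (K : Finset V) (hK : G.IsClique (K : Set V)) (hKpos : 0 < K.card)
    (hKlt : K.card < Fintype.card α) :
    W G c 0 / (((Fintype.card α : ℝ) - K.card) *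
        ((Fintype.card α : ℝ) - 1) ^ (Fintype.card V - K.card))
      ≤ W G c 1 / ((Fintype.card α : ℝ) * (Fintype.card α : ℝ) ^ (Fintype.card V - K.card)) := by
  set lam : ℝ := (Fintype.card α : ℝ) with hlam
  set k : ℝ := (K.card : ℝ) with hk
  set r : ℕ := Fintype.card V - K.card with hr
  have hk1 : 1 ≤ k := by rw [hk]; exact_mod_cast hKpos
  have hklam : k + 1 ≤ lam := by rw [hk, hlam]; exact_mod_cast hKlt
  set D : ℝ → ℝ := fun s => (lam - k + k * s) * (lam - 1 + s) ^ r with hD
  have hDpos : ∀ s, 0 ≤ s → 0 < D s := by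
    intro s hs
    rw [hD]
    have h1 : 0 < lam - k + k * s := by nlinarith
    have h2 : 0 < lam - 1 + s := by linarith
    positivity
  have hDd : ∀ s, HasDerivAt D (k * (lam - 1 + s) ^ r +
      (lam - k + k * s) * (r * (lam - 1 + s) ^ (r - 1))) s := by
    intro s
    have h1 : HasDerivAt (fun s : ℝ => lam - k + k * s) k s := by
      simpa using ((hasDerivAt_id s).const_mul k).const_add (lam - k)
    have h2 : HasDerivAt (fun s : ℝ => (lam - 1 + s) ^ r) (r * (lam - 1 + s) ^ (r - 1)) s := by
      simpa using HasDerivAt.fun_pow ((hasDerivAt_id s).const_add (lam - 1)) r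
    exact h1.mul h2
  have hcardV : ((univ \ K : Finset V).card : ℝ) = r := by
    have : (univ \ K : Finset V).card = r := by
      rw [Finset.card_sdiff_of_subset (Finset.subset_univ K), Finset.card_univ]
    exact_mod_cast this
  have hmono : MonotoneOn (fun s => W G c s / D s) (Set.Icc 0 1) := by
    apply monotoneOn_of_deriv_nonneg (convex_Icc 0 1)
    · intro s hs
      exact (((hasDerivAt_W G c s).div (hDd s) (hDpos s hs.1).ne').continuousAt).continuousWithinAt
    · intro s hs
      rw [interior_Icc] at hs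
      exact (((hasDerivAt_W G c s).div (hDd s) (hDpos s hs.1.le).ne').differentiableAt).differentiableWithinAt
    · intro s hs
      rw [interior_Icc] at hs
      obtain ⟨hs0, hs1⟩ := hs
      rw [((hasDerivAt_W G c s).fun_div (hDd s) (hDpos s hs0.le).ne').deriv]
      apply div_nonneg _ (sq_nonneg _)
      set W' := (∑ f ∈ PC G α, (Z f c : ℝ) * s ^ (Z f c - 1)) with hW'
      have hsW : s * W' = ∑ v : V, Wv G c v s := s_deriv G c s
      set X := ∑ z ∈ K, Wv G c z s with hX
      set Y := ∑ z ∈ univ \ K, Wv G c z s with hY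
      have hXY : s * W' = Y + X := by
        rw [hsW, hX, hY]
        exact (Finset.sum_sdiff (Finset.subset_univ K)).symm
      have hXi : s * k * W G c s ≤ (lam - k + k * s) * X := K_ineq G hcard c K hK s hs0.le hs1.le
      have hYi : s * r * W G c s ≤ (lam - 1 + s) * Y := by
        have h1 : ∀ z ∈ univ \ K, s * W G c s ≤ (lam - 1 + s) * Wv G c z s :=
          fun z _ => v_ineq G hcard c z s hs0.le hs1.le
        have h2 := Finset.sum_le_sum h1
        rw [Finset.sum_const, nsmul_eq_mul, hcardV, ← Finset.mul_sum] at h2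
        linarith
      have hY0 : 0 ≤ W G c s := W_nonneg G c s hs0.le
      have hB : 0 < lam - 1 + s := by linarith
      have hA : 0 < lam - k + k * s := by nlinarith
      set B := lam - 1 + s with hBdef
      set A := lam - k + k * s with hAdef
      have hYB : A * (r * B ^ (r - 1)) * (s * W G c s) ≤ A * B ^ r * Y := by
        rcases Nat.eq_zero_or_pos r with h0 | h0
        · have hYY : 0 ≤ Y := by
            rw [h0] at hYi
            simp at hYi
            exact nonneg_of_mul_nonneg_right hYi hB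
          rw [h0]
          simp
          positivity
        · obtain ⟨m, hm⟩ := Nat.exists_eq_add_of_lt h0
          have hm' : r = m + 1 := by omega
          have e1 : r - 1 = m := by omega
          rw [e1]
          have e2 : B ^ r = B ^ m * B := by rw [hm', pow_succ]
          rw [e2]
          calc A * (r * B ^ m) * (s * W G c s) = (A * B ^ m) * (s * r * W G c s) := by ring
            _ ≤ (A * B ^ m) * (B * Y) := mul_le_mul_of_nonneg_left hYi (by positivity)
            _ = A * (B ^ m * B) * Y := by ring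
      have hXB : k * B ^ r * (s * W G c s) ≤ A * B ^ r * X := by
        calc k * B ^ r * (s * W G c s) = B ^ r * (s * k * W G c s) := by ring
          _ ≤ B ^ r * (A * X) := mul_le_mul_of_nonneg_left hXi (by positivity)
          _ = A * B ^ r * X := by ring
      have hfin : 0 ≤ s * (W' * D s - W G c s * (k * B ^ r + A * (r * B ^ (r - 1)))) := by
        have e1 : D s = A * B ^ r := rfl
        rw [e1]
        have e2 : s * (W' * (A * B ^ r) - W G c s * (k * B ^ r + A * (r * B ^ (r - 1))))
            = A * B ^ r * (s * W') - (k * B ^ r * (s * W G c s) +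
              A * (r * B ^ (r - 1)) * (s * W G c s)) := by ring
        rw [e2, hXY]
        linarith
      exact nonneg_of_mul_nonneg_right hfin hs0
  have h01 := hmono (Set.left_mem_Icc.2 zero_le_one) (Set.right_mem_Icc.2 zero_le_one) zero_le_one
  simp only [hD] at h01
  have e0 : lam - k + k * 0 = lam - k := by ring
  have e1 : lam - 1 + 0 = lam - 1 := by ring
  have e2 : lam - k + k * 1 = lam := by ring
  have e3 : lam - 1 + 1 = lam := by ring
  rw [e0, e1, e2, e3] at h01
  exact h01


/-- colourings as a finset of functions -/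
lemma card_coloring (G : SimpleGraph V) (α : Type) [Fintype α] :
    Nat.card (G.Coloring α) = (PC G α).card := by
  rw [← Nat.card_eq_finsetCard]
  refine Nat.card_congr ⟨fun C => ⟨fun v => C v, mem_PC.2 fun u v huv => C.valid huv⟩,
    fun f => SimpleGraph.Coloring.mk f.1 (fun {u v} huv => mem_PC.1 f.2 u v huv), ?_, ?_⟩
  · intro C
    ext v
    rfl
  · intro f
    ext v
    rfl

lemma W_one (G : SimpleGraph V) (c : α) : W G c 1 = (PC G α).card := by
  simp [W]

lemma W_zero (G : SimpleGraph V) (m : ℕ) :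
    W G (0 : Fin (m + 1)) 0 = (PC G (Fin m)).card := by
  unfold W
  have h1 : ∀ f ∈ PC G (Fin (m + 1)), (0 : ℝ) ^ Z f 0 = if ∀ v, f v ≠ 0 then 1 else 0 := by
    intro f _
    by_cases h : ∀ v, f v ≠ 0
    · rw [if_pos h]
      have : Z f 0 = 0 := by
        unfold Z
        rw [Finset.card_eq_zero]
        apply Finset.eq_empty_of_forall_notMem
        intro v hv
        simp only [mem_filter, mem_univ, true_and] at hv
        exact h v hv
      rw [this, pow_zero]
    · rw [if_neg h]
      push Not at h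
      obtain ⟨v, hv⟩ := h
      apply zero_pow
      unfold Z
      exact (Finset.card_pos.2 ⟨v, by simpa using hv⟩).ne'
  rw [Finset.sum_congr rfl h1, Finset.sum_ite, Finset.sum_const_zero, add_zero,
    Finset.sum_const, nsmul_eq_mul, mul_one]
  congr 1
  symm
  apply Finset.card_bij (fun (g : V → Fin m) _ => fun v => (g v).succ)
  · intro g hg
    rw [mem_PC] at hg
    rw [Finset.mem_filter, mem_PC]
    exact ⟨fun u v huv h => hg u v huv (Fin.succ_injective _ h), fun v => Fin.succ_ne_zero _⟩
  · intro g _ g' _ h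
    ext v
    have := congrFun h v
    simp only [Fin.succ_inj] at this
    rw [this]
  · intro f hf
    rw [Finset.mem_filter, mem_PC] at hf
    refine ⟨fun v => (f v).pred (hf.2 v), ?_, ?_⟩
    · rw [mem_PC]
      intro u v huv h
      apply hf.1 u v huv
      have := congrArg Fin.succ h
      simpa using this
    · ext v
      simp

/-- The clique bound for the ratio of chromatic polynomial values. -/
theorem clique_bound (G : SimpleGraph V) (lam : ℕ) (hcard : Fintype.card V ≤ lam)
    (K : Finset V) (hK : G.IsClique (K : Set V)) (hne : K.card = 0 → Fintype.card V = 0) :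
    (Nat.card (G.Coloring (Fin (lam - 1))) : ℝ) / (Nat.card (G.Coloring (Fin lam)) : ℝ)
      ≤ (1 - (K.card : ℝ) / (lam : ℝ)) * (1 - 1 / (lam : ℝ)) ^ (Fintype.card V - K.card) := by
  rcases Nat.eq_zero_or_pos K.card with h0 | h0
  · have hV : Fintype.card V = 0 := hne h0
    have : IsEmpty V := Fintype.card_eq_zero_iff.1 hV
    have e : ∀ m : ℕ, Nat.card (G.Coloring (Fin m)) = 1 := by
      intro m
      rw [card_coloring]
      have : PC G (Fin m) = univ := by
        apply Finset.eq_univ_of_forall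
        intro f
        rw [mem_PC]
        intro u
        exact (IsEmpty.false u).elim
      rw [this]
      simp
    rw [e, e, h0, hV]
    simp
  · have hKV : K.card ≤ Fintype.card V := Finset.card_le_univ K
    have hlam : 0 < lam := by omega
    obtain ⟨m, rfl⟩ : ∃ m, lam = m + 1 := ⟨lam - 1, by omega⟩
    have e1 : m + 1 - 1 = m := by omega
    rw [e1, card_coloring, card_coloring, ← W_zero G m, ← W_one G (0 : Fin (m + 1))]
    have hW1 : (0 : ℝ) ≤ W G (0 : Fin (m + 1)) 1 := W_nonneg G _ _ zero_le_one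
    have hW0 : (0 : ℝ) ≤ W G (0 : Fin (m + 1)) 0 := W_nonneg G _ _ le_rfl
    have hL : (0 : ℝ) < ((m + 1 : ℕ) : ℝ) := by positivity
    by_cases hKl : K.card < m + 1
    · have h := main_ineq (α := Fin (m + 1)) G (by simpa using hcard) 0 K hK h0
        (by simpa using hKl)
      rw [Fintype.card_fin] at h
      set L : ℝ := ((m + 1 : ℕ) : ℝ) with hLdef
      set r := Fintype.card V - K.card with hr
      have hkL : (K.card : ℝ) < L := by rw [hLdef]; exact_mod_cast hKl
      have hk1 : (1 : ℝ) ≤ K.card := by exact_mod_cast h0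
      have hL1 : 0 < L - 1 := by linarith
      have hD0 : 0 < (L - K.card) * (L - 1) ^ r := by
        have : 0 < L - K.card := by linarith
        positivity
      have hD1 : 0 < L * L ^ r := by positivity
      have hRHS : (1 - (K.card : ℝ) / L) * (1 - 1 / L) ^ r
          = ((L - K.card) * (L - 1) ^ r) / (L * L ^ r) := by
        have e2 : (1 - 1 / L) = (L - 1) / L := by field_simp
        rw [e2, div_pow]
        field_simp
      rw [hRHS]
      rw [div_le_div_iff₀ hD0 hD1] at h
      rcases hW1.eq_or_lt with hz | hz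
      · rw [← hz, div_zero]
        positivity
      · rw [div_le_div_iff₀ hz hD1]
        linarith
    · have hKeq : K.card = m + 1 := by omega
      have hz : W G (0 : Fin (m + 1)) 0 = 0 := by
        rw [W_zero]
        have : PC G (Fin m) = ∅ := by
          rw [Finset.eq_empty_iff_forall_notMem]
          intro f hf
          rw [mem_PC] at hf
          have hinj : Set.InjOn f (K : Set V) := by
            intro u hu v hv huv
            by_contra hne
            exact hf u v (hK hu hv hne) huv
          have h1 := Finset.card_le_card_of_injOn (t := (univ : Finset (Fin m))) f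
            (fun _ _ => Finset.mem_univ _) hinj
          rw [Finset.card_univ, Fintype.card_fin] at h1
          omega
        rw [this]
        simp
      rw [hz, zero_div, hKeq, div_self hL.ne', sub_self, zero_mul]

end Pool.Agent.K7.H44.Shameful
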