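import Mathlib

/-!
Finite counting lemmas for permutation actions (helper file, tree groups).
-/

set_option autoImplicit false
set_option linter.unusedSectionVars false

namespace K7.H44.TG

open Finset Classical

/-- orbit-stabiliser on an invariant finite set -/
lemma os {A α : Type*} [Group A] [Fintype A] [MulAction A α] (S : Subgroup A) (T : Finset α)
    (t : α) (hinv : ∀ s ∈ S, s • t ∈ T) (htr : ∀ t' ∈ T, ∃ s ∈ S, s • t = t') :
    (univ.filter (fun g : A => g ∈ S)).card =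
      T.card * (univ.filter (fun g : A => g ∈ S ∧ g • t = t)).card := by
  rw [Finset.card_eq_sum_card_fiberwise (f := fun g : A => g • t) (t := T)
    (by intro g hg; simp only [coe_filter, mem_univ, true_and, Set.mem_ofPred_eq] at hg
        exact hinv g hg)]
  rw [Finset.sum_const_nat (m := (univ.filter (fun g : A => g ∈ S ∧ g • t = t)).card)]
  intro v hv
  obtain ⟨c, hc, hcu⟩ := htr v hv
  symm
  apply Finset.card_bij (fun g _ => c * g)
  · intro g hg
    simp only [mem_filter, mem_univ, true_and] at hg ⊢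
    exact ⟨S.mul_mem hc hg.1, by rw [mul_smul, hg.2, hcu]⟩
  · intro a _ b _ hab
    exact mul_left_cancel hab
  · intro k hk
    simp only [mem_filter, mem_univ, true_and] at hk
    refine ⟨c⁻¹ * k, ?_, by group⟩
    simp only [mem_filter, mem_univ, true_and]
    refine ⟨S.mul_mem (S.inv_mem hc) hk.1, ?_⟩
    rw [mul_smul, hk.2, ← hcu, inv_smul_smul]

/-- Double counting of pairs. -/
lemma pair_sum {ι X : Type*} [Fintype X] (Γ : Finset ι) (P : ι → X → Prop) :
    (∑ g ∈ Γ, (((univ.filter (P g)).card : ℤ)) * (((univ.filter (P g)).card : ℤ) - 1)) =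
      ∑ p ∈ (univ : Finset X).offDiag, ((Γ.filter (fun g => P g p.1 ∧ P g p.2)).card : ℤ) := by
  have h1 : ∀ g ∈ Γ, (((univ.filter (P g)).card : ℤ)) * (((univ.filter (P g)).card : ℤ) - 1) =
      ∑ p ∈ (univ : Finset X).offDiag, (if P g p.1 ∧ P g p.2 then (1 : ℤ) else 0) := by
    intro g _
    have h2 : ((univ.filter (P g)).offDiag.card : ℤ) =
        (((univ.filter (P g)).card : ℤ)) * (((univ.filter (P g)).card : ℤ) - 1) := by
      rw [Finset.offDiag_card]
      rw [Nat.cast_sub (Nat.le_mul_self _)]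
      push_cast
      ring
    rw [← h2, ← Finset.sum_filter, Finset.sum_const, nsmul_eq_mul, mul_one]
    congr 2
    ext p
    simp only [mem_offDiag, mem_filter, mem_univ, true_and]
    tauto
  rw [Finset.sum_congr rfl h1, Finset.sum_comm]
  apply Finset.sum_congr rfl
  intro p _
  rw [← Finset.sum_filter, Finset.sum_const, nsmul_eq_mul, mul_one]

/-- Double counting of points. -/
lemma point_sum {ι X : Type*} [Fintype X] (Γ : Finset ι) (P : ι → X → Prop) :
    (∑ g ∈ Γ, (((univ.filter (P g)).card : ℤ))) =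
      ∑ p : X, ((Γ.filter (fun g => P g p)).card : ℤ) := by
  have h1 : ∀ g ∈ Γ, (((univ.filter (P g)).card : ℤ)) =
      ∑ p : X, (if P g p then (1 : ℤ) else 0) := by
    intro g _
    rw [← Finset.sum_filter, Finset.sum_const, nsmul_eq_mul, mul_one]
  rw [Finset.sum_congr rfl h1, Finset.sum_comm]
  apply Finset.sum_congr rfl
  intro p _
  rw [← Finset.sum_filter, Finset.sum_const, nsmul_eq_mul, mul_one]

section act

variable {A Ω : Type*} [Group A] [Fintype A] [MulAction A Ω]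

/-- number of elements of `S` -/
noncomputable def cd (S : Subgroup A) : ℕ := (univ.filter (fun g : A => g ∈ S)).card

/-- number of elements of `S` that fix `z` -/
noncomputable def c1 (S : Subgroup A) (z : Ω) : ℕ :=
  (univ.filter (fun g : A => g ∈ S ∧ g • z = z)).card

lemma cd_pos (S : Subgroup A) : 0 < cd S := by
  unfold cd
  exact Finset.card_pos.mpr ⟨1, by simp [S.one_mem]⟩

lemma c1_pos (S : Subgroup A) (z : Ω) : 0 < c1 S z := by
  unfold c1
  exact Finset.card_pos.mpr ⟨1, by simp [S.one_mem]⟩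

/-- number of fixed points -/
noncomputable def fx (Ω : Type*) [Fintype Ω] {A : Type*} [Group A] [MulAction A Ω] (g : A) : ℕ :=
  (univ.filter (fun z : Ω => g • z = z)).card

variable [Fintype Ω]

lemma sum_fx (S : Subgroup A) :
    (∑ g ∈ univ.filter (fun g : A => g ∈ S), ((fx Ω g : ℕ) : ℤ)) = ∑ z : Ω, ((c1 S z : ℕ) : ℤ) := by
  have h := point_sum (X := Ω) (univ.filter (fun g : A => g ∈ S)) (fun g z => g • z = z)
  rw [show (∑ g ∈ univ.filter (fun g : A => g ∈ S), ((fx Ω g : ℕ) : ℤ)) =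
    ∑ g ∈ univ.filter (fun g : A => g ∈ S), (((univ.filter (fun z : Ω => g • z = z)).card : ℕ) : ℤ)
    from rfl, h]
  apply Finset.sum_congr rfl
  intro z _
  unfold c1
  rw [Finset.filter_filter]

lemma sum_fx2 (S : Subgroup A) :
    (∑ g ∈ univ.filter (fun g : A => g ∈ S), ((fx Ω g : ℕ) : ℤ) * (((fx Ω g : ℕ) : ℤ) - 1)) =
      ∑ p ∈ (univ : Finset Ω).offDiag, ((c1 S p : ℕ) : ℤ) := by
  have h := pair_sum (X := Ω) (univ.filter (fun g : A => g ∈ S)) (fun g z => g • z = z)
  rw [show (∑ g ∈ univ.filter (fun g : A => g ∈ S), ((fx Ω g : ℕ) : ℤ) * (((fx Ω g : ℕ) : ℤ) - 1)) =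
    ∑ g ∈ univ.filter (fun g : A => g ∈ S),
      (((univ.filter (fun z : Ω => g • z = z)).card : ℕ) : ℤ) *
      ((((univ.filter (fun z : Ω => g • z = z)).card : ℕ) : ℤ) - 1) from rfl, h]
  apply Finset.sum_congr rfl
  intro z _
  unfold c1
  rw [Finset.filter_filter]
  congr 2
  ext g
  simp only [mem_filter, mem_univ, true_and]
  rw [Prod.ext_iff]
  rfl

/-- transitivity of a subgroup -/
def Tr (S : Subgroup A) (Ω : Type*) [MulAction A Ω] : Prop := ∀ z w : Ω, ∃ g ∈ S, g • z = w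

lemma tr_card (S : Subgroup A) (h : Tr S Ω) (z : Ω) : cd S = Fintype.card Ω * c1 S z := by
  have := os S (univ : Finset Ω) z (by simp) (by intro t' _; exact h z t')
  simpa [cd, c1] using this

lemma sum_fx_tr (S : Subgroup A) (h : Tr S Ω) [Nonempty Ω] :
    (∑ g ∈ univ.filter (fun g : A => g ∈ S), ((fx Ω g : ℕ) : ℤ)) = cd S := by
  rw [sum_fx]
  obtain ⟨z0⟩ := (inferInstance : Nonempty Ω)
  have hc : 0 < Fintype.card Ω := Fintype.card_pos
  have h1 : ∀ z : Ω, c1 S z = c1 S z0 := by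
    intro z
    have a := tr_card S h z
    have b := tr_card S h z0
    rw [a] at b
    exact Nat.eq_of_mul_eq_mul_left hc b
  rw [Finset.sum_congr rfl (fun z _ => by rw [h1 z]), Finset.sum_const, Finset.card_univ,
    nsmul_eq_mul, tr_card S h z0]
  push_cast
  ring

lemma fx_le (g : A) : fx Ω g ≤ Fintype.card Ω := by
  unfold fx
  exact Finset.card_le_univ _

lemma fx_pos_iff (g : A) : 0 < fx Ω g ↔ ∃ z : Ω, g • z = z := by
  unfold fx
  rw [Finset.card_pos]
  constructor
  · rintro ⟨z, hz⟩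
    exact ⟨z, by simpa using hz⟩
  · rintro ⟨z, hz⟩
    exact ⟨z, by simpa using hz⟩

lemma fx_eq_zero_iff (g : A) : fx Ω g = 0 ↔ ∀ z : Ω, g • z ≠ z := by
  have h := fx_pos_iff (Ω := Ω) g
  constructor
  · intro h0 z hz
    have : 0 < fx Ω g := h.mpr ⟨z, hz⟩
    omega
  · intro h0
    by_contra hne
    obtain ⟨z, hz⟩ := h.mp (Nat.pos_of_ne_zero hne)
    exact h0 z hz

/-- the finite orbit of an element -/
noncomputable def orb (S : Subgroup A) (z : Ω) : Finset Ω :=
  univ.filter (fun w => ∃ g ∈ S, g • z = w)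

lemma mem_orb {S : Subgroup A} {z w : Ω} : w ∈ orb S z ↔ ∃ g ∈ S, g • z = w := by
  simp [orb]

lemma orb_card (S : Subgroup A) (z : Ω) : cd S = (orb S z).card * c1 S z := by
  apply os S (orb S z) z
  · intro s hs; exact mem_orb.mpr ⟨s, hs, rfl⟩
  · intro t' ht; exact mem_orb.mp ht

lemma orb_eq (S : Subgroup A) {z w : Ω} (h : w ∈ orb S z) : orb S w = orb S z := by
  obtain ⟨g, hg, rfl⟩ := mem_orb.mp h
  ext u
  rw [mem_orb, mem_orb]
  constructor
  · rintro ⟨k, hk, rfl⟩
    exact ⟨k * g, S.mul_mem hk hg, by rw [mul_smul]⟩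
  · rintro ⟨k, hk, rfl⟩
    exact ⟨k * g⁻¹, S.mul_mem hk (S.inv_mem hg), by rw [mul_smul, inv_smul_smul]⟩

lemma self_mem_orb (S : Subgroup A) (z : Ω) : z ∈ orb S z := mem_orb.mpr ⟨1, S.one_mem, one_smul _ _⟩

lemma sum_c1_orb (S : Subgroup A) (z : Ω) : ∑ w ∈ orb S z, ((c1 S w : ℕ) : ℤ) = cd S := by
  have hc : 0 < (orb S z).card := Finset.card_pos.mpr ⟨z, self_mem_orb S z⟩
  have h1 : ∀ w ∈ orb S z, c1 S w = c1 S z := by
    intro w hw
    have a := orb_card S w
    have b := orb_card S z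
    rw [orb_eq S hw] at a
    rw [a] at b
    exact Nat.eq_of_mul_eq_mul_left hc b
  rw [Finset.sum_congr rfl (fun z hz => by rw [h1 z hz]), Finset.sum_const,
    nsmul_eq_mul, orb_card S z]
  push_cast
  ring

end act

section two

variable {A Ω : Type*} [Group A] [Fintype A] [MulAction A Ω] [Fintype Ω]

/-- 2-transitivity -/
def Tr2 (S : Subgroup A) (Ω : Type*) [MulAction A Ω] : Prop :=
  ∀ x y x' y' : Ω, x ≠ y → x' ≠ y' → ∃ g ∈ S, g • x = x' ∧ g • y = y'

lemma offDiag_card' : ((univ : Finset Ω).offDiag.card : ℤ) =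
    (Fintype.card Ω : ℤ) * ((Fintype.card Ω : ℤ) - 1) := by
  rw [Finset.offDiag_card, Nat.cast_sub (Nat.le_mul_self _)]
  push_cast
  rw [Finset.card_univ]
  ring

lemma tr2_card (S : Subgroup A) (h : Tr2 S Ω) (x y : Ω) (hxy : x ≠ y) :
    cd S = (univ : Finset Ω).offDiag.card * c1 S (x, y) := by
  apply os S
  · intro s _
    rw [mem_offDiag]
    refine ⟨mem_univ _, mem_univ _, ?_⟩
    intro hh
    exact hxy (MulAction.injective s hh)
  · rintro ⟨x', y'⟩ ht
    rw [mem_offDiag] at ht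
    obtain ⟨g, hg, h1, h2⟩ := h x y x' y' hxy ht.2.2
    exact ⟨g, hg, Prod.ext h1 h2⟩

/-- sum of `f (f - 1)` for a 2-transitive group -/
lemma q_tr2 (S : Subgroup A) (h : Tr2 S Ω) (x0 y0 : Ω) (hxy : x0 ≠ y0) :
    (∑ g ∈ univ.filter (fun g : A => g ∈ S), ((fx Ω g : ℕ) : ℤ) * (((fx Ω g : ℕ) : ℤ) - 1)) =
      cd S := by
  rw [sum_fx2]
  have hc : 0 < (univ : Finset Ω).offDiag.card :=
    Finset.card_pos.mpr ⟨(x0, y0), by simp [hxy]⟩
  have h1 : ∀ p ∈ (univ : Finset Ω).offDiag, c1 S p = c1 S (x0, y0) := by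
    rintro ⟨x, y⟩ hp
    have hne : x ≠ y := by
      rw [mem_offDiag] at hp; exact hp.2.2
    have a := tr2_card S h x y hne
    have b := tr2_card S h x0 y0 hxy
    rw [a] at b
    exact Nat.eq_of_mul_eq_mul_left hc b
  rw [Finset.sum_congr rfl (fun z hz => by rw [h1 z hz]), Finset.sum_const,
    nsmul_eq_mul, tr2_card S h x0 y0 hxy]
  push_cast
  ring

/-- sum of `f (f - 1)` for a group that is not 2-transitive -/
lemma q_ntr2 (S : Subgroup A) (h : ¬ Tr2 S Ω) :
    2 * (cd S : ℤ) ≤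
    (∑ g ∈ univ.filter (fun g : A => g ∈ S), ((fx Ω g : ℕ) : ℤ) * (((fx Ω g : ℕ) : ℤ) - 1)) := by
  rw [sum_fx2]
  unfold Tr2 at h
  push Not at h
  obtain ⟨x, y, x', y', hxy, hxy', hno⟩ := h
  have hsub : ∀ (u v : Ω), u ≠ v → orb S (u, v) ⊆ (univ : Finset Ω).offDiag := by
    intro u v huv w hw
    obtain ⟨g, _, rfl⟩ := mem_orb.mp hw
    rw [mem_offDiag]
    exact ⟨mem_univ _, mem_univ _, fun hh => huv (MulAction.injective g hh)⟩
  have hdisj : Disjoint (orb S (x, y)) (orb S (x', y')) := by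
    rw [Finset.disjoint_left]
    intro w hw hw'
    have h1 := orb_eq S hw
    have h2 := orb_eq S hw'
    have h3 : (x', y') ∈ orb S (x, y) := by
      rw [← h1, h2]; exact self_mem_orb _ _
    obtain ⟨g, hg, hh⟩ := mem_orb.mp h3
    have e1 : g • x = x' := congrArg Prod.fst hh
    have e2 : g • y = y' := congrArg Prod.snd hh
    exact hno g hg e1 e2
  calc 2 * (cd S : ℤ) = ∑ w ∈ orb S (x, y), ((c1 S w : ℕ) : ℤ) +
        ∑ w ∈ orb S (x', y'), ((c1 S w : ℕ) : ℤ) := by
        rw [sum_c1_orb, sum_c1_orb]; ring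
    _ = ∑ w ∈ orb S (x, y) ∪ orb S (x', y'), ((c1 S w : ℕ) : ℤ) := by
        rw [Finset.sum_union hdisj]
    _ ≤ ∑ p ∈ (univ : Finset Ω).offDiag, ((c1 S p : ℕ) : ℤ) := by
        apply Finset.sum_le_sum_of_subset_of_nonneg
        · exact Finset.union_subset (hsub _ _ hxy) (hsub _ _ hxy')
        · intro i _ _; positivity

end two

end K7.H44.TG
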