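import Pool.Agent.K7.H44.TG1

/-!
Finite counting lemmas for permutation actions, part 2 (tree groups).
-/

set_option autoImplicit false
set_option linter.unusedSectionVars false

namespace K7.H44.TG

open Finset Classical

section

variable {A Ω : Type*} [Group A] [Fintype A] [MulAction A Ω]

lemma cd_top : cd (⊤ : Subgroup A) = Fintype.card A := by
  unfold cd
  simp

lemma c1_conj (K : Subgroup A) [hK : K.Normal] (g : A) (z : Ω) : c1 K (g • z) = c1 K z := by
  unfold c1
  symm
  apply Finset.card_bij (fun k _ => g * k * g⁻¹)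
  · intro k hk
    simp only [mem_filter, mem_univ, true_and] at hk ⊢
    refine ⟨hK.conj_mem k hk.1 g, ?_⟩
    rw [mul_smul, mul_smul, inv_smul_smul, hk.2]
  · intro a _ b _ hab
    simpa using hab
  · intro k hk
    simp only [mem_filter, mem_univ, true_and] at hk
    refine ⟨g⁻¹ * k * g, ?_, by group⟩
    simp only [mem_filter, mem_univ, true_and]
    refine ⟨by simpa using hK.conj_mem k hk.1 g⁻¹, ?_⟩
    rw [mul_smul, mul_smul, hk.2, inv_smul_smul]

lemma sum_split (K : Subgroup A) (F : A → ℤ) :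
    (∑ g, F g) = (∑ g ∈ univ.filter (fun g : A => g ∈ K), F g) +
      ∑ g ∈ univ.filter (fun g : A => g ∉ K), F g :=
  (Finset.sum_filter_add_sum_filter_not _ _ _).symm

lemma card_split (K : Subgroup A) :
    (Fintype.card A : ℤ) = cd K + (univ.filter (fun g : A => g ∉ K)).card := by
  have h := sum_split K (fun _ => 1)
  simp only [Finset.sum_const, nsmul_eq_mul, mul_one, Finset.card_univ] at h
  exact h

lemma filter_top : (univ.filter (fun g : A => g ∈ (⊤ : Subgroup A))) = univ := by simp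

lemma c1_eq (K : Subgroup A) (z : Ω) :
    c1 K z = Nat.card ((K ⊓ MulAction.stabilizer A z : Subgroup A)) := by
  unfold c1
  rw [Nat.card_eq_fintype_card, Fintype.card_subtype]
  congr 1
  ext g
  simp only [mem_filter, mem_univ, true_and, Subgroup.mem_inf, MulAction.mem_stabilizer_iff]

lemma cd_eq (K : Subgroup A) : cd K = Nat.card K := by
  unfold cd
  rw [Nat.card_eq_fintype_card, Fintype.card_subtype]

lemma c1_imp {S S' : Subgroup A} (hle : S ≤ S') (z : Ω) (h : c1 S' z = c1 S z) :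
    ∀ g ∈ S', g • z = z → g ∈ S := by
  have h6 : (univ.filter (fun g : A => g ∈ S ∧ g • z = z)) =
      (univ.filter (fun g : A => g ∈ S' ∧ g • z = z)) := by
    apply Finset.eq_of_subset_of_card_le
    · intro k hk
      simp only [mem_filter, mem_univ, true_and] at hk ⊢
      exact ⟨hle hk.1, hk.2⟩
    · exact h.le
  intro g hg hz
  have h7 : g ∈ (univ.filter (fun g : A => g ∈ S' ∧ g • z = z)) := by
    simp only [mem_filter, mem_univ, true_and]
    exact ⟨hg, hz⟩
  rw [← h6] at h7
  simp only [mem_filter, mem_univ, true_and] at h7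
  exact h7.1

variable [Fintype Ω]

/-- The loss lemma. -/
lemma lossC (K : Subgroup A) [hKn : K.Normal] (hd : 2 ≤ Fintype.card Ω) (hK : Tr K Ω)
    (hidx : Fintype.card A = (Fintype.card Ω - 1) * cd K) :
    (∀ g : A, g ∉ K → ∃ z : Ω, g • z = z) ∨
      Fintype.card A ≤ 2 * Fintype.card Ω *
        (univ.filter (fun g : A => g ∉ K ∧ ∀ z : Ω, g • z ≠ z)).card := by
  have : Nonempty Ω := Fintype.card_pos_iff.mp (by omega)
  set d : ℤ := (Fintype.card Ω : ℤ) with hdZ
  have hd2 : (2 : ℤ) ≤ d := by rw [hdZ]; exact_mod_cast hd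
  have hidxZ : (Fintype.card A : ℤ) = (d - 1) * (cd K : ℤ) := by
    rw [hidx]; push_cast [Nat.cast_sub (show 1 ≤ Fintype.card Ω by omega)]; rfl
  set E := univ.filter (fun g : A => g ∉ K) with hE
  set D := univ.filter (fun g : A => g ∉ K ∧ ∀ z : Ω, g • z ≠ z) with hD
  have htop : Tr (⊤ : Subgroup A) Ω := fun z w => by
    obtain ⟨g, _, hg⟩ := hK z w
    exact ⟨g, trivial, hg⟩
  have hsT : (∑ g : A, ((fx Ω g : ℕ) : ℤ)) = Fintype.card A := by
    have := sum_fx_tr (⊤ : Subgroup A) htop
    rw [filter_top, cd_top] at this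
    exact this
  have hsK := sum_fx_tr K hK
  have hsE : (∑ g ∈ E, ((fx Ω g : ℕ) : ℤ)) = (E.card : ℤ) := by
    have h1 := sum_split K (fun g => ((fx Ω g : ℕ) : ℤ))
    have h2 := card_split K
    rw [hsT, hsK] at h1
    linarith
  -- the pointwise inequality
  have hpt : ∀ g ∈ E, ((fx Ω g : ℕ) : ℤ) * (((fx Ω g : ℕ) : ℤ) - 1) - d * ((fx Ω g : ℕ) : ℤ) + d ≤
      d * (if (∀ z : Ω, g • z ≠ z) then 1 else 0) := by
    intro g _
    have hle : ((fx Ω g : ℕ) : ℤ) ≤ d := by rw [hdZ]; exact_mod_cast fx_le g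
    by_cases h0 : ∀ z : Ω, g • z ≠ z
    · rw [if_pos h0, (fx_eq_zero_iff g).mpr h0]
      simp
    · rw [if_neg h0]
      have h1 : 1 ≤ fx Ω g := by
        rw [Nat.one_le_iff_ne_zero]
        intro h; exact h0 ((fx_eq_zero_iff g).mp h)
      have h2 : (1 : ℤ) ≤ ((fx Ω g : ℕ) : ℤ) := by exact_mod_cast h1
      nlinarith
  have hsum := Finset.sum_le_sum hpt
  rw [Finset.sum_add_distrib, Finset.sum_sub_distrib, ← Finset.mul_sum, ← Finset.mul_sum, hsE,
    Finset.sum_const, nsmul_eq_mul, ← Finset.sum_filter, Finset.sum_const, nsmul_eq_mul,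
    mul_one, hE, Finset.filter_filter, ← hD, ← hE] at hsum
  have hQE : (∑ g ∈ E, ((fx Ω g : ℕ) : ℤ) * (((fx Ω g : ℕ) : ℤ) - 1)) ≤ d * (D.card : ℤ) := by
    linarith
  have hsplit := sum_split K (fun g => ((fx Ω g : ℕ) : ℤ) * (((fx Ω g : ℕ) : ℤ) - 1))
  -- bound for K
  have hQK : (∑ g ∈ univ.filter (fun g : A => g ∈ K),
      ((fx Ω g : ℕ) : ℤ) * (((fx Ω g : ℕ) : ℤ) - 1)) ≤ (d - 1) * (cd K : ℤ) := by
    rw [← hsK, Finset.mul_sum]
    apply Finset.sum_le_sum
    intro g _
    have hle : ((fx Ω g : ℕ) : ℤ) ≤ d := by rw [hdZ]; exact_mod_cast fx_le g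
    have h0 : (0 : ℤ) ≤ ((fx Ω g : ℕ) : ℤ) := by positivity
    nlinarith
  by_cases ht2 : Tr2 (⊤ : Subgroup A) Ω
  · -- 2-transitive case
    obtain ⟨x0, y0, hxy0⟩ := Fintype.one_lt_card_iff.mp (by omega : 1 < Fintype.card Ω)
    have hQT := q_tr2 (⊤ : Subgroup A) ht2 x0 y0 hxy0
    rw [filter_top, cd_top] at hQT
    have hc : ∀ p ∈ (univ : Finset Ω).offDiag, c1 K p = c1 K (x0, y0) := by
      rintro ⟨x, y⟩ hp
      have hne : x ≠ y := by
        rw [mem_offDiag] at hp; exact hp.2.2
      obtain ⟨g, _, h1, h2⟩ := ht2 x0 y0 x y hxy0 hne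
      have : g • (x0, y0) = (x, y) := Prod.ext h1 h2
      rw [← this, c1_conj]
    have hQK' : (∑ g ∈ univ.filter (fun g : A => g ∈ K),
        ((fx Ω g : ℕ) : ℤ) * (((fx Ω g : ℕ) : ℤ) - 1)) = d * (d - 1) * (c1 K (x0, y0) : ℤ) := by
      rw [sum_fx2, Finset.sum_congr rfl (fun p hp => by rw [hc p hp]), Finset.sum_const,
        nsmul_eq_mul, offDiag_card']
    have hKx : ∀ z : Ω, cd K = Fintype.card Ω * c1 K z := fun z => tr_card K hK z
    have hKxeq : ∀ z w : Ω, c1 K z = c1 K w := by
      intro z w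
      have a := hKx z
      rw [hKx w] at a
      exact (Nat.eq_of_mul_eq_mul_left (by omega) a).symm
    -- divisibility
    have hdvd : c1 K (x0, y0) ∣ c1 K x0 := by
      rw [c1_eq, c1_eq]
      apply Subgroup.card_dvd_of_le
      intro g hg
      rw [Subgroup.mem_inf, MulAction.mem_stabilizer_iff] at hg ⊢
      exact ⟨hg.1, congrArg Prod.fst hg.2⟩
    by_cases hceq : c1 K (x0, y0) = c1 K x0
    · left
      -- every element outside K has at most one fixed point
      have hle1 : ∀ g ∈ E, ((fx Ω g : ℕ) : ℤ) ≤ 1 := by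
        intro g hg
        by_contra hgt
        have h2 : 1 < fx Ω g := by
          have : (1 : ℤ) < ((fx Ω g : ℕ) : ℤ) := not_le.mp hgt
          exact_mod_cast this
        unfold fx at h2
        obtain ⟨z, hz, w, hw, hzw⟩ := Finset.one_lt_card.mp h2
        simp only [mem_filter, mem_univ, true_and] at hz hw
        have hT := tr2_card (⊤ : Subgroup A) ht2 z w hzw
        rw [cd_top] at hT
        have hT' : (Fintype.card A : ℤ) = d * (d - 1) * (c1 (⊤ : Subgroup A) (z, w) : ℤ) := by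
          rw [hT]; push_cast; rw [offDiag_card']
        have h3 : (cd K : ℤ) = d * (c1 K z : ℤ) := by
          rw [hKx z]; push_cast; rfl
        have h4 : (c1 (⊤ : Subgroup A) (z, w) : ℤ) = (c1 K z : ℤ) := by
          rw [hidxZ, h3] at hT'
          have : d * (d - 1) * (c1 (⊤ : Subgroup A) (z, w) : ℤ) = d * (d - 1) * (c1 K z : ℤ) := by
            rw [← hT']; ring
          exact mul_left_cancel₀ (by nlinarith) this
        have h5 : c1 (⊤ : Subgroup A) (z, w) = c1 K (z, w) := by
          have : c1 (⊤ : Subgroup A) (z, w) = c1 K z := by exact_mod_cast h4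
          rw [this, hc (z, w) (by simp [hzw]), hceq]
          exact hKxeq _ _
        rw [hE] at hg
        simp only [mem_filter, mem_univ, true_and] at hg
        exact hg (c1_imp le_top (z, w) h5 g trivial (Prod.ext hz hw))
      have hzero : ∑ g ∈ E, (1 - ((fx Ω g : ℕ) : ℤ)) = 0 := by
        rw [Finset.sum_sub_distrib, hsE]; simp
      have hall := (Finset.sum_eq_zero_iff_of_nonneg (fun g hg => by
        have := hle1 g hg; linarith)).mp hzero
      intro g hg
      have hgE : g ∈ E := by rw [hE]; simp [hg]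
      have h1 : ((fx Ω g : ℕ) : ℤ) = 1 := by
        have := hall g hgE; linarith
      have h2 : fx Ω g = 1 := by exact_mod_cast h1
      exact (fx_pos_iff g).mp (by omega)
    · right
      -- 2 c ≤ c1 K x0
      have h2c : 2 * c1 K (x0, y0) ≤ c1 K x0 := by
        obtain ⟨m, hm⟩ := hdvd
        have hpos := c1_pos K x0
        have hm0 : m ≠ 0 := by rintro rfl; rw [hm] at hpos; simp at hpos
        have hm1 : m ≠ 1 := by rintro rfl; exact hceq (by rw [hm]; ring)
        rw [hm]
        have : 2 ≤ m := by omega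
        nlinarith [c1_pos K (x0, y0)]
      have h2cZ : 2 * (c1 K (x0, y0) : ℤ) ≤ (c1 K x0 : ℤ) := by exact_mod_cast h2c
      have h3 : (cd K : ℤ) = d * (c1 K x0 : ℤ) := by
        rw [hKx x0]; push_cast; rfl
      have h4 : 2 * (d * (d - 1) * (c1 K (x0, y0) : ℤ)) ≤ (Fintype.card A : ℤ) := by
        rw [hidxZ, h3]
        have : 0 ≤ d * (d - 1) := by nlinarith
        nlinarith [mul_le_mul_of_nonneg_left h2cZ this]
      have h5 : (Fintype.card A : ℤ) ≤ 2 * d * (D.card : ℤ) := by
        rw [hQT, hQK'] at hsplit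
        nlinarith
      have h6 : (Fintype.card A : ℤ) ≤ ((2 * Fintype.card Ω * D.card : ℕ) : ℤ) := by
        push_cast; exact h5
      exact_mod_cast h6
  · right
    have hQT := q_ntr2 (⊤ : Subgroup A) ht2
    rw [filter_top, cd_top] at hQT
    have h5 : (Fintype.card A : ℤ) ≤ 2 * d * (D.card : ℤ) := by
      have hn : (0 : ℤ) ≤ Fintype.card A := by positivity
      have h0 : 0 ≤ d * (D.card : ℤ) := by
        apply mul_nonneg; linarith; positivity
      rw [← hidxZ] at hQK
      linarith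
    have h6 : (Fintype.card A : ℤ) ≤ ((2 * Fintype.card Ω * D.card : ℕ) : ℤ) := by
      push_cast; exact h5
    exact_mod_cast h6

end

end K7.H44.TG
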