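import Pool.Agent.K7.H44.TG2

/-!
The first level (tree groups).
-/

set_option autoImplicit false
set_option linter.unusedSectionVars false

namespace K7.H44.TG

open Finset Classical

section

variable {A X : Type*} [Group A] [Fintype A] [MulAction A X]

/-- the kernel of the action -/
def Bk (A X : Type*) [Group A] [MulAction A X] : Subgroup A := (MulAction.toPermHom A X).ker

omit [Fintype A] in
lemma mem_Bk {g : A} : g ∈ Bk A X ↔ ∀ x : X, g • x = x := by
  unfold Bk
  rw [MonoidHom.mem_ker, Equiv.ext_iff]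
  rfl

instance : (Bk A X).Normal := by unfold Bk; infer_instance

/-- sharp 2-transitivity of the image -/
def Sharp (A X : Type*) [Group A] [MulAction A X] : Prop :=
  Tr2 (⊤ : Subgroup A) X ∧ ∀ (g : A) (x y : X), x ≠ y → g • x = x → g • y = y → g ∈ Bk A X

variable [Fintype X]

lemma fx_Bk {g : A} (hg : g ∈ Bk A X) : fx X g = Fintype.card X := by
  unfold fx
  rw [mem_Bk] at hg
  rw [Finset.filter_true_of_mem (fun x _ => hg x), Finset.card_univ]

/-- a non-identity permutation has at most `d - 2` fixed points -/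
lemma fx_notBk {g : A} (hg : g ∉ Bk A X) : fx X g + 2 ≤ Fintype.card X := by
  rw [mem_Bk] at hg
  push Not at hg
  obtain ⟨x, hx⟩ := hg
  have hsub : insert x (insert (g • x) (univ.filter (fun z : X => g • z = z))) ⊆ univ :=
    Finset.subset_univ _
  have h1 : (g • x) ∉ (univ.filter (fun z : X => g • z = z)) := by
    simp only [mem_filter, mem_univ, true_and]
    intro h
    exact hx (MulAction.injective g h)
  have h2 : x ∉ insert (g • x) (univ.filter (fun z : X => g • z = z)) := by
    rw [mem_insert]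
    push Not
    refine ⟨fun h => hx h.symm, ?_⟩
    simp only [mem_filter, mem_univ, true_and]
    exact hx
  have h3 := Finset.card_le_card hsub
  rw [Finset.card_insert_of_notMem h2, Finset.card_insert_of_notMem h1, Finset.card_univ] at h3
  unfold fx
  omega

lemma level1 (hd : 3 ≤ Fintype.card X) (htr : Tr (⊤ : Subgroup A) X) :
    Sharp A X ∨ (Fintype.card X - 1) * Fintype.card A ≤
      Fintype.card X * (Fintype.card X - 2) *
        (univ.filter (fun g : A => ∀ x : X, g • x ≠ x)).card := by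
  have : Nonempty X := Fintype.card_pos_iff.mp (by omega)
  by_cases hS : Sharp A X
  · exact Or.inl hS
  right
  set d : ℤ := (Fintype.card X : ℤ) with hdZ
  have hd3 : (3 : ℤ) ≤ d := by rw [hdZ]; exact_mod_cast hd
  set D := univ.filter (fun g : A => ∀ x : X, g • x ≠ x) with hD
  have hsT : (∑ g : A, ((fx X g : ℕ) : ℤ)) = Fintype.card A := by
    have := sum_fx_tr (⊤ : Subgroup A) htr
    rw [filter_top, cd_top] at this
    exact this
  suffices h : (d - 1) * (Fintype.card A : ℤ) ≤ d * (d - 2) * (D.card : ℤ) by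
    have h6 : (((Fintype.card X - 1) * Fintype.card A : ℕ) : ℤ) ≤
      ((Fintype.card X * (Fintype.card X - 2) * D.card : ℕ) : ℤ) := by
      push_cast [Nat.cast_sub (show 1 ≤ Fintype.card X by omega),
        Nat.cast_sub (show 2 ≤ Fintype.card X by omega)]
      exact h
    exact_mod_cast h6
  have hn : (0 : ℤ) < Fintype.card A := by
    have : 0 < Fintype.card A := Fintype.card_pos
    exact_mod_cast this
  -- pointwise inequality
  have hpt : ∀ g : A, (d - 2) * (((fx X g : ℕ) : ℤ) * (((fx X g : ℕ) : ℤ) - 1) -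
      d * ((fx X g : ℕ) : ℤ) + d) +
      2 * (if g ∉ Bk A X then ((fx X g : ℕ) : ℤ) * (((fx X g : ℕ) : ℤ) - 1) else 0) ≤
      d * (d - 2) * (if (∀ z : X, g • z ≠ z) then 1 else 0) := by
    intro g
    by_cases hgB : g ∈ Bk A X
    · rw [if_neg (not_not.mpr hgB), fx_Bk hgB, if_neg, ← hdZ]
      · ring_nf; rfl
      · intro h
        have := (fx_eq_zero_iff (Ω := X) g).mpr h
        rw [fx_Bk hgB] at this
        omega
    · rw [if_pos hgB]
      have hle : ((fx X g : ℕ) : ℤ) + 2 ≤ d := by rw [hdZ]; exact_mod_cast fx_notBk hgB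
      by_cases h0 : ∀ z : X, g • z ≠ z
      · rw [if_pos h0, (fx_eq_zero_iff g).mpr h0]
        push_cast
        nlinarith
      · rw [if_neg h0]
        have h1 : 1 ≤ fx X g := by
          rw [Nat.one_le_iff_ne_zero]
          intro h; exact h0 ((fx_eq_zero_iff g).mp h)
        have h2 : (1 : ℤ) ≤ ((fx X g : ℕ) : ℤ) := by exact_mod_cast h1
        set f : ℤ := ((fx X g : ℕ) : ℤ)
        -- (d-2) * (-(f-1)(d-f)) + 2 f (f-1) ≤ 0
        have h3 : 0 ≤ (f - 1) * ((d - 2) * (d - f) - 2 * f) := by
          apply mul_nonneg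
          · linarith
          · nlinarith
        nlinarith
  have hsum := Finset.sum_le_sum (fun g (_ : g ∈ (univ : Finset A)) => hpt g)
  rw [Finset.sum_add_distrib, ← Finset.mul_sum, ← Finset.mul_sum, ← Finset.mul_sum,
    Finset.sum_add_distrib, Finset.sum_sub_distrib, ← Finset.mul_sum, hsT, Finset.sum_const,
    nsmul_eq_mul, ← Finset.sum_filter, ← Finset.sum_filter, Finset.sum_const, nsmul_eq_mul,
    mul_one, ← hD, Finset.card_univ] at hsum
  have hsplit := sum_split (Bk A X) (fun g => ((fx X g : ℕ) : ℤ) * (((fx X g : ℕ) : ℤ) - 1))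
  by_cases ht2 : Tr2 (⊤ : Subgroup A) X
  · obtain ⟨x0, y0, hxy0⟩ := Fintype.one_lt_card_iff.mp (by omega : 1 < Fintype.card X)
    have hQT := q_tr2 (⊤ : Subgroup A) ht2 x0 y0 hxy0
    rw [filter_top, cd_top] at hQT
    have hQB : (∑ g ∈ univ.filter (fun g : A => g ∈ Bk A X),
        ((fx X g : ℕ) : ℤ) * (((fx X g : ℕ) : ℤ) - 1)) = d * (d - 1) * (cd (Bk A X) : ℤ) := by
      rw [Finset.sum_congr rfl (fun g hg => by
        rw [fx_Bk (by simpa using hg : g ∈ Bk A X)]), Finset.sum_const, nsmul_eq_mul]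
      unfold cd
      ring
    -- not sharp
    obtain ⟨g, x, y, hxy, hgx, hgy, hgB⟩ : ∃ (g : A) (x y : X), x ≠ y ∧ g • x = x ∧ g • y = y ∧
        g ∉ Bk A X := by
      by_contra hno
      push Not at hno
      exact hS ⟨ht2, hno⟩
    have hT := tr2_card (⊤ : Subgroup A) ht2 x y hxy
    rw [cd_top] at hT
    have hT' : (Fintype.card A : ℤ) = d * (d - 1) * (c1 (⊤ : Subgroup A) (x, y) : ℤ) := by
      rw [hT]; push_cast; rw [offDiag_card']
    have hBle : Bk A X ≤ (⊤ ⊓ MulAction.stabilizer A (x, y) : Subgroup A) := by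
      intro k hk
      rw [mem_Bk] at hk
      rw [Subgroup.mem_inf, MulAction.mem_stabilizer_iff]
      exact ⟨trivial, Prod.ext (hk x) (hk y)⟩
    have hdvd : cd (Bk A X) ∣ c1 (⊤ : Subgroup A) (x, y) := by
      rw [c1_eq, cd_eq]
      exact Subgroup.card_dvd_of_le hBle
    have hne : cd (Bk A X) ≠ c1 (⊤ : Subgroup A) (x, y) := by
      intro h
      rw [c1_eq, cd_eq] at h
      have h8 := Subgroup.eq_of_le_of_card_ge hBle h.ge
      apply hgB
      rw [h8, Subgroup.mem_inf, MulAction.mem_stabilizer_iff]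
      exact ⟨trivial, Prod.ext hgx hgy⟩
    have h2c : 2 * cd (Bk A X) ≤ c1 (⊤ : Subgroup A) (x, y) := by
      obtain ⟨m, hm⟩ := hdvd
      have hpos := c1_pos (⊤ : Subgroup A) (x, y)
      have hm0 : m ≠ 0 := by rintro rfl; rw [hm] at hpos; simp at hpos
      have hm1 : m ≠ 1 := by rintro rfl; exact hne (by rw [hm]; ring)
      rw [hm]
      have : 2 ≤ m := by omega
      nlinarith [cd_pos (Bk A X)]
    have h2cZ : 2 * (cd (Bk A X) : ℤ) ≤ (c1 (⊤ : Subgroup A) (x, y) : ℤ) := by exact_mod_cast h2c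
    have h4 : 2 * (d * (d - 1) * (cd (Bk A X) : ℤ)) ≤ (Fintype.card A : ℤ) := by
      rw [hT']
      have : 0 ≤ d * (d - 1) := by nlinarith
      nlinarith [mul_le_mul_of_nonneg_left h2cZ this]
    rw [hQT, hQB] at hsplit
    rw [hQT] at hsum
    nlinarith
  · have hQT := q_ntr2 (⊤ : Subgroup A) ht2
    rw [filter_top, cd_top] at hQT
    have h9 : (0 : ℤ) ≤ ∑ g ∈ univ.filter (fun g : A => g ∉ Bk A X),
        ((fx X g : ℕ) : ℤ) * (((fx X g : ℕ) : ℤ) - 1) := by
      apply Finset.sum_nonneg
      intro g _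
      rcases Nat.eq_zero_or_pos (fx X g) with h | h
      · rw [h]; simp
      · have : (1 : ℤ) ≤ ((fx X g : ℕ) : ℤ) := by exact_mod_cast h
        nlinarith
    nlinarith

/-- counts in the sharply 2-transitive case -/
lemma sharp_card (hd : 3 ≤ Fintype.card X) (hS : Sharp A X) :
    Fintype.card A = Fintype.card X * (Fintype.card X - 1) * cd (Bk A X) := by
  obtain ⟨x0, y0, hxy0⟩ := Fintype.one_lt_card_iff.mp (by omega : 1 < Fintype.card X)
  have hT := tr2_card (⊤ : Subgroup A) hS.1 x0 y0 hxy0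
  rw [cd_top] at hT
  have h1 : c1 (⊤ : Subgroup A) (x0, y0) = cd (Bk A X) := by
    unfold c1 cd
    congr 1
    ext g
    simp only [mem_filter, mem_univ, true_and]
    constructor
    · rintro ⟨_, h⟩
      exact hS.2 g x0 y0 hxy0 (congrArg Prod.fst h) (congrArg Prod.snd h)
    · intro h
      rw [mem_Bk] at h
      exact ⟨trivial, Prod.ext (h x0) (h y0)⟩
  rw [hT, h1, Finset.offDiag_card, Finset.card_univ]
  congr 1
  rw [Nat.mul_sub, mul_one]

omit [Fintype X] in
lemma sharp_tr (hd : ∃ x y : X, x ≠ y) (hS : Sharp A X) : Tr (⊤ : Subgroup A) X := by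
  intro z w
  obtain ⟨x, y, hxy⟩ := hd
  by_cases h1 : x = z
  · subst h1
    by_cases h2 : y = w
    · subst h2
      obtain ⟨g, hg, h, _⟩ := hS.1 x y y x hxy hxy.symm
      exact ⟨g, hg, h⟩
    · obtain ⟨g, hg, h, _⟩ := hS.1 x y w y hxy (fun h => h2 h.symm)
      exact ⟨g, hg, h⟩
  · by_cases h2 : x = w
    · subst h2
      obtain ⟨g, hg, h, _⟩ := hS.1 z x x z (fun h => h1 h.symm) h1
      exact ⟨g, hg, h⟩
    · obtain ⟨g, hg, h, _⟩ := hS.1 z x w x (fun h => h1 h.symm) (fun h => h2 h.symm)
      exact ⟨g, hg, h⟩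

/-- elements with exactly one fixed point on `X` -/
def Af (A X : Type*) [Group A] [MulAction A X] (g : A) : Prop := ∃ x : X, g • x = x ∧ g ∉ Bk A X

/-- number of elements with exactly one fixed point -/
lemma sharp_A (hd : 3 ≤ Fintype.card X) (hS : Sharp A X) :
    (univ.filter (fun g : A => Af A X g)).card = Fintype.card X * (Fintype.card X - 2) * cd (Bk A X) := by
  have : Nonempty X := Fintype.card_pos_iff.mp (by omega)
  obtain ⟨x0, y0, hxy0⟩ := Fintype.one_lt_card_iff.mp (by omega : 1 < Fintype.card X)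
  have htr := sharp_tr ⟨x0, y0, hxy0⟩ hS
  have hsT : (∑ g : A, ((fx X g : ℕ) : ℤ)) = Fintype.card A := by
    have := sum_fx_tr (⊤ : Subgroup A) htr
    rw [filter_top, cd_top] at this
    exact this
  have hsplit := sum_split (Bk A X) (fun g => ((fx X g : ℕ) : ℤ))
  have hB : (∑ g ∈ univ.filter (fun g : A => g ∈ Bk A X),
        ((fx X g : ℕ) : ℤ)) = (Fintype.card X : ℤ) * (cd (Bk A X) : ℤ) := by
      rw [Finset.sum_congr rfl (fun g hg => by
        rw [fx_Bk (by simpa using hg : g ∈ Bk A X)]), Finset.sum_const, nsmul_eq_mul]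
      unfold cd
      ring
  have hnB : (∑ g ∈ univ.filter (fun g : A => g ∉ Bk A X), ((fx X g : ℕ) : ℤ)) =
      ((univ.filter (fun g : A => Af A X g)).card : ℤ) := by
    have h1 : ∀ g ∈ univ.filter (fun g : A => g ∉ Bk A X), ((fx X g : ℕ) : ℤ) =
        if Af A X g then 1 else 0 := by
      intro g hg
      simp only [mem_filter, mem_univ, true_and] at hg
      by_cases h : Af A X g
      · rw [if_pos h]
        obtain ⟨x, hx, _⟩ := h
        have : fx X g = 1 := by
          unfold fx
          rw [Finset.card_eq_one]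
          refine ⟨x, ?_⟩
          ext y
          simp only [mem_filter, mem_univ, true_and, mem_singleton]
          constructor
          · intro hy
            by_contra hne
            exact hg (hS.2 g y x hne hy hx)
          · rintro rfl; exact hx
        rw [this]; rfl
      · rw [if_neg h]
        have : fx X g = 0 := by
          rw [fx_eq_zero_iff]
          intro z hz
          exact h ⟨z, hz, hg⟩
        rw [this]; rfl
    rw [Finset.sum_congr rfl h1, ← Finset.sum_filter, Finset.sum_const, nsmul_eq_mul, mul_one,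
      Finset.filter_filter]
    congr 2
    ext g
    simp only [mem_filter, mem_univ, true_and]
    constructor
    · exact fun h => h.2
    · rintro ⟨x, hx, hB⟩
      exact ⟨hB, ⟨x, hx, hB⟩⟩
  rw [hsT, hB, hnB, sharp_card hd hS] at hsplit
  have h2 : (((univ.filter (fun g : A => Af A X g)).card : ℕ) : ℤ) =
      ((Fintype.card X * (Fintype.card X - 2) * cd (Bk A X) : ℕ) : ℤ) := by
    push_cast [Nat.cast_sub (show 1 ≤ Fintype.card X by omega),
        Nat.cast_sub (show 2 ≤ Fintype.card X by omega)] at hsplit ⊢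
    linarith
  exact_mod_cast h2

end

end K7.H44.TG
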