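import Pool.Agent.K7.H44.TG3

/-!
The structure below a sharply 2-transitive first level (tree groups).
-/

set_option autoImplicit false
set_option linter.unusedSectionVars false

namespace K7.H44.TG

open Finset Classical

section

variable {A X Y Z : Type*} [Group A] [Fintype A] [MulAction A X] [MulAction A Y] [MulAction A Z]
  [Fintype X] [Fintype Y] [Fintype Z]

/-- the kernel is transitive on the fibres, for fibre size coprime to `d - 1` -/
lemma fiber_tr (r : Z → X) (hr : ∀ (g : A) z, r (g • z) = g • r z)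
    (hd : 3 ≤ Fintype.card X) (hS : Sharp A X) (hZ : Tr (⊤ : Subgroup A) Z) (m : ℕ)
    (hm : ∀ x, (univ.filter (fun z => r z = x)).card = m)
    (hcop : Nat.Coprime m (Fintype.card X - 1)) (z z' : Z) (hzz : r z = r z') :
    ∃ b ∈ Bk A X, b • z = z' := by
  obtain ⟨x0, y0, hxy0⟩ := Fintype.one_lt_card_iff.mp (by omega : 1 < Fintype.card X)
  have htr := sharp_tr ⟨x0, y0, hxy0⟩ hS
  set T : Finset Z := univ.filter (fun w => r w = r z) with hT
  have hTc : T.card = m := hm (r z)
  -- the orbit of z under Bk is inside T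
  have hsub : orb (Bk A X) z ⊆ T := by
    intro w hw
    obtain ⟨g, hg, rfl⟩ := mem_orb.mp hw
    rw [mem_Bk] at hg
    simp only [hT, mem_filter, mem_univ, true_and]
    rw [hr, hg]
  -- stabiliser of x
  have h1 : cd (MulAction.stabilizer A (r z)) = T.card * c1 (MulAction.stabilizer A (r z)) z := by
    apply os
    · intro s hs
      rw [MulAction.mem_stabilizer_iff] at hs
      simp only [hT, mem_filter, mem_univ, true_and]
      rw [hr, hs]
    · intro t' ht'
      simp only [hT, mem_filter, mem_univ, true_and] at ht'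
      obtain ⟨g, _, hg⟩ := hZ z t'
      refine ⟨g, ?_, hg⟩
      rw [MulAction.mem_stabilizer_iff, ← hr, hg, ht']
  have h2 : c1 (⊤ : Subgroup A) (r z) = cd (MulAction.stabilizer A (r z)) := by
    unfold c1 cd
    congr 1
    ext g
    simp [MulAction.mem_stabilizer_iff]
  have h3 : c1 (MulAction.stabilizer A (r z)) z = c1 (⊤ : Subgroup A) z := by
    unfold c1
    congr 1
    ext g
    simp only [mem_filter, mem_univ, true_and, MulAction.mem_stabilizer_iff, Subgroup.mem_top]
    constructor
    · exact fun h => h.2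
    · intro h
      exact ⟨by rw [← hr, h], h⟩
  have h4 := tr_card (⊤ : Subgroup A) htr (r z)
  rw [cd_top, sharp_card hd hS, h2] at h4
  have h5 : (Fintype.card X - 1) * cd (Bk A X) = cd (MulAction.stabilizer A (r z)) := by
    apply Nat.eq_of_mul_eq_mul_left (show 0 < Fintype.card X by omega)
    rw [← mul_assoc]; exact h4
  have h6 := orb_card (Bk A X) z
  have h7 : c1 (Bk A X) z ∣ c1 (⊤ : Subgroup A) z := by
    rw [c1_eq, c1_eq]
    apply Subgroup.card_dvd_of_le
    exact inf_le_inf_right _ le_top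
  obtain ⟨j, hj⟩ := h7
  have h8 : T.card * j = (Fintype.card X - 1) * (orb (Bk A X) z).card := by
    rw [h1, h3, hj, h6] at h5
    have hpos := c1_pos (Bk A X) z
    apply Nat.eq_of_mul_eq_mul_left hpos
    nlinarith
  have h9 : T.card ∣ (orb (Bk A X) z).card := by
    rw [hTc] at h8 ⊢
    apply hcop.dvd_of_dvd_mul_left
    exact ⟨j, h8.symm⟩
  have h10 : T.card ≤ (orb (Bk A X) z).card :=
    Nat.le_of_dvd (Finset.card_pos.mpr ⟨z, self_mem_orb _ z⟩) h9
  have h11 := Finset.eq_of_subset_of_card_le hsub h10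
  have h12 : z' ∈ T := by simp [hT, hzz]
  rw [← h11, mem_orb] at h12
  exact h12

/-- sum over `Y` of the sizes of the point stabilisers in the kernel -/
lemma sum_c1_B (p : Y → X) (hp : ∀ (g : A) y, p (g • y) = g • p y)
    (hBY : ∀ y y' : Y, p y = p y' → ∃ b ∈ Bk A X, b • y = y') (hsurj : ∀ x, ∃ y, p y = x) :
    ∑ y : Y, ((c1 (Bk A X) y : ℕ) : ℤ) = (Fintype.card X : ℤ) * (cd (Bk A X) : ℤ) := by
  rw [← Finset.sum_fiberwise (s := (univ : Finset Y)) (g := p)]
  rw [Finset.sum_congr rfl (g := fun _ => ((cd (Bk A X) : ℕ) : ℤ)), Finset.sum_const,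
    Finset.card_univ, nsmul_eq_mul]
  intro x _
  obtain ⟨y, hy⟩ := hsurj x
  rw [← sum_c1_orb (Bk A X) y]
  apply Finset.sum_congr _ (fun _ _ => rfl)
  ext w
  rw [mem_orb]
  simp only [mem_filter, mem_univ, true_and]
  constructor
  · intro h
    exact hBY y w (by rw [hy, h])
  · rintro ⟨g, hg, rfl⟩
    rw [mem_Bk] at hg
    rw [hp, hg, hy]

/-- the total number of fixed points of the elements of `Af` on `Y` -/
lemma sum_Af (p : Y → X) (hp : ∀ (g : A) y, p (g • y) = g • p y)
    (hd : 3 ≤ Fintype.card X) (hS : Sharp A X) (hY : Tr (⊤ : Subgroup A) Y)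
    (hBY : ∀ y y' : Y, p y = p y' → ∃ b ∈ Bk A X, b • y = y') (hsurj : ∀ x, ∃ y, p y = x) :
    ∑ g ∈ univ.filter (fun g : A => Af A X g), ((fx Y g : ℕ) : ℤ) =
      ((univ.filter (fun g : A => Af A X g)).card : ℤ) := by
  have : Nonempty X := Fintype.card_pos_iff.mp (by omega)
  obtain ⟨x00⟩ := this
  have : Nonempty Y := ⟨(hsurj x00).choose⟩
  have h0 := point_sum (X := Y) (univ.filter (fun g : A => Af A X g)) (fun g y => g • y = y)
  have h1 : ∀ y : Y, (((univ.filter (fun g : A => Af A X g)).filter (fun g => g • y = y)).card : ℤ) =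
      (c1 (⊤ : Subgroup A) y : ℤ) - (c1 (Bk A X) y : ℤ) := by
    intro y
    have h2 : (univ.filter (fun g : A => g ∈ (⊤ : Subgroup A) ∧ g • y = y)) =
        (univ.filter (fun g : A => g ∈ Bk A X ∧ g • y = y)) ∪
        ((univ.filter (fun g : A => Af A X g)).filter (fun g => g • y = y)) := by
      ext g
      simp only [mem_filter, mem_univ, true_and, mem_union, Subgroup.mem_top]
      constructor
      · intro h
        by_cases hB : g ∈ Bk A X
        · exact Or.inl ⟨hB, h⟩
        · right
          exact ⟨⟨p y, by rw [← hp, h], hB⟩, h⟩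
      · rintro (h | h)
        · exact h.2
        · exact h.2
    have h3 : Disjoint (univ.filter (fun g : A => g ∈ Bk A X ∧ g • y = y))
        ((univ.filter (fun g : A => Af A X g)).filter (fun g => g • y = y)) := by
      rw [Finset.disjoint_left]
      intro g hg hg'
      simp only [mem_filter, mem_univ, true_and] at hg hg'
      obtain ⟨⟨_, _, hB⟩, _⟩ := hg'
      exact hB hg.1
    have h4 := congrArg Finset.card h2
    rw [Finset.card_union_of_disjoint h3] at h4
    have h5 : c1 (⊤ : Subgroup A) y = c1 (Bk A X) y +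
        ((univ.filter (fun g : A => Af A X g)).filter (fun g => g • y = y)).card := h4
    rw [h5]
    push_cast
    ring
  have h6 : ∑ g ∈ univ.filter (fun g : A => Af A X g), ((fx Y g : ℕ) : ℤ) =
      ∑ y : Y, ((c1 (⊤ : Subgroup A) y : ℤ) - (c1 (Bk A X) y : ℤ)) := by
    rw [← Finset.sum_congr rfl (fun y _ => h1 y)]
    exact h0
  rw [h6, Finset.sum_sub_distrib, sum_c1_B p hp hBY hsurj, ← sum_fx, sum_fx_tr _ hY, cd_top,
    sharp_A hd hS, sharp_card hd hS]
  push_cast [Nat.cast_sub (show 1 ≤ Fintype.card X by omega),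
        Nat.cast_sub (show 2 ≤ Fintype.card X by omega)]
  ring

lemma fx_Af_eq_one (p : Y → X) (hp : ∀ (g : A) y, p (g • y) = g • p y)
    (hd : 3 ≤ Fintype.card X) (hS : Sharp A X) (hY : Tr (⊤ : Subgroup A) Y)
    (hBY : ∀ y y' : Y, p y = p y' → ∃ b ∈ Bk A X, b • y = y') (hsurj : ∀ x, ∃ y, p y = x)
    (hfix : ∀ g : A, Af A X g → ∃ y : Y, g • y = y) (g : A) (hg : Af A X g) : fx Y g = 1 := by
  have h := sum_Af p hp hd hS hY hBY hsurj
  have hzero : ∑ g ∈ univ.filter (fun g : A => Af A X g), (((fx Y g : ℕ) : ℤ) - 1) = 0 := by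
    rw [Finset.sum_sub_distrib, h]; simp
  have hall := (Finset.sum_eq_zero_iff_of_nonneg (fun g hg => by
    have h1 : 0 < fx Y g := (fx_pos_iff g).mpr (hfix g (by simpa using hg))
    have h2 : (1 : ℤ) ≤ ((fx Y g : ℕ) : ℤ) := by exact_mod_cast h1
    linarith)).mp hzero
  have h2 := hall g (by simpa using hg)
  have h3 : ((fx Y g : ℕ) : ℤ) = 1 := by linarith
  exact_mod_cast h3

/-- the action of the stabiliser of `y` on the fibre over `y` -/
@[reducible] def fibAct (q : Z → Y) (hq : ∀ (g : A) z, q (g • z) = g • q z) (y : Y) :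
    MulAction (MulAction.stabilizer A y) {z : Z // q z = y} where
  smul g z := ⟨g.1 • z.1, by rw [hq, z.2]; exact g.2⟩
  one_smul z := Subtype.ext (one_smul A z.1)
  mul_smul g h z := Subtype.ext (mul_smul g.1 h.1 z.1)

/-- The loss at one level. -/
theorem loss (p : Y → X) (q : Z → Y) (hp : ∀ (g : A) y, p (g • y) = g • p y)
    (hq : ∀ (g : A) z, q (g • z) = g • q z)
    (hd : 3 ≤ Fintype.card X) (hS : Sharp A X) (hZ : Tr (⊤ : Subgroup A) Z) (k : ℕ) (hk : 0 < k)
    (hfp : ∀ x, (univ.filter (fun y => p y = x)).card = k)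
    (hfq : ∀ y, (univ.filter (fun z => q z = y)).card = Fintype.card X)
    (hcop : Nat.Coprime (k * Fintype.card X) (Fintype.card X - 1))
    (hfix : ∀ g : A, Af A X g → ∃ y : Y, g • y = y) :
    (∀ g : A, Af A X g → ∃ z : Z, g • z = z) ∨
      Fintype.card A ≤ 2 * Fintype.card X *
        (univ.filter (fun g : A => Af A X g ∧ ∀ z : Z, g • z ≠ z)).card := by
  have hsq : ∀ y, ∃ z, q z = y := by
    intro y
    have h1 : 0 < (univ.filter (fun z => q z = y)).card := by rw [hfq]; omega
    obtain ⟨z, hz⟩ := Finset.card_pos.mp h1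
    exact ⟨z, by simpa using hz⟩
  have hsp : ∀ x, ∃ y, p y = x := by
    intro x
    have h1 : 0 < (univ.filter (fun y => p y = x)).card := by rw [hfp]; omega
    obtain ⟨z, hz⟩ := Finset.card_pos.mp h1
    exact ⟨z, by simpa using hz⟩
  have hY : Tr (⊤ : Subgroup A) Y := by
    intro y y'
    obtain ⟨z, hz⟩ := hsq y
    obtain ⟨z', hz'⟩ := hsq y'
    obtain ⟨g, hg, hgz⟩ := hZ z z'
    exact ⟨g, hg, by rw [← hz, ← hq, hgz, hz']⟩
  have : Nonempty X := Fintype.card_pos_iff.mp (by omega)
  obtain ⟨x00⟩ := this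
  have hneY : Nonempty Y := ⟨(hsp x00).choose⟩
  have hm : ∀ x, (univ.filter (fun z => p (q z) = x)).card = k * Fintype.card X := by
    intro x
    rw [Finset.card_eq_sum_card_fiberwise (f := q) (t := univ.filter (fun y => p y = x))
      (by intro z hz
          simp only [coe_filter, mem_univ, true_and, Set.mem_ofPred_eq] at hz ⊢
          exact hz)]
    rw [Finset.sum_const_nat (m := Fintype.card X), hfp]
    intro y hy
    simp only [mem_filter, mem_univ, true_and] at hy
    rw [← hfq y]
    congr 1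
    ext z
    simp only [mem_filter, mem_univ, true_and]
    constructor
    · exact fun h => h.2
    · intro h; exact ⟨by rw [h, hy], h⟩
  have hBZ : ∀ z z' : Z, p (q z) = p (q z') → ∃ b ∈ Bk A X, b • z = z' := fun z z' h =>
    fiber_tr (fun z => p (q z)) (fun g z => by rw [hq, hp]) hd hS hZ _ hm hcop z z' h
  have hBY : ∀ y y' : Y, p y = p y' → ∃ b ∈ Bk A X, b • y = y' := by
    intro y y' h
    obtain ⟨z, hz⟩ := hsq y
    obtain ⟨z', hz'⟩ := hsq y'
    obtain ⟨g, hg, hgz⟩ := hBZ z z' (by rw [hz, hz', h])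
    exact ⟨g, hg, by rw [← hz, ← hq, hgz, hz']⟩
  have hone := fx_Af_eq_one p hp hd hS hY hBY hsp hfix
  by_cases hall : ∀ g : A, Af A X g → ∃ z : Z, g • z = z
  · exact Or.inl hall
  right
  push Not at hall
  obtain ⟨g0, hg0, hno⟩ := hall
  obtain ⟨y0, hy0⟩ := hfix g0 hg0
  -- one vertex
  have hver : ∀ y : Y, c1 (⊤ : Subgroup A) y ≤ 2 * Fintype.card X *
      ((univ.filter (fun g : A => Af A X g ∧ ∀ z : Z, g • z ≠ z)).filter
        (fun g => g • y = y)).card := by
    intro y
    let _ := fibAct q hq y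
    have hcardΩ : Fintype.card {z : Z // q z = y} = Fintype.card X := by
      rw [Fintype.card_subtype]; exact hfq y
    set K : Subgroup (MulAction.stabilizer A y) :=
      (Bk A X).subgroupOf (MulAction.stabilizer A y) with hK
    have hKtr : Tr K {z : Z // q z = y} := by
      rintro ⟨z, hz⟩ ⟨w, hw⟩
      obtain ⟨b, hb, hbz⟩ := hBZ z w (by rw [hz, hw])
      refine ⟨⟨b, ?_⟩, ?_, Subtype.ext hbz⟩
      · rw [MulAction.mem_stabilizer_iff, ← hz, ← hq, hbz, hw, hz]
      · rw [hK, Subgroup.mem_subgroupOf]; exact hb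
    have hcA : Fintype.card (MulAction.stabilizer A y) = c1 (⊤ : Subgroup A) y := by
      unfold c1
      rw [Fintype.card_subtype]
      congr 1
      ext g
      simp [MulAction.mem_stabilizer_iff]
    have hcK : cd K = c1 (Bk A X) y := by
      unfold cd c1
      apply Finset.card_bij (fun g _ => g.1)
      · rintro ⟨g, hg⟩ hg2
        simp only [mem_filter, mem_univ, true_and] at hg2 ⊢
        rw [hK, Subgroup.mem_subgroupOf] at hg2
        exact ⟨hg2, hg⟩
      · intro a _ b _ hab
        exact Subtype.ext hab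
      · intro g hg
        simp only [mem_filter, mem_univ, true_and] at hg
        refine ⟨⟨g, hg.2⟩, ?_, rfl⟩
        simp only [mem_filter, mem_univ, true_and]
        rw [hK, Subgroup.mem_subgroupOf]
        exact hg.1
    have hidx : Fintype.card (MulAction.stabilizer A y) =
        (Fintype.card {z : Z // q z = y} - 1) * cd K := by
      rw [hcA, hcardΩ, hcK]
      have e1 := tr_card (⊤ : Subgroup A) hY y
      rw [cd_top, sharp_card hd hS] at e1
      have e2 : Fintype.card Y = k * Fintype.card X := by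
        rw [← Finset.card_univ, Finset.card_eq_sum_card_fiberwise (f := p) (t := univ)
          (by intro z _; simp)]
        rw [Finset.sum_const_nat (m := k) (by intro x _; exact hfp x), Finset.card_univ, mul_comm]
      have e3 : cd (Bk A X) = k * c1 (Bk A X) y := by
        rw [← hfp (p y)]
        apply os
        · intro s hs
          rw [mem_Bk] at hs
          simp only [mem_filter, mem_univ, true_and]
          rw [hp, hs]
        · intro y' hy'
          simp only [mem_filter, mem_univ, true_and] at hy'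
          exact hBY y y' hy'.symm
      rw [e2, e3] at e1
      have hpos : 0 < k * Fintype.card X := Nat.mul_pos hk (by omega)
      apply Nat.eq_of_mul_eq_mul_left hpos
      rw [← e1]
      ring
    have hd2 : 2 ≤ Fintype.card {z : Z // q z = y} := by rw [hcardΩ]; omega
    rcases lossC K hd2 hKtr hidx with hL | hL
    · exfalso
      obtain ⟨γ, _, hγ⟩ := hY y0 y
      have h1 : (γ * g0 * γ⁻¹) • y = y := by
        rw [← hγ, mul_smul, mul_smul, inv_smul_smul, hy0]
      have h2 : (γ * g0 * γ⁻¹) ∉ Bk A X := by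
        intro h
        obtain ⟨_, _, hB⟩ := hg0
        apply hB
        have := (inferInstance : (Bk A X).Normal).conj_mem _ h γ⁻¹
        simpa [mul_assoc] using this
      obtain ⟨⟨z, hz⟩, hz'⟩ := hL ⟨γ * g0 * γ⁻¹, h1⟩ (by
        rw [hK, Subgroup.mem_subgroupOf]; exact h2)
      have h3 : (γ * g0 * γ⁻¹) • z = z := congrArg Subtype.val hz'
      apply hno (γ⁻¹ • z)
      have h4 : γ⁻¹ • ((γ * g0 * γ⁻¹) • z) = γ⁻¹ • z := by rw [h3]
      rw [← mul_smul] at h4
      rw [← mul_smul]
      convert h4 using 2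
      group
    · rw [hcA, hcardΩ] at hL
      refine hL.trans (Nat.mul_le_mul_left _ ?_)
      apply Finset.card_le_card_of_injOn (fun g => g.1)
      · rintro ⟨g, hg⟩ hg2
        simp only [coe_filter, mem_univ, true_and, Set.mem_ofPred_eq] at hg2
        obtain ⟨hgK, hgz⟩ := hg2
        rw [hK, Subgroup.mem_subgroupOf] at hgK
        have hgK' : g ∉ Bk A X := hgK
        have hgy : g • y = y := hg
        have hAf : Af A X g := ⟨p y, by rw [← hp, hgy], hgK'⟩
        simp only [coe_filter, mem_filter, mem_univ, true_and, Set.mem_ofPred_eq]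
        refine ⟨⟨hAf, ?_⟩, hgy⟩
        intro z hz
        have h1 : g • q z = q z := by rw [← hq, hz]
        have h2 := hone g hAf
        unfold fx at h2
        rw [Finset.card_eq_one] at h2
        obtain ⟨w, hw⟩ := h2
        have h3 : q z ∈ univ.filter (fun y : Y => g • y = y) := by simp [h1]
        have h4 : y ∈ univ.filter (fun y : Y => g • y = y) := by simp [hgy]
        rw [hw, mem_singleton] at h3 h4
        exact hgz ⟨z, by rw [h3, h4]⟩ (Subtype.ext hz)
      · intro a _ b _ hab
        exact Subtype.ext hab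
  -- summation
  have hsumc : ∑ y : Y, ((c1 (⊤ : Subgroup A) y : ℕ) : ℤ) = Fintype.card A := by
    rw [← sum_fx, sum_fx_tr _ hY, cd_top]
  have hsumD : ∑ y : Y, (((univ.filter (fun g : A => Af A X g ∧ ∀ z : Z, g • z ≠ z)).filter
        (fun g => g • y = y)).card : ℤ) =
      ((univ.filter (fun g : A => Af A X g ∧ ∀ z : Z, g • z ≠ z)).card : ℤ) := by
    rw [← point_sum (X := Y) (univ.filter (fun g : A => Af A X g ∧ ∀ z : Z, g • z ≠ z))
      (fun g y => g • y = y)]
    rw [Finset.sum_congr rfl (g := fun _ => (1 : ℤ))]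
    · simp
    · intro g hg
      simp only [mem_filter, mem_univ, true_and] at hg
      have := hone g hg.1
      unfold fx at this
      rw [this]; rfl
  have h1 : (Fintype.card A : ℤ) ≤ 2 * (Fintype.card X : ℤ) *
      ((univ.filter (fun g : A => Af A X g ∧ ∀ z : Z, g • z ≠ z)).card : ℤ) := by
    rw [← hsumc, ← hsumD, Finset.mul_sum]
    apply Finset.sum_le_sum
    intro y _
    exact_mod_cast hver y
  exact_mod_cast h1

theorem loss' (p : Y → X) (q : Z → Y) (hp : ∀ (g : A) y, p (g • y) = g • p y)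
    (hq : ∀ (g : A) z, q (g • z) = g • q z)
    (hd : 3 ≤ Fintype.card X) (hS : Sharp A X) (hZ : Tr (⊤ : Subgroup A) Z) (k : ℕ) (hk : 0 < k)
    (hfp : ∀ x, Nat.card {y // p y = x} = k)
    (hfq : ∀ y, Nat.card {z // q z = y} = Fintype.card X)
    (hcop : Nat.Coprime (k * Fintype.card X) (Fintype.card X - 1))
    (hfix : ∀ g : A, Af A X g → ∃ y : Y, g • y = y) :
    (∀ g : A, Af A X g → ∃ z : Z, g • z = z) ∨
      ∃ D : Finset A, (∀ g ∈ D, Af A X g ∧ ∀ z : Z, g • z ≠ z) ∧
        Fintype.card A ≤ 2 * Fintype.card X * D.card := by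
  rcases loss p q hp hq hd hS hZ k hk
    (fun x => by rw [← hfp x, Nat.card_eq_fintype_card, Fintype.card_subtype])
    (fun y => by rw [← hfq y, Nat.card_eq_fintype_card, Fintype.card_subtype]) hcop hfix with h | h
  · exact Or.inl h
  · exact Or.inr ⟨_, fun g hg => by simpa using hg, h⟩

end

end K7.H44.TG
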