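import Pool.Agent.K7.H44.TG4

/-!
The case `d = 3`: a fixed-point-free element in the kernel of the first level.
-/

set_option autoImplicit false
set_option linter.unusedSectionVars false

namespace K7.H44.TG

open Finset Classical

lemma derB {B W : Type*} [Group B] [Fintype B] [MulAction B W] [Fintype W]
    (hW : Fintype.card W = 9) (h3 : ∀ w : W, cd (⊤ : Subgroup B) = 3 * c1 (⊤ : Subgroup B) w) :
    ∃ b : B, ∀ w : W, b • w ≠ w := by
  by_contra hall
  push Not at hall
  have : Fact (Nat.Prime 3) := ⟨Nat.prime_three⟩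
  let P : Sylow 3 B := default
  let S : Subgroup B := (P : Subgroup B)
  -- stabilisers in S
  have hst : ∀ w : W, 3 * c1 S w ≤ cd S := by
    intro w
    have hp : IsPGroup 3 (S ⊓ MulAction.stabilizer B w : Subgroup B) :=
      IsPGroup.to_le P.isPGroup' inf_le_left
    obtain ⟨n, hn⟩ := IsPGroup.iff_card.mp hp
    have h1 : c1 S w = 3 ^ n := by rw [c1_eq]; exact hn
    have h2 : c1 S w ∣ c1 (⊤ : Subgroup B) w := by
      rw [c1_eq, c1_eq]
      apply Subgroup.card_dvd_of_le
      exact inf_le_inf_right _ le_top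
    have h4 : 3 ^ (n + 1) ∣ Nat.card B := by
      have h5 : Nat.card B = cd (⊤ : Subgroup B) := by rw [cd_top, Nat.card_eq_fintype_card]
      rw [h5, h3 w, pow_succ, mul_comm]
      apply Nat.mul_dvd_mul_left
      rw [← h1]; exact h2
    have h6 := P.pow_dvd_card_of_pow_dvd_card h4
    have h7 : Nat.card P = cd S := (cd_eq S).symm
    rw [h7] at h6
    rw [h1]
    have h8 := Nat.le_of_dvd (cd_pos S) h6
    rw [pow_succ] at h8
    linarith
  have hsum := sum_fx (Ω := W) S
  have hup : (∑ w : W, ((c1 S w : ℕ) : ℤ)) * 3 ≤ 9 * (cd S : ℤ) := by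
    rw [Finset.sum_mul]
    calc ∑ w : W, ((c1 S w : ℕ) : ℤ) * 3 ≤ ∑ w : W, (cd S : ℤ) := by
          apply Finset.sum_le_sum
          intro w _
          have := hst w
          have h : ((3 * c1 S w : ℕ) : ℤ) ≤ (cd S : ℤ) := by exact_mod_cast this
          push_cast at h
          linarith
      _ = 9 * (cd S : ℤ) := by
          rw [Finset.sum_const, Finset.card_univ, hW, nsmul_eq_mul]; norm_num
  -- every element of S has at least three fixed points
  have hge : ∀ s ∈ univ.filter (fun g : B => g ∈ S), (3 : ℤ) ≤ ((fx W s : ℕ) : ℤ) := by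
    intro s hs
    simp only [mem_filter, mem_univ, true_and] at hs
    have hp : IsPGroup 3 (Subgroup.zpowers s) :=
      IsPGroup.to_le P.isPGroup' ((Subgroup.zpowers_le).mpr hs)
    have h1 := hp.card_modEq_card_fixedPoints W
    have h2 : Nat.card (MulAction.fixedPoints (Subgroup.zpowers s) W) = fx W s := by
      unfold fx
      rw [Nat.card_eq_fintype_card, Fintype.card_subtype]
      congr 1
      ext w
      simp only [mem_filter, mem_univ, true_and]
      constructor
      · intro h
        exact h ⟨s, Subgroup.mem_zpowers s⟩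
      · rintro h ⟨g, hg⟩
        have h3 : s ∈ MulAction.stabilizer B w := h
        have h4 : Subgroup.zpowers s ≤ MulAction.stabilizer B w := Subgroup.zpowers_le.mpr h3
        exact h4 hg
    rw [h2, Nat.card_eq_fintype_card, hW] at h1
    have h5 : 0 < fx W s := (fx_pos_iff s).mpr (hall s)
    have h6 : 3 ≤ fx W s := by
      have h7 : fx W s % 3 = 0 := by
        have := h1.symm
        unfold Nat.ModEq at this
        omega
      omega
    exact_mod_cast h6
  have hone : ((fx W (1 : B) : ℕ) : ℤ) = 9 := by
    have : fx W (1 : B) = 9 := by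
      unfold fx
      rw [Finset.filter_true_of_mem (fun w _ => one_smul _ _), Finset.card_univ, hW]
    rw [this]; rfl
  have h1mem : (1 : B) ∈ univ.filter (fun g : B => g ∈ S) := by simp [S.one_mem]
  have hlow : 3 * (cd S : ℤ) + 6 ≤ ∑ g ∈ univ.filter (fun g : B => g ∈ S), ((fx W g : ℕ) : ℤ) := by
    have h2 : ∑ g ∈ univ.filter (fun g : B => g ∈ S), (3 + (if g = 1 then 6 else 0) : ℤ) ≤
        ∑ g ∈ univ.filter (fun g : B => g ∈ S), ((fx W g : ℕ) : ℤ) := by
      apply Finset.sum_le_sum
      intro g hg
      by_cases h : g = 1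
      · rw [if_pos h, h, hone]; norm_num
      · rw [if_neg h]; have := hge g hg; linarith
    rw [Finset.sum_add_distrib, Finset.sum_const, Finset.sum_ite_eq', if_pos h1mem,
      nsmul_eq_mul] at h2
    unfold cd
    linarith
  rw [hsum] at hlow
  linarith

end K7.H44.TG
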