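import Pool.Agent.K7.H44.TG5
import Pool.Agent.R14.FX.Defs
import Pool.Agent.R14.FX.M

/-!
Groups of tree automorphisms and their finite quotients.
-/

set_option autoImplicit false
set_option linter.unusedSectionVars false

namespace K7.H44.TG

open Finset Classical R14.FX

/-- proportions are preserved by surjective homomorphisms -/
lemma push {A B : Type} [Group A] [Finite A] [Group B] [Finite B] (ψ : A →* B)
    (hψ : Function.Surjective ψ) (Q : B → Prop) :
    Nat.card {a // Q (ψ a)} * Nat.card B = Nat.card {b // Q b} * Nat.card A := by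
  have e1 : Nat.card A = Nat.card B * Nat.card ψ.ker := by
    rw [Nat.card_congr (R14.FX.M.spl ψ hψ), Nat.card_prod]
  have e2 : Nat.card {a // Q (ψ a)} = Nat.card {b // Q b} * Nat.card ψ.ker := by
    rw [← Nat.card_prod]
    refine Nat.card_congr ?_
    refine Equiv.trans ((R14.FX.M.spl ψ hψ).subtypeEquiv (p := fun a => Q (ψ a))
      (q := fun p => Q p.1) fun a => Iff.rfl) ?_
    exact Equiv.prodSubtypeFstEquivSubtypeProd
  rw [e2, e1]
  ring

lemma natcard_filter {A : Type} [Fintype A] (P : A → Prop) [DecidablePred P] :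
    Nat.card {a // P a} = (univ.filter P).card := by
  rw [Nat.card_eq_fintype_card, Fintype.card_subtype]

variable {d : ℕ}

/-- restriction to the levels up to `N` -/
def res (d N : ℕ) : (∀ n : ℕ, Equiv.Perm (Fin n → Fin d)) →*
    (∀ m : Fin (N + 1), Equiv.Perm (Fin (m : ℕ) → Fin d)) where
  toFun g m := g m
  map_one' := rfl
  map_mul' _ _ := rfl

/-- the group induced on the levels up to `N` -/
def Gam (G : Subgroup (∀ n : ℕ, Equiv.Perm (Fin n → Fin d))) (N : ℕ) :
    Subgroup (∀ m : Fin (N + 1), Equiv.Perm (Fin (m : ℕ) → Fin d)) := G.map (res d N)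

noncomputable instance (G : Subgroup (∀ n : ℕ, Equiv.Perm (Fin n → Fin d))) (N : ℕ) :
    Fintype (Gam G N) := Fintype.ofFinite _

/-- the action on level `m` -/
@[reducible] def act (G : Subgroup (∀ n : ℕ, Equiv.Perm (Fin n → Fin d))) (N m : ℕ)
    (h : m < N + 1) : MulAction (Gam G N) (Fin m → Fin d) where
  smul γ v := γ.1 ⟨m, h⟩ v
  one_smul _ := rfl
  mul_smul _ _ _ := rfl

lemma Gam_ex {G : Subgroup (∀ n : ℕ, Equiv.Perm (Fin n → Fin d))} {N : ℕ} (γ : Gam G N) :
    ∃ g ∈ G, ∀ m : Fin (N + 1), γ.1 m = g m := by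
  obtain ⟨γ, hγ⟩ := γ
  obtain ⟨g, hg, rfl⟩ := Subgroup.mem_map.mp hγ
  exact ⟨g, hg, fun m => rfl⟩

/-- the image of an element -/
def im {G : Subgroup (∀ n : ℕ, Equiv.Perm (Fin n → Fin d))} (N : ℕ)
    {g : ∀ n : ℕ, Equiv.Perm (Fin n → Fin d)} (hg : g ∈ G) : Gam G N :=
  ⟨res d N g, Subgroup.mem_map.mpr ⟨g, hg, rfl⟩⟩

/-- proportions on level `m` can be computed in `Gam G N` -/
lemma fixProp_eq (G : Subgroup (∀ n : ℕ, Equiv.Perm (Fin n → Fin d))) (N m : ℕ) (h : m < N + 1) :
    fixProp (lev G m) * (Nat.card (Gam G N) : ℝ) =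
      (Nat.card {γ : Gam G N // ∃ v, γ.1 ⟨m, h⟩ v = v} : ℝ) := by
  let ψ : Gam G N →* lev G m := 
    { toFun := fun γ => ⟨γ.1 ⟨m, h⟩, by
        obtain ⟨g, hg, hh⟩ := Gam_ex γ
        rw [hh]
        exact Subgroup.mem_map.mpr ⟨g, hg, rfl⟩⟩
      map_one' := rfl
      map_mul' := fun _ _ => rfl }
  have hψ : Function.Surjective ψ := by
    rintro ⟨b, hb⟩
    obtain ⟨g, hg, rfl⟩ := Subgroup.mem_map.mp hb
    exact ⟨im N hg, rfl⟩
  have hp := push ψ hψ (fun b => ∃ v, (b : Equiv.Perm (Fin m → Fin d)) v = v)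
  have hB : (0 : ℝ) < Nat.card (lev G m) := by
    have : 0 < Nat.card (lev G m) := Nat.card_pos
    exact_mod_cast this
  have e : {γ : Gam G N // ∃ v, γ.1 ⟨m, h⟩ v = v} =
      {a : Gam G N // ∃ v, (ψ a : Equiv.Perm (Fin m → Fin d)) v = v} := rfl
  rw [e]
  unfold fixProp
  rw [div_mul_eq_mul_div, div_eq_iff hB.ne']
  have hp' := congrArg (fun n : ℕ => (n : ℝ)) hp.symm
  push_cast at hp'
  exact hp'

/-- truncation of words -/
def tr (d n m : ℕ) (h : m ≤ n) (v : Fin n → Fin d) : Fin m → Fin d := fun i => v (Fin.castLE h i)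

lemma tr_equiv {g : ∀ n : ℕ, Equiv.Perm (Fin n → Fin d)} (hg : g ∈ AutT d) (m n : ℕ) (h : m ≤ n)
    (v : Fin n → Fin d) : tr d n m h (g n v) = g m (tr d n m h v) := by
  induction n, h using Nat.le_induction with
  | base => rfl
  | succ n hn ih =>
    have h1 := hg n v
    have h2 : tr d (n + 1) m (Nat.le_succ_of_le hn) (g (n + 1) v) =
        tr d n m hn (fun i : Fin n => g (n + 1) v i.castSucc) := rfl
    rw [h2, h1, ih]
    rfl

/-- number of words with a given truncation -/
lemma tr_count (m n : ℕ) (h : m ≤ n) (x : Fin m → Fin d) :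
    (univ.filter (fun v : Fin n → Fin d => tr d n m h v = x)).card = d ^ (n - m) := by
  induction n, h using Nat.le_induction with
  | base =>
    have : (univ.filter (fun v : Fin m → Fin d => tr d m m le_rfl v = x)) = {x} := by
      ext v
      simp only [mem_filter, mem_univ, true_and, mem_singleton]
      rfl
    rw [this]; simp
  | succ n hn ih =>
    have e1 : (univ.filter (fun v : Fin (n + 1) → Fin d => tr d (n + 1) m (Nat.le_succ_of_le hn) v = x)).card =
        ((univ.filter (fun v : Fin n → Fin d => tr d n m hn v = x)) ×ˢ (univ : Finset (Fin d))).card := by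
      symm
      apply Finset.card_bij (fun p _ => (Fin.snoc p.1 p.2 : Fin (n + 1) → Fin d))
      · rintro ⟨v, a⟩ hv
        simp only [mem_product, mem_filter, mem_univ, true_and, and_true] at hv ⊢
        rw [← hv]
        funext i
        show (Fin.snoc v a : Fin (n + 1) → Fin d) (Fin.castLE _ i) = v (Fin.castLE _ i)
        have : Fin.castLE (Nat.le_succ_of_le hn) i = (Fin.castLE hn i).castSucc := rfl
        rw [this, Fin.snoc_castSucc (α := fun _ => Fin d)]
      · rintro ⟨v, a⟩ _ ⟨w, b⟩ _ hab
        simp only at hab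
        have h1 := congrFun hab (Fin.last n)
        rw [Fin.snoc_last (α := fun _ => Fin d), Fin.snoc_last (α := fun _ => Fin d)] at h1
        have h2 : v = w := by
          funext i
          have := congrFun hab i.castSucc
          rwa [Fin.snoc_castSucc (α := fun _ => Fin d), Fin.snoc_castSucc (α := fun _ => Fin d)] at this
        rw [h1, h2]
      · intro v hv
        simp only [mem_filter, mem_univ, true_and] at hv
        refine ⟨(fun i => v i.castSucc, v (Fin.last n)), ?_, ?_⟩
        · simp only [mem_product, mem_filter, mem_univ, true_and, and_true]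
          rw [← hv]
          rfl
        · funext i
          refine Fin.lastCases ?_ (fun i => ?_) i
          · exact Fin.snoc_last (α := fun _ => Fin d) _ _
          · exact Fin.snoc_castSucc (α := fun _ => Fin d) _ _ _
    rw [e1, Finset.card_product, ih, Finset.card_univ, Fintype.card_fin, ← pow_succ]
    congr 1
    omega

lemma tr_natcard (m n : ℕ) (h : m ≤ n) (x : Fin m → Fin d) :
    Nat.card {v : Fin n → Fin d // tr d n m h v = x} = d ^ (n - m) := by
  rw [← tr_count m n h x, Nat.card_eq_fintype_card, Fintype.card_subtype]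

end K7.H44.TG
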