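import Pool.Agent.K7.H44.TG5

/-!
The case `d = 3`: many fixed-point-free elements in the kernel of the first level.
-/

set_option autoImplicit false
set_option linter.unusedSectionVars false

namespace K7.H44.TG

open Finset Classical

variable {A X W : Type} [Group A] [Fintype A] [MulAction A X] [MulAction A W]
  [Fintype X] [Fintype W]

lemma countB (r : W → X) (hr : ∀ (g : A) w, r (g • w) = g • r w)
    (hd : Fintype.card X = 3) (hS : Sharp A X) (hW : Tr (⊤ : Subgroup A) W)
    (hm : ∀ x, (univ.filter (fun w => r w = x)).card = 3) :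
    Fintype.card A ≤ 1296 *
      (univ.filter (fun g : A => g ∈ Bk A X ∧ ∀ w : W, g • w ≠ w)).card := by
  have hB : ∀ w w' : W, r w = r w' → ∃ b ∈ Bk A X, b • w = w' := fun w w' h =>
    fiber_tr r hr (by omega) hS hW 3 hm (by rw [hd]; norm_num) w w' h
  have hsurj : ∀ x, ∃ w, r w = x := by
    intro x
    have h1 : 0 < (univ.filter (fun w => r w = x)).card := by rw [hm]; omega
    obtain ⟨z, hz⟩ := Finset.card_pos.mp h1
    exact ⟨z, by simpa using hz⟩
  have hW9 : Fintype.card W = 9 := by
    rw [← Finset.card_univ, Finset.card_eq_sum_card_fiberwise (f := r) (t := univ)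
      (by intro z _; simp)]
    rw [Finset.sum_const_nat (m := 3) (by intro x _; exact hm x), Finset.card_univ, hd]
  have h3 : ∀ w : W, cd (⊤ : Subgroup (Bk A X)) = 3 * c1 (⊤ : Subgroup (Bk A X)) w := by
    intro w
    rw [← hm (r w)]
    apply os
    · rintro ⟨s, hs⟩ _
      rw [mem_Bk] at hs
      simp only [mem_filter, mem_univ, true_and]
      show r (s • w) = r w
      rw [hr, hs]
    · intro w' hw'
      simp only [mem_filter, mem_univ, true_and] at hw'
      obtain ⟨b, hb, hbw⟩ := hB w w' hw'.symm
      exact ⟨⟨b, hb⟩, trivial, hbw⟩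
  obtain ⟨⟨b, hb⟩, hbW⟩ := derB hW9 h3
  -- the kernel on W
  have hle : Bk A W ≤ Bk A X := by
    intro g hg
    rw [mem_Bk] at hg ⊢
    intro x
    obtain ⟨w, rfl⟩ := hsurj x
    rw [← hr, hg]
  have h1 : cd (Bk A W) ≤ (univ.filter (fun g : A => g ∈ Bk A X ∧ ∀ w : W, g • w ≠ w)).card := by
    unfold cd
    apply Finset.card_le_card_of_injOn (fun n => b * n)
    · intro n hn
      simp only [coe_filter, mem_univ, true_and, Set.mem_ofPred_eq] at hn ⊢
      refine ⟨(Bk A X).mul_mem hb (hle hn), ?_⟩
      intro w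
      rw [mem_Bk] at hn
      rw [mul_smul, hn]
      exact hbW w
    · intro a _ b _ hab
      exact mul_left_cancel hab
  -- the image of the kernel
  let φ : Bk A X →* (∀ x : X, Equiv.Perm {w : W // r w = x}) :=
    { toFun := fun g x =>
        { toFun := fun w => ⟨g.1 • w.1, by rw [hr, w.2]; exact mem_Bk.mp g.2 x⟩
          invFun := fun w => ⟨(g⁻¹).1 • w.1, by rw [hr, w.2]; exact mem_Bk.mp (g⁻¹).2 x⟩
          left_inv := fun w => Subtype.ext (inv_smul_smul g.1 w.1)
          right_inv := fun w => Subtype.ext (smul_inv_smul g.1 w.1) }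
      map_one' := by
        funext x
        ext w
        exact one_smul A w.1
      map_mul' := by
        intro g h
        funext x
        ext w
        exact mul_smul g.1 h.1 w.1 }
  have hker : Nat.card φ.ker ≤ Nat.card (Bk A W) := by
    apply Nat.card_le_card_of_injective (fun g : φ.ker => (⟨g.1.1, by
      rw [mem_Bk]
      intro w
      have h2 := congrFun (MonoidHom.mem_ker.mp g.2) (r w)
      have h3 := Equiv.congr_fun h2 ⟨w, rfl⟩
      exact congrArg Subtype.val h3⟩ : Bk A W))
    intro a b hab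
    exact Subtype.ext (Subtype.ext (congrArg (fun z : Bk A W => z.1) hab))
  have hperm : Nat.card (∀ x : X, Equiv.Perm {w : W // r w = x}) = 216 := by
    rw [Nat.card_pi, Finset.prod_congr rfl (g := fun _ => 6)]
    · rw [Finset.prod_const, Finset.card_univ, hd]; norm_num
    · intro x _
      rw [Nat.card_perm]
      have : Nat.card {w : W // r w = x} = 3 := by
        rw [Nat.card_eq_fintype_card, Fintype.card_subtype, hm]
      rw [this]; rfl
  have hcard : Nat.card (Bk A X) ≤ 216 * Nat.card (Bk A W) := by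
    have e1 := Subgroup.card_mul_index φ.ker
    rw [Subgroup.index_ker] at e1
    have e2 : Nat.card φ.range ≤ 216 := by
      rw [← hperm]
      exact Subgroup.card_le_card_group _
    rw [← e1, mul_comm]
    exact Nat.mul_le_mul e2 hker
  have e5 := sharp_card (A := A) (X := X) (by omega) hS
  rw [hd, cd_eq] at e5
  rw [cd_eq] at h1
  rw [e5]
  calc 3 * (3 - 1) * Nat.card (Bk A X) ≤ 6 * (216 * Nat.card (Bk A W)) := by
        apply Nat.mul_le_mul _ hcard
        norm_num
    _ ≤ 1296 * (univ.filter (fun g : A => g ∈ Bk A X ∧ ∀ w : W, g • w ≠ w)).card := by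
        rw [← mul_assoc]
        exact Nat.mul_le_mul_left _ h1

lemma countB' (r : W → X) (hr : ∀ (g : A) w, r (g • w) = g • r w)
    (hd : Fintype.card X = 3) (hS : Sharp A X) (hW : Tr (⊤ : Subgroup A) W)
    (hm : ∀ x, Nat.card {w // r w = x} = 3) :
    ∃ E : Finset A, (∀ g ∈ E, g ∈ Bk A X ∧ ∀ w : W, g • w ≠ w) ∧
      Fintype.card A ≤ 1296 * E.card :=
  ⟨_, fun g hg => by simpa using hg, countB r hr hd hS hW
    (fun x => by rw [← hm x, Nat.card_eq_fintype_card, Fintype.card_subtype])⟩

end K7.H44.TG
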