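import Pool.Agent.K7.H44.TG6
import Pool.Agent.K7.H44.TG7

/-!
The dichotomy for the fixed-point proportion of a level-transitive group.
-/

set_option autoImplicit false
set_option linter.unusedSectionVars false

namespace K7.H44.TG

open Finset Classical R14.FX Filter Topology

variable {d : ℕ}

/-- sharp 2-transitivity of `G` on level one -/
def SG (G : Subgroup (∀ n : ℕ, Equiv.Perm (Fin n → Fin d))) : Prop :=
  (∀ x y x' y' : Fin 1 → Fin d, x ≠ y → x' ≠ y' → ∃ g ∈ G, g 1 x = x' ∧ g 1 y = y') ∧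
  (∀ g ∈ G, ∀ x y : Fin 1 → Fin d, x ≠ y → g 1 x = x → g 1 y = y → ∀ z, g 1 z = z)

/-- `g` has a fixed point on level one but is not trivial there -/
def AG (g : ∀ n : ℕ, Equiv.Perm (Fin n → Fin d)) : Prop :=
  (∃ x, g 1 x = x) ∧ ∃ x, g 1 x ≠ x

section

variable (G : Subgroup (∀ n : ℕ, Equiv.Perm (Fin n → Fin d)))

lemma card_lev (n : ℕ) : Fintype.card (Fin n → Fin d) = d ^ n := by simp

lemma sharp_iff (N : ℕ) (h : 1 < N + 1) :
    @Sharp (Gam G N) (Fin 1 → Fin d) _ (act G N 1 h) ↔ SG G := by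
  let _ := act G N 1 h
  constructor
  · rintro ⟨h1, h2⟩
    refine ⟨?_, ?_⟩
    · intro x y x' y' hxy hxy'
      obtain ⟨γ, _, e1, e2⟩ := h1 x y x' y' hxy hxy'
      obtain ⟨g, hg, hh⟩ := Gam_ex γ
      refine ⟨g, hg, ?_, ?_⟩
      · rw [← e1]; show g 1 x = γ.1 ⟨1, h⟩ x; rw [hh]
      · rw [← e2]; show g 1 y = γ.1 ⟨1, h⟩ y; rw [hh]
    · intro g hg x y hxy hx hy z
      have := h2 (im N hg) x y hxy hx hy
      rw [mem_Bk] at this
      exact this z
  · rintro ⟨h1, h2⟩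
    refine ⟨?_, ?_⟩
    · intro x y x' y' hxy hxy'
      obtain ⟨g, hg, e1, e2⟩ := h1 x y x' y' hxy hxy'
      exact ⟨im N hg, trivial, e1, e2⟩
    · intro γ x y hxy hx hy
      obtain ⟨g, hg, hh⟩ := Gam_ex γ
      rw [mem_Bk]
      intro z
      show γ.1 ⟨1, h⟩ z = z
      rw [hh]
      have hx' : γ.1 ⟨1, h⟩ x = x := hx
      have hy' : γ.1 ⟨1, h⟩ y = y := hy
      rw [hh] at hx' hy'
      exact h2 g hg x y hxy hx' hy' z

lemma tr_lev (hT : LevTrans G) (N m : ℕ) (h : m < N + 1) :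
    @Tr (Gam G N) _ ⊤ (Fin m → Fin d) (act G N m h) := by
  let _ := act G N m h
  intro x y
  obtain ⟨g, hg, e⟩ := hT m x y
  exact ⟨im N hg, trivial, e⟩

lemma Af_iff (N : ℕ) (h : 1 < N + 1) (γ : Gam G N)
    (g : ∀ n : ℕ, Equiv.Perm (Fin n → Fin d)) (hh : ∀ m : Fin (N + 1), γ.1 m = g m) :
    @Af (Gam G N) (Fin 1 → Fin d) _ (act G N 1 h) γ ↔ AG g := by
  let _ := act G N 1 h
  unfold Af AG
  rw [mem_Bk]
  have e : ∀ x : Fin 1 → Fin d, γ • x = g 1 x := fun x => by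
    show γ.1 ⟨1, h⟩ x = g 1 x
    rw [hh]
  constructor
  · rintro ⟨x, hx, hB⟩
    push Not at hB
    obtain ⟨y, hy⟩ := hB
    exact ⟨⟨x, by rw [← e]; exact hx⟩, ⟨y, by rw [← e]; exact hy⟩⟩
  · rintro ⟨⟨x, hx⟩, ⟨y, hy⟩⟩
    refine ⟨x, by rw [e]; exact hx, ?_⟩
    intro hB
    apply hy
    rw [← e]; exact hB y

variable {G}

lemma card_real_pos (N : ℕ) : (0 : ℝ) < Nat.card (Gam G N) := by
  have : 0 < Nat.card (Gam G N) := Nat.card_pos
  exact_mod_cast this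

/-- the case in which the first level is not sharply 2-transitive -/
lemma case_ns (hd : 3 ≤ d) (hT : LevTrans G) (hns : ¬ SG G) :
    fixProp (lev G 1) ≤ 1 - ((d : ℝ) - 1) / ((d : ℝ) * ((d : ℝ) - 2)) := by
  let _ := act G 1 1 (by norm_num)
  have hcX : Fintype.card (Fin 1 → Fin d) = d := by simp
  have h1 := level1 (A := Gam G 1) (X := Fin 1 → Fin d) (by rw [hcX]; exact hd)
    (tr_lev G hT 1 1 (by norm_num))
  rw [sharp_iff G 1 (by norm_num)] at h1
  rcases h1 with h1 | h1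
  · exact absurd h1 hns
  rw [hcX] at h1
  have h2 := fixProp_eq G 1 1 (by norm_num)
  have hpos := card_real_pos (G := G) 1
  -- complement
  have h3 : Nat.card {γ : Gam G 1 // ∃ v, γ.1 ⟨1, by norm_num⟩ v = v} +
      (univ.filter (fun g : Gam G 1 => ∀ x : Fin 1 → Fin d, g • x ≠ x)).card =
      Nat.card (Gam G 1) := by
    rw [natcard_filter, Nat.card_eq_fintype_card]
    have := Finset.card_filter_add_card_filter_not (s := (univ : Finset (Gam G 1)))
      (fun γ : Gam G 1 => ∃ v : Fin 1 → Fin d, γ • v = v)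
    rw [Finset.card_univ] at this
    rw [← this]
    congr 2
    ext g
    simp only [mem_filter, mem_univ, true_and]
    push Not
    rfl
  have h3R : (Nat.card {γ : Gam G 1 // ∃ v, γ.1 ⟨1, by norm_num⟩ v = v} : ℝ) +
      ((univ.filter (fun g : Gam G 1 => ∀ x : Fin 1 → Fin d, g • x ≠ x)).card : ℝ) =
      Nat.card (Gam G 1) := by exact_mod_cast h3
  have h1R : ((d : ℝ) - 1) * (Nat.card (Gam G 1) : ℝ) ≤ (d : ℝ) * ((d : ℝ) - 2) *
      ((univ.filter (fun g : Gam G 1 => ∀ x : Fin 1 → Fin d, g • x ≠ x)).card : ℝ) := by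
    have := h1
    rw [← Nat.card_eq_fintype_card] at this
    have h' : (((d - 1) * Nat.card (Gam G 1) : ℕ) : ℝ) ≤ ((d * (d - 2) *
      (univ.filter (fun g : Gam G 1 => ∀ x : Fin 1 → Fin d, g • x ≠ x)).card : ℕ) : ℝ) := by
      exact_mod_cast this
    push_cast [Nat.cast_sub (show 1 ≤ d by omega), Nat.cast_sub (show 2 ≤ d by omega)] at h'
    exact h'
  have hdR : (3 : ℝ) ≤ d := by exact_mod_cast hd
  rw [← h2] at h3R
  set f := fixProp (lev G 1)
  set c := (Nat.card (Gam G 1) : ℝ)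
  set D := ((univ.filter (fun g : Gam G 1 => ∀ x : Fin 1 → Fin d, g • x ≠ x)).card : ℝ)
  have h4 : D = (1 - f) * c := by linarith
  rw [h4] at h1R
  have h5 : (d : ℝ) - 1 ≤ (d : ℝ) * ((d : ℝ) - 2) * (1 - f) := by
    have : ((d : ℝ) - 1) * c ≤ ((d : ℝ) * ((d : ℝ) - 2) * (1 - f)) * c := by linarith
    exact le_of_mul_le_mul_right this hpos
  have h6 : 0 < (d : ℝ) * ((d : ℝ) - 2) := by nlinarith
  have h7 : ((d : ℝ) - 1) / ((d : ℝ) * ((d : ℝ) - 2)) ≤ 1 - f := by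
    rw [div_le_iff₀ h6]; linarith
  linarith

end

end K7.H44.TG
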