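import Pool.Agent.K7.H44.TG8

/-!
The dichotomy for the fixed-point proportion of a level-transitive group, continued.
-/

set_option autoImplicit false
set_option linter.unusedSectionVars false

namespace K7.H44.TG

open Finset Classical R14.FX Filter Topology

variable {d : ℕ} {G : Subgroup (∀ n : ℕ, Equiv.Perm (Fin n → Fin d))}

/-- exact value when no element of `A` is lost -/
lemma exact_val (hd : 3 ≤ d) (hG : G ≤ AutT d) (hSG : SG G) (n : ℕ) (hn : 1 ≤ n)
    (hall : ∀ g ∈ G, AG g → ∃ v : Fin n → Fin d, g n v = v) :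
    fixProp (lev G n) = ((d : ℝ) - 2) / ((d : ℝ) - 1) +
      (Nat.card {γ : Gam G n // (∀ x : Fin 1 → Fin d, γ.1 ⟨1, by omega⟩ x = x) ∧
        ∃ v : Fin n → Fin d, γ.1 ⟨n, by omega⟩ v = v} : ℝ) / Nat.card (Gam G n) := by
  let _ := act G n 1 (by omega)
  have hcX : Fintype.card (Fin 1 → Fin d) = d := by simp
  have hS : Sharp (Gam G n) (Fin 1 → Fin d) := (sharp_iff G n (by omega)).mpr hSG
  have hA := sharp_A (by rw [hcX]; exact hd) hS
  have hC := sharp_card (by rw [hcX]; exact hd) hS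
  rw [hcX] at hA hC
  have hpos := card_real_pos (G := G) n
  have h2 := fixProp_eq G n n (by omega)
  -- split
  have h3 : Nat.card {γ : Gam G n // ∃ v : Fin n → Fin d, γ.1 ⟨n, by omega⟩ v = v} =
      (univ.filter (fun g : Gam G n => Af (Gam G n) (Fin 1 → Fin d) g)).card +
      Nat.card {γ : Gam G n // (∀ x : Fin 1 → Fin d, γ.1 ⟨1, by omega⟩ x = x) ∧
        ∃ v : Fin n → Fin d, γ.1 ⟨n, by omega⟩ v = v} := by
    rw [natcard_filter, natcard_filter, ← Finset.card_union_of_disjoint]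
    · congr 1
      ext γ
      simp only [mem_filter, mem_univ, true_and, mem_union]
      obtain ⟨g, hg, hh⟩ := Gam_ex γ
      have hAf := Af_iff G n (by omega) γ g hh
      constructor
      · rintro ⟨v, hv⟩
        rw [hh] at hv
        have h1 : g 1 (tr d n 1 hn v) = tr d n 1 hn v := by
          rw [← tr_equiv (hG hg) 1 n hn, hv]
        by_cases hB : ∀ x : Fin 1 → Fin d, γ.1 ⟨1, by omega⟩ x = x
        · right
          exact ⟨hB, v, by rw [hh]; exact hv⟩
        · left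
          rw [hAf]
          push Not at hB
          obtain ⟨x, hx⟩ := hB
          rw [hh] at hx
          exact ⟨⟨_, h1⟩, ⟨x, hx⟩⟩
      · rintro (h | h)
        · rw [hAf] at h
          obtain ⟨v, hv⟩ := hall g hg h
          exact ⟨v, by rw [hh]; exact hv⟩
        · exact h.2
    · rw [Finset.disjoint_left]
      intro γ h1 h2
      simp only [mem_filter, mem_univ, true_and] at h1 h2
      obtain ⟨x, hx, hB⟩ := h1
      rw [mem_Bk] at hB
      exact hB h2.1
  have h3R := congrArg (fun n : ℕ => (n : ℝ)) h3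
  push_cast at h3R
  rw [← h2, hA] at h3R
  have hdR : (3 : ℝ) ≤ d := by exact_mod_cast hd
  have hCR : (Nat.card (Gam G n) : ℝ) = (d : ℝ) * ((d : ℝ) - 1) *
      (cd (Bk (Gam G n) (Fin 1 → Fin d)) : ℝ) := by
    rw [Nat.card_eq_fintype_card, hC]
    push_cast [Nat.cast_sub (show 1 ≤ d by omega)]
    ring
  have hAR : (((d * (d - 2) * cd (Bk (Gam G n) (Fin 1 → Fin d)) : ℕ)) : ℝ) =
      ((d : ℝ) - 2) / ((d : ℝ) - 1) * (Nat.card (Gam G n) : ℝ) := by
    rw [hCR]
    push_cast [Nat.cast_sub (show 2 ≤ d by omega)]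
    have : (d : ℝ) - 1 ≠ 0 := by linarith
    field_simp
  rw [hAR] at h3R
  have h4 : fixProp (lev G n) = (((d : ℝ) - 2) / ((d : ℝ) - 1) * (Nat.card (Gam G n) : ℝ) +
      (Nat.card {γ : Gam G n // (∀ x : Fin 1 → Fin d, γ.1 ⟨1, by omega⟩ x = x) ∧
        ∃ v : Fin n → Fin d, γ.1 ⟨n, by omega⟩ v = v} : ℝ)) / (Nat.card (Gam G n) : ℝ) := by
    rw [eq_div_iff hpos.ne']; exact h3R
  rw [h4, add_div, mul_div_assoc, div_self hpos.ne', mul_one]

/-- the width of the gap -/
noncomputable def gap (d : ℕ) : ℝ :=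
  if d = 3 then 1 / 1296 else 1 / ((d : ℝ) * ((d : ℝ) - 1) * ((d : ℝ) - 2))

/-- the loss at a level where some element of `A` has no fixed vertex for the first time -/
lemma case_loss (hd : 3 ≤ d) (hG : G ≤ AutT d) (hT : LevTrans G) (hSG : SG G) (n : ℕ) (hn : 1 ≤ n)
    (hall : ∀ g ∈ G, AG g → ∃ v : Fin n → Fin d, g n v = v)
    (hno : ¬ ∀ g ∈ G, AG g → ∃ v : Fin (n + 1) → Fin d, g (n + 1) v = v) :
    fixProp (lev G (n + 1)) ≤ ((d : ℝ) - 2) / ((d : ℝ) - 1) - gap d := by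
  let iX := act G (n + 1) 1 (by omega)
  let iY := act G (n + 1) n (by omega)
  let iZ := act G (n + 1) (n + 1) (by omega)
  have hcX : Fintype.card (Fin 1 → Fin d) = d := by simp
  have hS : Sharp (Gam G (n + 1)) (Fin 1 → Fin d) := (sharp_iff G (n + 1) (by omega)).mpr hSG
  have hA := sharp_A (by rw [hcX]; exact hd) hS
  have hC := sharp_card (by rw [hcX]; exact hd) hS
  rw [hcX] at hA hC
  have hpos := card_real_pos (G := G) (n + 1)
  have h2 := fixProp_eq G (n + 1) (n + 1) (by omega)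
  have htrg : ∀ (m m' : ℕ) (h : m ≤ m') (hm' : m' < n + 1 + 1) (γ : Gam G (n + 1))
      (v : Fin m' → Fin d), tr d m' m h (γ.1 ⟨m', hm'⟩ v) =
      γ.1 ⟨m, by omega⟩ (tr d m' m h v) := by
    intro m m' h hm' γ v
    obtain ⟨g, hg, hh⟩ := Gam_ex γ
    rw [hh, hh]
    exact tr_equiv (hG hg) m m' h v
  -- apply the loss theorem
  have hloss := loss' (A := Gam G (n + 1)) (X := Fin 1 → Fin d) (Y := Fin n → Fin d)
    (Z := Fin (n + 1) → Fin d) (tr d n 1 hn) (tr d (n + 1) n (Nat.le_succ n))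
    (fun γ y => htrg 1 n hn (by omega) γ y)
    (fun γ z => htrg n (n + 1) (Nat.le_succ n) (by omega) γ z)
    (by rw [hcX]; exact hd) hS (tr_lev G hT (n + 1) (n + 1) (by omega)) (d ^ (n - 1))
    (by apply Nat.pow_pos; omega) (fun x => tr_natcard 1 n hn x)
    (fun y => by rw [hcX, tr_natcard, Nat.add_sub_cancel_left, pow_one])
    (by
      rw [hcX]
      have h1 : Nat.Coprime d (d - 1) := by
        have := Nat.coprime_self_sub_right (show 1 ≤ d by omega)
        exact this.mpr (Nat.coprime_one_right d)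
      exact Nat.Coprime.mul_left (Nat.Coprime.pow_left _ h1) h1)
    (by
      intro γ hγ
      obtain ⟨g, hg, hh⟩ := Gam_ex γ
      rw [Af_iff G (n + 1) (by omega) γ g hh] at hγ
      obtain ⟨v, hv⟩ := hall g hg hγ
      exact ⟨v, by show γ.1 ⟨n, _⟩ v = v; rw [hh]; exact hv⟩)
  rcases hloss with hloss | ⟨D, hD, hloss⟩
  · exfalso
    apply hno
    intro g hg hAG
    have h1 : Af (Gam G (n + 1)) (Fin 1 → Fin d) (im (n + 1) hg) :=
      (Af_iff G (n + 1) (by omega) (im (n + 1) hg) g (fun m => rfl)).mpr hAG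
    obtain ⟨z, hz⟩ := hloss _ h1
    exact ⟨z, hz⟩
  rw [hcX] at hloss
  set c := cd (Bk (Gam G (n + 1)) (Fin 1 → Fin d)) with hc
  -- fixed-point-free elements of the kernel, for `d = 3`
  obtain ⟨E, hE, hE3⟩ : ∃ E : Finset (Gam G (n + 1)),
      (∀ g ∈ E, g ∈ Bk (Gam G (n + 1)) (Fin 1 → Fin d) ∧
        ∀ z : Fin (n + 1) → Fin d, g.1 ⟨n + 1, by omega⟩ z ≠ z) ∧
      (d = 3 → Fintype.card (Gam G (n + 1)) ≤ 1296 * E.card) := by
    by_cases h3 : d = 3
    · let iW := act G (n + 1) 2 (by omega)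
      obtain ⟨E, hE, hE3⟩ := countB' (A := Gam G (n + 1)) (X := Fin 1 → Fin d)
        (W := Fin 2 → Fin d)
        (tr d 2 1 (by omega)) (fun γ w => htrg 1 2 (by omega) (by omega) γ w)
        (by rw [hcX]; exact h3) hS (tr_lev G hT (n + 1) 2 (by omega))
        (fun x => by
          rw [tr_natcard]
          have e : d ^ (2 - 1) = 3 := by rw [h3]; norm_num
          exact e)
      refine ⟨E, fun g hg => ⟨(hE g hg).1, ?_⟩, fun _ => hE3⟩
      intro z hz
      have h1 := htrg 2 (n + 1) (by omega) (by omega) g z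
      rw [hz] at h1
      exact (hE g hg).2 _ h1.symm
    · exact ⟨∅, by simp, fun h => absurd h h3⟩
  obtain ⟨F, hF⟩ : ∃ F : Finset (Gam G (n + 1)), F = univ.filter (fun γ : Gam G (n + 1) =>
    ∃ v : Fin (n + 1) → Fin d, γ.1 ⟨n + 1, by omega⟩ v = v) := ⟨_, rfl⟩
  have hFc : Nat.card {γ : Gam G (n + 1) // ∃ v : Fin (n + 1) → Fin d, γ.1 ⟨n + 1, by omega⟩ v = v} = F.card := by
    rw [hF]; exact natcard_filter _
  -- counting
  have hcount : F.card + D.card + E.card ≤ d * (d - 2) * c + c := by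
    rw [← hA]
    have h1 : F ∪ D ∪ E ⊆ (univ.filter (fun g : Gam G (n + 1) => Af (Gam G (n + 1)) (Fin 1 → Fin d) g)) ∪
        (univ.filter (fun g : Gam G (n + 1) => g ∈ Bk (Gam G (n + 1)) (Fin 1 → Fin d))) := by
      intro γ hγ
      rw [mem_union, mem_union] at hγ
      rw [mem_union]
      rcases hγ with (hγ | hγ) | hγ
      · rw [hF, mem_filter] at hγ
        obtain ⟨_, v, hv⟩ := hγ
        have h1 := htrg 1 (n + 1) (by omega) (by omega) γ v
        rw [hv] at h1
        by_cases hB : γ ∈ Bk (Gam G (n + 1)) (Fin 1 → Fin d)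
        · right; simp [hB]
        · left
          rw [mem_filter]
          exact ⟨mem_univ _, ⟨_, h1.symm, hB⟩⟩
      · left
        rw [mem_filter]
        exact ⟨mem_univ _, (hD γ hγ).1⟩
      · right
        rw [mem_filter]
        exact ⟨mem_univ _, (hE γ hγ).1⟩
    have h3 : Disjoint F D := by
      rw [Finset.disjoint_left]
      intro γ h1 h2
      rw [hF, mem_filter] at h1
      obtain ⟨_, v, hv⟩ := h1
      exact (hD γ h2).2 v hv
    have h4 : Disjoint (F ∪ D) E := by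
      rw [Finset.disjoint_left]
      intro γ h1 h2
      rw [mem_union] at h1
      rcases h1 with h1 | h1
      · rw [hF, mem_filter] at h1
        obtain ⟨_, v, hv⟩ := h1
        exact (hE γ h2).2 v hv
      · obtain ⟨⟨_, _, hB⟩, _⟩ := hD γ h1
        exact hB (hE γ h2).1
    have h5 := Finset.card_le_card h1
    rw [Finset.card_union_of_disjoint h4, Finset.card_union_of_disjoint h3] at h5
    refine h5.trans ((Finset.card_union_le _ _).trans ?_)
    rw [hc]
    unfold cd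
    exact le_rfl
  have hdR : (3 : ℝ) ≤ d := by exact_mod_cast hd
  have hCR : (Nat.card (Gam G (n + 1)) : ℝ) = (d : ℝ) * ((d : ℝ) - 1) * (c : ℝ) := by
    rw [Nat.card_eq_fintype_card, hC]
    push_cast [Nat.cast_sub (show 1 ≤ d by omega)]
    ring
  have hlossR : (Nat.card (Gam G (n + 1)) : ℝ) ≤ 2 * (d : ℝ) * (D.card : ℝ) := by
    rw [Nat.card_eq_fintype_card]
    exact_mod_cast hloss
  have hcountR : (F.card : ℝ) + (D.card : ℝ) + (E.card : ℝ) ≤
      (d : ℝ) * ((d : ℝ) - 2) * (c : ℝ) + (c : ℝ) := by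
    have h' : (((F.card + D.card + E.card : ℕ)) : ℝ) ≤ ((d * (d - 2) * c + c : ℕ) : ℝ) := by
      exact_mod_cast hcount
    push_cast [Nat.cast_sub (show 2 ≤ d by omega)] at h'
    exact h'
  rw [hFc] at h2
  set f := fixProp (lev G (n + 1)) with hf
  set M := (Nat.card (Gam G (n + 1)) : ℝ) with hM
  have hcpos : (0 : ℝ) < (c : ℝ) := by
    have := cd_pos (Bk (Gam G (n + 1)) (Fin 1 → Fin d))
    exact_mod_cast this
  unfold gap
  by_cases h3 : d = 3
  · rw [if_pos h3]
    have hE2 := hE3 h3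
    have hE2R : M ≤ 1296 * (E.card : ℝ) := by
      rw [hM, Nat.card_eq_fintype_card]
      exact_mod_cast hE2
    have hd3 : (d : ℝ) = 3 := by rw [h3]; norm_num
    rw [hd3] at hCR hlossR hcountR ⊢
    rw [hCR] at hlossR hE2R h2
    have h7 : f * (3 * (3 - 1) * (c : ℝ)) ≤ (1 / 2 - 1 / 1296) * (3 * (3 - 1) * (c : ℝ)) := by
      rw [h2]; nlinarith
    have h8 : f ≤ 1 / 2 - 1 / 1296 := le_of_mul_le_mul_right h7 (by positivity)
    linarith
  · rw [if_neg h3]
    have hd4 : 4 ≤ d := by omega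
    have hd4R : (4 : ℝ) ≤ d := by exact_mod_cast hd4
    have hD1 : (d : ℝ) - 1 > 0 := by linarith
    have hD2 : (d : ℝ) - 2 > 0 := by linarith
    have hD0 : (d : ℝ) > 0 := by linarith
    have hE0 : (0 : ℝ) ≤ (E.card : ℝ) := by positivity
    -- D ≥ (d-1) c / 2
    have hDc : ((d : ℝ) - 1) * (c : ℝ) ≤ 2 * (D.card : ℝ) := by
      rw [hCR] at hlossR
      have : (d : ℝ) * (((d : ℝ) - 1) * (c : ℝ)) ≤ (d : ℝ) * (2 * (D.card : ℝ)) := by linarith
      exact le_of_mul_le_mul_left this hD0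
    have h7 : f * M ≤ ((d : ℝ) * ((d : ℝ) - 2) + 1 - ((d : ℝ) - 1) / 2) * (c : ℝ) := by
      rw [h2]; nlinarith
    rw [hCR] at h7
    have h8 : f ≤ ((d : ℝ) * ((d : ℝ) - 2) + 1 - ((d : ℝ) - 1) / 2) / ((d : ℝ) * ((d : ℝ) - 1)) := by
      rw [le_div_iff₀ (by positivity)]
      have : (f * ((d : ℝ) * ((d : ℝ) - 1))) * (c : ℝ) ≤
        ((d : ℝ) * ((d : ℝ) - 2) + 1 - ((d : ℝ) - 1) / 2) * (c : ℝ) := by linarith
      exact le_of_mul_le_mul_right this hcpos
    refine h8.trans ?_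
    rw [div_le_iff₀ (by positivity)]
    have e1 : (((d : ℝ) - 2) / ((d : ℝ) - 1) - 1 / ((d : ℝ) * ((d : ℝ) - 1) * ((d : ℝ) - 2))) *
        ((d : ℝ) * ((d : ℝ) - 1)) = (d : ℝ) * ((d : ℝ) - 2) - 1 / ((d : ℝ) - 2) := by
      field_simp
    rw [e1]
    have e2 : 1 / ((d : ℝ) - 2) ≤ 1 / 2 := by
      apply one_div_le_one_div_of_le <;> linarith
    linarith

/-- the dichotomy -/
theorem dichotomy (hd : 3 ≤ d) (hG : G ≤ AutT d) (hT : LevTrans G) :
    (∃ n, fixProp (lev G n) ≤ ((d : ℝ) - 2) / ((d : ℝ) - 1) - gap d) ∨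
      ∀ n, 1 ≤ n → ((d : ℝ) - 2) / ((d : ℝ) - 1) ≤ fixProp (lev G n) := by
  have hdR : (3 : ℝ) ≤ d := by exact_mod_cast hd
  by_cases hSG : SG G
  · by_cases hall : ∀ n, 1 ≤ n → ∀ g ∈ G, AG g → ∃ v : Fin n → Fin d, g n v = v
    · right
      intro n hn
      rw [exact_val hd hG hSG n hn (hall n hn)]
      have : (0 : ℝ) ≤ (Nat.card {γ : Gam G n // (∀ x : Fin 1 → Fin d, γ.1 ⟨1, by omega⟩ x = x) ∧
        ∃ v : Fin n → Fin d, γ.1 ⟨n, by omega⟩ v = v} : ℝ) / Nat.card (Gam G n) := by positivity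
      linarith
    · left
      push Not at hall
      have hex : ∃ n, 1 ≤ n ∧ ∃ g ∈ G, AG g ∧ ∀ v : Fin n → Fin d, g n v ≠ v := hall
      obtain ⟨hm1, g, hg, hAG, hno⟩ := Nat.find_spec hex
      have hmin : ∀ m, m < Nat.find hex → 1 ≤ m → ∀ g ∈ G, AG g → ∃ v : Fin m → Fin d, g m v = v := by
        intro m hm h1 g hg hAG
        have := Nat.find_min hex hm
        by_contra hcon
        push Not at hcon
        exact this ⟨h1, g, hg, hAG, hcon⟩
      generalize Nat.find hex = m at hm1 hno hmin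
      have hm2 : 2 ≤ m := by
        rcases Nat.lt_or_ge m 2 with h | h
        · exfalso
          have : m = 1 := by omega
          subst this
          obtain ⟨⟨x, hx⟩, _⟩ := hAG
          exact hno x hx
        · exact h
      obtain ⟨n, rfl⟩ : ∃ n, m = n + 1 := ⟨m - 1, by omega⟩
      refine ⟨n + 1, case_loss hd hG hT hSG n (by omega) (hmin n (by omega) (by omega)) ?_⟩
      intro h
      obtain ⟨v, hv⟩ := h g hg hAG
      exact hno v hv
  · left
    refine ⟨1, (case_ns hd hT hSG).trans ?_⟩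
    have hD1 : (d : ℝ) - 1 > 0 := by linarith
    have hD2 : (d : ℝ) - 2 > 0 := by linarith
    have hD0 : (d : ℝ) > 0 := by linarith
    have e : 1 - ((d : ℝ) - 1) / ((d : ℝ) * ((d : ℝ) - 2)) = ((d : ℝ) - 2) / ((d : ℝ) - 1) -
        1 / ((d : ℝ) * ((d : ℝ) - 1) * ((d : ℝ) - 2)) := by
      field_simp
      ring
    rw [e]
    unfold gap
    by_cases h3 : d = 3
    · rw [if_pos h3, h3]; norm_num
    · rw [if_neg h3]

end K7.H44.TG
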