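import Pool.Agent.K7.H44.TG9
import Pool.Agent.R14.FX.C

/-!
A level-transitive group with fixed-point proportion `(q - 2) / (q - 1)`.
-/

set_option autoImplicit false
set_option linter.unusedSectionVars false

namespace K7.H44.TG

open Finset Classical R14.FX Filter Topology PowerSeries R14.FX.C

section

variable {F : Type} [Field F] {q : ℕ} (e : Fin q ≃ F)

/-- the maps `f ↦ a f + b` with `a` a nonzero constant and `b` a power series -/
noncomputable def G1 : Subgroup (∀ n : ℕ, Equiv.Perm (Fin n → Fin q)) where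
  carrier := {g | ∃ (a : Fˣ) (b : F⟦X⟧), ∀ (n : ℕ) (f : F⟦X⟧),
    g n (w e n f) = w e n (PowerSeries.C (a : F) * f + b)}
  mul_mem' := by
    rintro g g' ⟨u, b, h⟩ ⟨u', b', h'⟩
    refine ⟨u * u', PowerSeries.C (u : F) * b' + b, fun n f => ?_⟩
    show g n (g' n (w e n f)) = _
    rw [h', h]
    congr 1
    rw [Units.val_mul, map_mul]
    ring
  one_mem' := by
    refine ⟨1, 0, fun n f => ?_⟩
    show w e n f = _
    rw [Units.val_one, map_one, one_mul, add_zero]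
  inv_mem' := by
    rintro g ⟨u, b, h⟩
    refine ⟨u⁻¹, -(PowerSeries.C ((u⁻¹ : Fˣ) : F) * b), fun n f => ?_⟩
    show (g n)⁻¹ (w e n f) = _
    rw [Equiv.Perm.inv_eq_iff_eq, h]
    congr 1
    have h3 : PowerSeries.C (u : F) * PowerSeries.C ((u⁻¹ : Fˣ) : F) = (1 : F⟦X⟧) := by
      rw [← map_mul, Units.mul_inv, map_one]
    linear_combination (b - f) * h3

lemma G1_le : G1 e ≤ AutT q := by
  rintro g ⟨u, b, h⟩
  intro n x
  obtain ⟨f, rfl⟩ := w_surj e (n + 1) x
  rw [h, w_cast, w_cast, h]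

/-- the constant as a unit power series -/
noncomputable def cu (a : Fˣ) : F⟦X⟧ˣ := Units.map (PowerSeries.C (R := F)).toMonoidHom a

lemma aff_mem1 (a : Fˣ) (b : F⟦X⟧) : (aff e (cu a) b) ∈ G1 e :=
  ⟨a, b, fun n f => aff_w e (cu a) b n f⟩

lemma G1_trans : LevTrans (G1 e) := by
  intro n x y
  obtain ⟨f, rfl⟩ := w_surj e n x
  obtain ⟨f', rfl⟩ := w_surj e n y
  refine ⟨aff e (cu 1) (f' - f), aff_mem1 e _ _, ?_⟩
  rw [aff_w]
  congr 1
  have : ((cu (1 : Fˣ) : F⟦X⟧ˣ) : F⟦X⟧) = 1 := by simp [cu]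
  rw [this]
  ring

lemma w_one_eq (f f' : F⟦X⟧) : w e 1 f = w e 1 f' ↔ constantCoeff f = constantCoeff f' := by
  rw [w_eq_iff, PowerSeries.X_pow_dvd_iff]
  constructor
  · intro h
    have := h 0 (by norm_num)
    rw [map_sub, sub_eq_zero, coeff_zero_eq_constantCoeff] at this
    exact this
  · intro h m hm
    have : m = 0 := by omega
    subst this
    rw [map_sub, sub_eq_zero, coeff_zero_eq_constantCoeff]
    exact h

lemma G1_SG : SG (G1 e) := by
  refine ⟨?_, ?_⟩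
  · intro x y x' y' hxy hxy'
    obtain ⟨f, rfl⟩ := w_surj e 1 x
    obtain ⟨f', rfl⟩ := w_surj e 1 y
    obtain ⟨k, rfl⟩ := w_surj e 1 x'
    obtain ⟨k', rfl⟩ := w_surj e 1 y'
    rw [Ne, w_one_eq] at hxy hxy'
    set x := constantCoeff f
    set y := constantCoeff f'
    set x' := constantCoeff k
    set y' := constantCoeff k'
    have hxy1 : x - y ≠ 0 := sub_ne_zero.mpr hxy
    have hxy2 : x' - y' ≠ 0 := sub_ne_zero.mpr hxy'
    let a : Fˣ := Units.mk0 ((x' - y') / (x - y)) (div_ne_zero hxy2 hxy1)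
    have hcu : constantCoeff (((cu a : F⟦X⟧ˣ) : F⟦X⟧)) = (x' - y') / (x - y) := by
      simp [cu, a]
    refine ⟨aff e (cu a) (PowerSeries.C (x' - (x' - y') / (x - y) * x)), aff_mem1 e _ _, ?_, ?_⟩
    · rw [aff_w, w_one_eq, map_add, map_mul, hcu, constantCoeff_C]
      ring
    · rw [aff_w, w_one_eq, map_add, map_mul, hcu, constantCoeff_C]
      field_simp
      ring
  · rintro g ⟨a, b, h⟩ x y hxy hx hy z
    obtain ⟨f, rfl⟩ := w_surj e 1 x
    obtain ⟨f', rfl⟩ := w_surj e 1 y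
    obtain ⟨k, rfl⟩ := w_surj e 1 z
    rw [h, w_one_eq, map_add, map_mul, constantCoeff_C] at hx hy ⊢
    rw [Ne, w_one_eq] at hxy
    set x := constantCoeff f
    set y := constantCoeff f'
    have h1 : ((a : F) - 1) * (x - y) = 0 := by linear_combination hx - hy
    have h2 : (a : F) - 1 = 0 := by
      rcases mul_eq_zero.mp h1 with h | h
      · exact h
      · exact absurd (sub_eq_zero.mp h) hxy
    have h3 : (a : F) = 1 := sub_eq_zero.mp h2
    rw [h3] at hx ⊢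
    linear_combination hx

lemma G1_fix (g : ∀ n : ℕ, Equiv.Perm (Fin n → Fin q)) (hg : g ∈ G1 e) (hAG : AG g) (n : ℕ) :
    ∃ v : Fin n → Fin q, g n v = v := by
  obtain ⟨a, b, h⟩ := hg
  obtain ⟨⟨x, hx⟩, ⟨y, hy⟩⟩ := hAG
  obtain ⟨f, rfl⟩ := w_surj e 1 x
  obtain ⟨f', rfl⟩ := w_surj e 1 y
  have ha : (a : F) ≠ 1 := by
    intro ha
    apply hy
    rw [h, w_one_eq, map_add, map_mul, constantCoeff_C, ha] at hx ⊢
    linear_combination hx
  have ha' : 1 - (a : F) ≠ 0 := sub_ne_zero.mpr (Ne.symm ha)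
  refine ⟨w e n (PowerSeries.C ((1 - (a : F))⁻¹) * b), ?_⟩
  rw [h]
  congr 1
  have h3 : PowerSeries.C (1 - (a : F)) * PowerSeries.C ((1 - (a : F))⁻¹) = (1 : F⟦X⟧) := by
    rw [← map_mul, mul_inv_cancel₀ ha', map_one]
  rw [map_sub, map_one] at h3
  linear_combination (-b) * h3

lemma G1_one (n : ℕ) (hn : 1 ≤ n) : Nat.card {γ : Gam (G1 e) n //
    (∀ x : Fin 1 → Fin q, γ.1 ⟨1, by omega⟩ x = x) ∧
      ∃ v : Fin n → Fin q, γ.1 ⟨n, by omega⟩ v = v} = 1 := by
  rw [Nat.card_eq_one_iff_unique]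
  refine ⟨⟨?_⟩, ⟨⟨1, fun x => rfl, ⟨fun _ => e.symm 0, rfl⟩⟩⟩⟩
  suffices h : ∀ γ : Gam (G1 e) n, (∀ x : Fin 1 → Fin q, γ.1 ⟨1, by omega⟩ x = x) →
      (∃ v : Fin n → Fin q, γ.1 ⟨n, by omega⟩ v = v) → γ = 1 by
    rintro ⟨γ, h1, h2⟩ ⟨γ', h1', h2'⟩
    exact Subtype.ext ((h γ h1 h2).trans (h γ' h1' h2').symm)
  intro γ h1 h2
  obtain ⟨g, ⟨a, b, h⟩, hh⟩ := Gam_ex γ
  have h1' : ∀ f : F⟦X⟧, (a : F) * constantCoeff f + constantCoeff b = constantCoeff f := by
    intro f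
    have := h1 (w e 1 f)
    rw [hh] at this
    rw [h, w_one_eq, map_add, map_mul, constantCoeff_C] at this
    exact this
  have hb0 : constantCoeff b = 0 := by
    have := h1' 0
    rw [map_zero, mul_zero, zero_add] at this
    exact this
  have ha : (a : F) = 1 := by
    have := h1' 1
    rw [map_one, mul_one, hb0, add_zero] at this
    exact this
  obtain ⟨v, hv⟩ := h2
  rw [hh] at hv
  obtain ⟨f, rfl⟩ := w_surj e n v
  have hb : (X : F⟦X⟧) ^ n ∣ b := by
    have h3 := h n f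
    rw [ha, map_one, one_mul] at h3
    have h4 : w e n (f + b) = w e n f := h3.symm.trans hv
    rw [w_eq_iff] at h4
    have : f + b - f = b := by ring
    rwa [this] at h4
  apply Subtype.ext
  funext m
  apply Equiv.ext
  intro v
  rw [hh]
  show g m v = v
  obtain ⟨f', rfl⟩ := w_surj e m v
  rw [h, ha, map_one, one_mul, w_eq_iff]
  have : f' + b - f' = b := by ring
  rw [this]
  exact dvd_trans (pow_dvd_pow _ (by have := m.2; omega)) hb

lemma G1_lim (hq : 3 ≤ q) :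
    Tendsto (fun n => fixProp (lev (G1 e) n)) atTop (𝓝 (((q : ℝ) - 2) / ((q : ℝ) - 1))) := by
  have hlow : ∀ n, 1 ≤ n → fixProp (lev (G1 e) n) = ((q : ℝ) - 2) / ((q : ℝ) - 1) +
      1 / (Nat.card (Gam (G1 e) n) : ℝ) := by
    intro n hn
    rw [exact_val hq (G1_le e) (G1_SG e) n hn (fun g hg hAG => G1_fix e g hg hAG n),
      G1_one e n hn]
    norm_num
  have hcard : ∀ n, (q : ℝ) ^ n ≤ (Nat.card (Gam (G1 e) n) : ℝ) := by
    intro n
    let _ := act (G1 e) n n (by omega)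
    have h1 := tr_card (⊤ : Subgroup (Gam (G1 e) n)) (tr_lev (G1 e) (G1_trans e) n n (by omega))
      (fun _ => e.symm 0 : Fin n → Fin q)
    rw [cd_top] at h1
    have h2 := c1_pos (⊤ : Subgroup (Gam (G1 e) n)) (fun _ => e.symm 0 : Fin n → Fin q)
    have h3 : q ^ n ≤ Nat.card (Gam (G1 e) n) := by
      rw [Nat.card_eq_fintype_card, h1]
      have : Fintype.card (Fin n → Fin q) = q ^ n := by simp
      rw [this]
      exact Nat.le_mul_of_pos_right _ h2
    exact_mod_cast h3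
  have hlim : Tendsto (fun n => ((q : ℝ) - 2) / ((q : ℝ) - 1) +
      1 / (Nat.card (Gam (G1 e) n) : ℝ)) atTop (𝓝 (((q : ℝ) - 2) / ((q : ℝ) - 1) + 0)) := by
    apply Tendsto.add tendsto_const_nhds
    apply tendsto_const_nhds.div_atTop
    apply tendsto_atTop_mono hcard
    apply tendsto_pow_atTop_atTop_of_one_lt
    have : (3 : ℝ) ≤ q := by exact_mod_cast hq
    linarith
  rw [add_zero] at hlim
  refine hlim.congr' ?_
  filter_upwards [eventually_ge_atTop 1] with n hn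
  exact (hlow n hn).symm

end

/-- for a prime power `q ≥ 3` the value `(q - 2) / (q - 1)` is attained -/
theorem attained (q : ℕ) (hq : IsPrimePow q) (h3 : 3 ≤ q) :
    ∃ G : Subgroup (∀ n : ℕ, Equiv.Perm (Fin n → Fin q)), G ≤ AutT q ∧ LevTrans G ∧
      Tendsto (fun n => fixProp (lev G n)) atTop (𝓝 (((q : ℝ) - 2) / ((q : ℝ) - 1))) := by
  obtain ⟨p, k, hp, hk, rfl⟩ := hq
  have : Fact p.Prime := ⟨hp.nat_prime⟩
  have hcard : Nat.card (GaloisField p k) = p ^ k := GaloisField.card p k hk.ne'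
  have : Finite (GaloisField p k) := Nat.finite_of_card_ne_zero (by
    rw [hcard]; exact pow_ne_zero _ hp.nat_prime.ne_zero)
  let e : Fin (p ^ k) ≃ GaloisField p k := (Finite.equivFinOfCardEq hcard).symm
  exact ⟨G1 e, G1_le e, G1_trans e, G1_lim e h3⟩

end K7.H44.TG
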