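import Pool.Agent.K7.H44.TGA
import Pool.Agent.R14.FX.Main
import Pool.Agent.R14.FX.D
import Pool.Agent.R14.FX.E
import Pool.Agent.R14.FX.U
import Pool.Agent.R14.FX.V
import Pool.Agent.R14.FX.F
import Pool.Agent.R14.FX.S
import Pool.Agent.R14.FX.P2

/-!
Consequences for the spectrum of fixed-point proportions.
-/

set_option autoImplicit false
set_option linter.unusedSectionVars false

namespace K7.H44.TG

open Finset Classical R14.FX Filter Topology

variable {d : ℕ} {G : Subgroup (∀ n : ℕ, Equiv.Perm (Fin n → Fin d))}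

/-- the set of fixed-point proportions of the level-transitive groups of automorphisms of the
`d`-regular rooted tree -/
def fppSet (d : ℕ) : Set ℝ :=
  {a | ∃ G : Subgroup (∀ n : ℕ, Equiv.Perm (Fin n → Fin d)), G ≤ AutT d ∧ LevTrans G ∧
    Tendsto (fun n => fixProp (lev G n)) atTop (𝓝 a)}

lemma lim_le (hG : G ≤ AutT d) {a : ℝ} (ha : Tendsto (fun n => fixProp (lev G n)) atTop (𝓝 a))
    (n : ℕ) : a ≤ fixProp (lev G n) := by
  have hanti : Antitone (fun n => fixProp (lev G n)) := antitone_nat_of_succ_le (R14.FX.M.main d G hG)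
  exact hanti.le_of_tendsto ha n

theorem gap_thm (hd : 3 ≤ d) (a : ℝ) (ha : a ∈ fppSet d) :
    a ≤ ((d : ℝ) - 2) / ((d : ℝ) - 1) - gap d ∨ ((d : ℝ) - 2) / ((d : ℝ) - 1) ≤ a := by
  obtain ⟨G, hG, hT, ha⟩ := ha
  rcases dichotomy hd hG hT with ⟨n, hn⟩ | h
  · left
    exact (lim_le hG ha n).trans hn
  · right
    apply ge_of_tendsto ha
    filter_upwards [eventually_ge_atTop 1] with n hn
    exact h n hn

lemma sg_pp (hd : 3 ≤ d) (hSG : SG G) : IsPrimePow d := by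
  let e : (Fin 1 → Fin d) ≃ Fin d := Equiv.funUnique (Fin 1) (Fin d)
  let Q : Subgroup (Equiv.Perm (Fin d)) :=
    { carrier := {σ | ∃ g ∈ G, ∀ x, σ x = e (g 1 (e.symm x))}
      one_mem' := ⟨1, G.one_mem, fun x => by simp⟩
      mul_mem' := by
        rintro σ τ ⟨g, hg, h1⟩ ⟨k, hk, h2⟩
        refine ⟨g * k, G.mul_mem hg hk, fun x => ?_⟩
        show σ (τ x) = e (g 1 (k 1 (e.symm x)))
        rw [h1, h2]; simp
      inv_mem' := by
        rintro σ ⟨g, hg, h1⟩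
        refine ⟨g⁻¹, G.inv_mem hg, fun x => ?_⟩
        show σ⁻¹ x = e ((g 1)⁻¹ (e.symm x))
        rw [Equiv.Perm.inv_eq_iff_eq, h1]; simp }
  apply R14.FX.P2.main d Q (by omega)
  · intro x y x' y' hxy hxy'
    obtain ⟨g, hg, h1, h2⟩ := hSG.1 (e.symm x) (e.symm y) (e.symm x') (e.symm y')
      (fun h => hxy (e.symm.injective h)) (fun h => hxy' (e.symm.injective h))
    let σ : Equiv.Perm (Fin d) := (e.symm.trans (g 1)).trans e
    refine ⟨σ, ⟨g, hg, fun _ => rfl⟩, ?_, ?_⟩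
    · show e (g 1 (e.symm x)) = x'
      rw [h1]; simp
    · show e (g 1 (e.symm y)) = y'
      rw [h2]; simp
  · rintro σ ⟨g, hg, h1⟩ x y hxy hx hy
    rw [h1] at hx hy
    have hx' : g 1 (e.symm x) = e.symm x := by rw [Equiv.eq_symm_apply]; exact hx
    have hy' : g 1 (e.symm y) = e.symm y := by rw [Equiv.eq_symm_apply]; exact hy
    have h2 := hSG.2 g hg _ _ (fun h => hxy (e.symm.injective h)) hx' hy'
    ext z
    rw [h1, h2]
    simp

/-- the bound for `d` not a prime power -/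
theorem bound_npp (hd : 3 ≤ d) (hnp : ¬ IsPrimePow d) (a : ℝ) (ha : a ∈ fppSet d) :
    a ≤ 1 - ((d : ℝ) - 1) / ((d : ℝ) * ((d : ℝ) - 2)) := by
  obtain ⟨G, hG, hT, ha⟩ := ha
  exact (lim_le hG ha 1).trans (case_ns hd hT (fun h => hnp (sg_pp hd h)))

/-- the maximum for prime powers (known) -/
theorem greatest (hpp : IsPrimePow d) :
    IsGreatest (fppSet d) (((d : ℝ) ^ 2 - d - 1) / ((d : ℝ) ^ 2 - 1)) := by
  have h1 := R14.FX.Main.main (R14.FX.U.main R14.FX.D.main) (R14.FX.V.main R14.FX.E.main)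
    R14.FX.F.main R14.FX.C.main R14.FX.M.main R14.FX.S.main
  constructor
  · obtain ⟨G, hG, hT, h⟩ := h1.2 d hpp
    exact ⟨G, hG, hT, h⟩
  · rintro a ⟨G, hG, hT, h⟩
    obtain ⟨_, b, hb, hle⟩ := h1.1 d G hpp.two_le hG hT
    rwa [tendsto_nhds_unique h hb]

lemma gap_pos (hd : 3 ≤ d) : 0 < gap d := by
  have hdR : (3 : ℝ) ≤ d := by exact_mod_cast hd
  unfold gap
  by_cases h3 : d = 3
  · rw [if_pos h3]; norm_num
  · rw [if_neg h3]
    have hD1 : (d : ℝ) - 1 > 0 := by linarith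
    have hD2 : (d : ℝ) - 2 > 0 := by linarith
    have hD0 : (d : ℝ) > 0 := by linarith
    positivity

lemma gap_lt (hd : 3 ≤ d) : gap d < ((d : ℝ) - 2) / ((d : ℝ) - 1) := by
  have hdR : (3 : ℝ) ≤ d := by exact_mod_cast hd
  have hD1 : (d : ℝ) - 1 > 0 := by linarith
  have hD2 : (d : ℝ) - 2 > 0 := by linarith
  have hD0 : (d : ℝ) > 0 := by linarith
  unfold gap
  by_cases h3 : d = 3
  · rw [if_pos h3, h3]; norm_num
  · rw [if_neg h3]
    have h4 : 4 ≤ d := by omega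
    have h4R : (4 : ℝ) ≤ d := by exact_mod_cast h4
    rw [div_lt_div_iff₀ (by positivity) hD1]
    nlinarith [mul_pos hD0 hD1, mul_pos hD0 hD2, mul_pos (mul_pos hD0 hD1) hD2]

lemma beta_gt (hd : 3 ≤ d) : ((d : ℝ) - 2) / ((d : ℝ) - 1) <
    ((d : ℝ) ^ 2 - d - 1) / ((d : ℝ) ^ 2 - 1) := by
  have hdR : (3 : ℝ) ≤ d := by exact_mod_cast hd
  rw [div_lt_div_iff₀ (by linarith) (by nlinarith)]
  nlinarith

end K7.H44.TG
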