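import Pool.Agent.K7.H44.ZeroGen

/-!
# From exact to bounded row and column sums
-/

set_option autoImplicit false

open Finset

namespace Pool.Agent.K7.H44.ZeroComp

open Pool.Agent.K7.H44.Circle Pool.Agent.K7.H44.LemmaA Pool.Agent.K7.H44.ZeroGen

/-- the set of positions -/
def PP {t : ℕ} (x y : Fin t → ℕ) (v w : ℕ) : Prop := ∃ i, x i = v ∧ y i = w

lemma chi_PP {t : ℕ} (x y : Fin t → ℕ) (hinj : Function.Injective fun i => (x i, y i)) (v w : ℕ) :
    (chi (PP x y v w) : ℤ) = ∑ j, if x j = v ∧ y j = w then (1 : ℤ) else 0 := by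
  classical
  by_cases h : PP x y v w
  · obtain ⟨i, hi1, hi2⟩ := h
    rw [Finset.sum_eq_single i]
    · have : PP x y v w := ⟨i, hi1, hi2⟩
      simp [chi, this, hi1, hi2]
    · intro j _ hj
      rw [if_neg]
      rintro ⟨h1, h2⟩
      exact hj (hinj (by simp [h1, h2, hi1, hi2]))
    · intro h; exact absurd (mem_univ _) h
  · rw [Finset.sum_eq_zero]
    · simp [chi, h]
    · intro j _
      rw [if_neg]
      intro h'
      exact h ⟨j, h'⟩

lemma sum_PP {t n k : ℕ} (x y : Fin t → ℕ) (hinj : Function.Injective fun i => (x i, y i))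
    (hx : ∀ i, x i < n) (hy : ∀ i, y i < k) :
    ∑ v ∈ range n, ∑ w ∈ range k, chi (PP x y v w) = (t : ℤ) := by
  classical
  simp only [chi_PP x y hinj]
  have h1 : ∀ v ∈ range n, ∑ w ∈ range k, ∑ j, (if x j = v ∧ y j = w then (1 : ℤ) else 0) =
      ∑ j, if x j = v then (1 : ℤ) else 0 := by
    intro v _
    rw [sum_comm]
    refine sum_congr rfl fun j _ => ?_
    by_cases h : x j = v
    · simp [h, hy j]
    · simp [h]
  rw [sum_congr rfl h1, sum_comm]
  simp [hx]

lemma AA_PP {t k : ℕ} (M : ℕ → ℕ → ℝ) (x y : Fin t → ℕ)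
    (hinj : Function.Injective fun i => (x i, y i)) (hy : ∀ i, y i < k) (u v : ℕ) :
    AA k M (PP x y) u v = ∑ j, if x j = v then M u (y j) else 0 := by
  classical
  unfold AA
  have h1 : ∀ w ∈ range k, M u w * ((chi (PP x y v w) : ℤ) : ℝ) =
      ∑ j, if x j = v ∧ y j = w then M u w else 0 := by
    intro w _
    rw [chi_PP x y hinj]
    push_cast
    rw [mul_sum]
    refine sum_congr rfl fun j _ => ?_
    split_ifs <;> simp
  rw [sum_congr rfl h1, sum_comm]
  refine sum_congr rfl fun j _ => ?_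
  by_cases h : x j = v
  · simp [h, hy j]
  · simp [h]

lemma AA_sum {t n k : ℕ} (M : ℕ → ℕ → ℝ) (x y : Fin t → ℕ)
    (hinj : Function.Injective fun i => (x i, y i)) (hx : ∀ i, x i < n) (hy : ∀ i, y i < k) :
    ∑ u ∈ range n, ∑ v ∈ range n, AA k M (PP x y) u v * AA k M (PP x y) v u =
      ∑ i, ∑ j, M (x i) (y j) * M (x j) (y i) := by
  classical
  have h1 : ∀ u ∈ range n, ∀ v ∈ range n, AA k M (PP x y) u v * AA k M (PP x y) v u =
      ∑ i, ∑ j, (if x i = u then (if x j = v then M u (y j) * M v (y i) else 0) else 0) := by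
    intro u _ v _
    rw [AA_PP M x y hinj hy u v, AA_PP M x y hinj hy v u, mul_comm, sum_mul_sum]
    refine sum_congr rfl fun i _ => sum_congr rfl fun j _ => ?_
    split_ifs <;> ring
  rw [sum_congr rfl fun u hu => sum_congr rfl fun v hv => h1 u hu v hv]
  have h2 : ∀ u ∈ range n, ∑ v ∈ range n, ∑ i, ∑ j,
      (if x i = u then (if x j = v then M u (y j) * M v (y i) else 0) else 0) =
      ∑ i, ∑ j, (if x i = u then M u (y j) * M (x j) (y i) else 0) := by
    intro u _
    rw [sum_comm]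
    refine sum_congr rfl fun i _ => ?_
    rw [sum_comm]
    refine sum_congr rfl fun j _ => ?_
    by_cases h : x i = u
    · simp [h, hx j]
    · simp [h]
  rw [sum_congr rfl h2, sum_comm]
  refine sum_congr rfl fun i _ => ?_
  rw [sum_comm]
  refine sum_congr rfl fun j _ => ?_
  simp [hx i]

/-- The completion to exact sums. -/
theorem complete {n k : ℕ} (M : ℕ → ℕ → ℝ) (hM : ∀ x < n, ∀ y < k, 0 ≤ M x y) (R C : ℝ)
    (hC : 0 < C) (a b : ℕ) (hb : 0 < b) (hab : b ≤ a) (hRC : (b : ℝ) * R = a * C)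
    (hrow : ∀ x < n, ∑ y ∈ range k, M x y ≤ R) (hcol : ∀ y < k, ∑ x ∈ range n, M x y ≤ C) :
    ∃ (n' k' : ℕ) (M' : ℕ → ℕ → ℝ), n ≤ n' ∧ k ≤ k' ∧ (∀ x < n, ∀ y < k, M' x y = M x y) ∧
      (∀ x < n', ∀ y < k', 0 ≤ M' x y) ∧ (∀ x < n', ∑ y ∈ range k', M' x y = R) ∧
      (∀ y < k', ∑ x ∈ range n', M' x y = C) := by
  classical
  set N := n + k + 1 with hN
  obtain ⟨n1, hn1⟩ : ∃ n1, b * N = n + (n1 + 1) := by
    have : n + k + 1 ≤ b * N := by rw [hN]; exact Nat.le_mul_of_pos_left _ hb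
    exact ⟨b * N - n - 1, by omega⟩
  obtain ⟨k1, hk1⟩ : ∃ k1, a * N = k + (k1 + 1) := by
    have : n + k + 1 ≤ a * N := by rw [hN]; exact Nat.le_mul_of_pos_left _ (by omega)
    exact ⟨a * N - k - 1, by omega⟩
  have hn1' : (b : ℝ) * (n + k + 1) = n + (n1 + 1) := by
    have : ((b * N : ℕ) : ℝ) = ((n + (n1 + 1) : ℕ) : ℝ) := by rw [hn1]
    rw [hN] at this
    push_cast at this
    exact this
  have hk1' : (a : ℝ) * (n + k + 1) = k + (k1 + 1) := by
    have : ((a * N : ℕ) : ℝ) = ((k + (k1 + 1) : ℕ) : ℝ) := by rw [hk1]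
    rw [hN] at this
    push_cast at this
    exact this
  have hb1 : (1 : ℝ) ≤ b := by exact_mod_cast hb
  have hab' : (b : ℝ) ≤ a := by exact_mod_cast hab
  have hn0 : (0 : ℝ) ≤ n := Nat.cast_nonneg _
  have hk0 : (0 : ℝ) ≤ k := Nat.cast_nonneg _
  have hn2 : (0 : ℝ) < (n1 : ℝ) + 1 := by positivity
  have hk2 : (0 : ℝ) < (k1 : ℝ) + 1 := by positivity
  set m := ∑ x ∈ range n, ∑ y ∈ range k, M x y with hm
  have hm0 : 0 ≤ m := sum_nonneg fun x hx => sum_nonneg fun y hy =>
    hM x (mem_range.1 hx) y (mem_range.1 hy)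
  have hm' : m = ∑ y ∈ range k, ∑ x ∈ range n, M x y := by rw [hm, sum_comm]
  set z := (k1 + 1) * C - n * R + m with hz
  have hz' : z = (n1 + 1) * R - k * C + m := by
    have : (n + (n1 + 1)) * R = (k + (k1 + 1)) * C := by
      rw [← hn1', ← hk1']
      linear_combination (n + k + 1 : ℝ) * hRC
    rw [hz]; linarith
  have hR0 : 0 < R := by
    by_contra hcon
    push Not at hcon
    have h1 : (b : ℝ) * R ≤ 0 := mul_nonpos_of_nonneg_of_nonpos (by linarith) hcon
    have h2 : 0 < (a : ℝ) * C := mul_pos (by linarith) hC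
    linarith
  have hz0 : 0 ≤ z := by
    have h1 : (n : ℝ) * R ≤ n * (a * C) := by
      refine mul_le_mul_of_nonneg_left ?_ hn0
      rw [← hRC]
      exact le_mul_of_one_le_left hR0.le hb1
    have h2 : (n : ℝ) * a ≤ k1 + 1 := by
      have : (a : ℝ) * (n + k + 1) = n * a + a * k + a := by ring
      rw [hk1'] at this
      have h3 : (k : ℝ) ≤ a * k := le_mul_of_one_le_left hk0 (by linarith)
      linarith
    have h3 : (n : ℝ) * a * C ≤ (k1 + 1) * C := mul_le_mul_of_nonneg_right h2 hC.le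
    rw [hz]
    nlinarith
  set r : ℕ → ℝ := fun x => ∑ y ∈ range k, M x y with hr
  set c : ℕ → ℝ := fun y => ∑ x ∈ range n, M x y with hc
  refine ⟨n + (n1 + 1), k + (k1 + 1), fun x y =>
    if x < n then (if y < k then M x y else (R - r x) / (k1 + 1))
    else (if y < k then (C - c y) / (n1 + 1) else z / ((n1 + 1) * (k1 + 1))), by omega, by omega,
    ?_, ?_, ?_, ?_⟩
  · intro x hx y hy
    simp [hx, hy]
  · intro x _ y _
    dsimp only
    split_ifs with h1 h2 h3
    · exact hM x h1 y h2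
    · exact div_nonneg (sub_nonneg.2 (hrow x h1)) hk2.le
    · exact div_nonneg (sub_nonneg.2 (hcol y h3)) hn2.le
    · exact div_nonneg hz0 (mul_pos hn2 hk2).le
  · intro x _
    rw [Finset.sum_range_add]
    by_cases h1 : x < n
    · have e1 : ∑ y ∈ range k, (if x < n then (if y < k then M x y else (R - r x) / ((k1 : ℝ) + 1))
          else (if y < k then (C - c y) / ((n1 : ℝ) + 1) else z / (((n1 : ℝ) + 1) * (k1 + 1)))) =
          r x := by
        rw [hr]
        refine sum_congr rfl fun y hy => ?_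
        rw [if_pos h1, if_pos (mem_range.1 hy)]
      have e2 : ∑ y ∈ range (k1 + 1), (if x < n then (if k + y < k then M x (k + y) else
          (R - r x) / ((k1 : ℝ) + 1)) else (if k + y < k then (C - c (k + y)) / ((n1 : ℝ) + 1) else
          z / (((n1 : ℝ) + 1) * (k1 + 1)))) = R - r x := by
        rw [sum_congr rfl (g := fun _ => (R - r x) / ((k1 : ℝ) + 1)) fun y hy => by
          rw [if_pos h1, if_neg (by omega)]]
        rw [sum_const, card_range, nsmul_eq_mul]
        push_cast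
        field_simp
      rw [e1, e2]; ring
    · have e1 : ∑ y ∈ range k, (if x < n then (if y < k then M x y else (R - r x) / ((k1 : ℝ) + 1))
          else (if y < k then (C - c y) / ((n1 : ℝ) + 1) else z / (((n1 : ℝ) + 1) * (k1 + 1)))) =
          (k * C - m) / (n1 + 1) := by
        rw [sum_congr rfl (g := fun y => (C - c y) / ((n1 : ℝ) + 1)) fun y hy => by
          rw [if_neg h1, if_pos (mem_range.1 hy)]]
        rw [← sum_div, sum_sub_distrib, sum_const, card_range, nsmul_eq_mul, hm']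
      have e2 : ∑ y ∈ range (k1 + 1), (if x < n then (if k + y < k then M x (k + y) else
          (R - r x) / ((k1 : ℝ) + 1)) else (if k + y < k then (C - c (k + y)) / ((n1 : ℝ) + 1) else
          z / (((n1 : ℝ) + 1) * (k1 + 1)))) = z / (n1 + 1) := by
        rw [sum_congr rfl (g := fun _ => z / (((n1 : ℝ) + 1) * (k1 + 1))) fun y hy => by
          rw [if_neg h1, if_neg (by omega)]]
        rw [sum_const, card_range, nsmul_eq_mul]
        push_cast
        field_simp
      rw [e1, e2, hz', ← add_div, div_eq_iff hn2.ne']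
      ring
  · intro y _
    rw [Finset.sum_range_add]
    by_cases h1 : y < k
    · have e1 : ∑ x ∈ range n, (if x < n then (if y < k then M x y else (R - r x) / ((k1 : ℝ) + 1))
          else (if y < k then (C - c y) / ((n1 : ℝ) + 1) else z / (((n1 : ℝ) + 1) * (k1 + 1)))) =
          c y := by
        rw [hc]
        refine sum_congr rfl fun x hx => ?_
        rw [if_pos (mem_range.1 hx), if_pos h1]
      have e2 : ∑ x ∈ range (n1 + 1), (if n + x < n then (if y < k then M (n + x) y else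
          (R - r (n + x)) / ((k1 : ℝ) + 1)) else (if y < k then (C - c y) / ((n1 : ℝ) + 1) else
          z / (((n1 : ℝ) + 1) * (k1 + 1)))) = C - c y := by
        rw [sum_congr rfl (g := fun _ => (C - c y) / ((n1 : ℝ) + 1)) fun x hx => by
          rw [if_neg (by omega), if_pos h1]]
        rw [sum_const, card_range, nsmul_eq_mul]
        push_cast
        field_simp
      rw [e1, e2]; ring
    · have e1 : ∑ x ∈ range n, (if x < n then (if y < k then M x y else (R - r x) / ((k1 : ℝ) + 1))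
          else (if y < k then (C - c y) / ((n1 : ℝ) + 1) else z / (((n1 : ℝ) + 1) * (k1 + 1)))) =
          (n * R - m) / (k1 + 1) := by
        rw [sum_congr rfl (g := fun x => (R - r x) / ((k1 : ℝ) + 1)) fun x hx => by
          rw [if_pos (mem_range.1 hx), if_neg h1]]
        rw [← sum_div, sum_sub_distrib, sum_const, card_range, nsmul_eq_mul]
      have e2 : ∑ x ∈ range (n1 + 1), (if n + x < n then (if y < k then M (n + x) y else
          (R - r (n + x)) / ((k1 : ℝ) + 1)) else (if y < k then (C - c y) / ((n1 : ℝ) + 1) else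
          z / (((n1 : ℝ) + 1) * (k1 + 1)))) = z / (k1 + 1) := by
        rw [sum_congr rfl (g := fun _ => z / (((n1 : ℝ) + 1) * (k1 + 1))) fun x hx => by
          rw [if_neg (by omega), if_neg h1]]
        rw [sum_const, card_range, nsmul_eq_mul]
        push_cast
        field_simp
      rw [e1, e2, hz, ← add_div, div_eq_iff hk2.ne']
      ring

/-- The bound with half-square loss, rational ratio. -/
theorem rational {n k : ℕ} (M : ℕ → ℕ → ℝ) (hM : ∀ x < n, ∀ y < k, 0 ≤ M x y) (R C : ℝ)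
    (hC : 0 < C) (a b : ℕ) (hb : 0 < b) (hab : b ≤ a) (hRC : (b : ℝ) * R = a * C)
    (hrow : ∀ x < n, ∑ y ∈ range k, M x y ≤ R) (hcol : ∀ y < k, ∑ x ∈ range n, M x y ≤ C)
    (t : ℕ) (ht : Odd t) (x y : Fin t → ℕ) (hx : ∀ i, x i < n) (hy : ∀ i, y i < k)
    (hinj : Function.Injective fun i => (x i, y i)) (h0 : ∀ i, M (x i) (y i) = 0) :
    ∑ i, ∑ j, M (x i) (y j) * M (x j) (y i) ≤ ((t : ℝ) - 1) * R * C + C ^ 2 / 2 := by
  obtain ⟨n', k', M', hn, hk, hMM, hM', hrow', hcol'⟩ :=
    complete M hM R C hC a b hb hab hRC hrow hcol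
  have hx' : ∀ i, x i < n' := fun i => lt_of_lt_of_le (hx i) hn
  have hy' : ∀ i, y i < k' := fun i => lt_of_lt_of_le (hy i) hk
  have hCR : C ≤ R := by
    have hb1 : (0 : ℝ) < b := by exact_mod_cast hb
    have hab' : (b : ℝ) ≤ a := by exact_mod_cast hab
    have : (b : ℝ) * C ≤ b * R := by rw [hRC]; exact mul_le_mul_of_nonneg_right hab' hC.le
    exact le_of_mul_le_mul_left this hb1
  have h1 := exact M' R C hC hCR hM' hrow' hcol' (PP x y) (by
    rintro u _ v _ ⟨i, rfl, rfl⟩
    rw [hMM _ (hx i) _ (hy i)]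
    exact h0 i) (by
    rw [sum_PP x y hinj hx' hy']
    exact_mod_cast ht)
  rw [sum_PP x y hinj hx' hy', AA_sum M' x y hinj hx' hy'] at h1
  have h2 : ∑ i, ∑ j, M' (x i) (y j) * M' (x j) (y i) = ∑ i, ∑ j, M (x i) (y j) * M (x j) (y i) :=
    sum_congr rfl fun i _ => sum_congr rfl fun j _ => by
      rw [hMM _ (hx i) _ (hy j), hMM _ (hx j) _ (hy i)]
  rw [h2] at h1
  exact_mod_cast h1

/-- The bound with half-square loss when the row bound is at least the column bound. -/
theorem real_case {n k : ℕ} (M : ℕ → ℕ → ℝ) (hM : ∀ x < n, ∀ y < k, 0 ≤ M x y) (R C : ℝ)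
    (hC : 0 < C) (hCR : C ≤ R)
    (hrow : ∀ x < n, ∑ y ∈ range k, M x y ≤ R) (hcol : ∀ y < k, ∑ x ∈ range n, M x y ≤ C)
    (t : ℕ) (ht : Odd t) (x y : Fin t → ℕ) (hx : ∀ i, x i < n) (hy : ∀ i, y i < k)
    (hinj : Function.Injective fun i => (x i, y i)) (h0 : ∀ i, M (x i) (y i) = 0) :
    ∑ i, ∑ j, M (x i) (y j) * M (x j) (y i) ≤ ((t : ℝ) - 1) * R * C + C ^ 2 / 2 := by
  have ht1 : (1 : ℝ) ≤ t := by exact_mod_cast ht.pos
  refine le_of_forall_pos_le_add fun ε hε => ?_
  have hδ : 0 < ε / (t * C ^ 2) := div_pos hε (mul_pos (by linarith) (pow_pos hC 2))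
  obtain ⟨q, hq1, hq2⟩ := exists_rat_btwn (lt_add_of_pos_right (R / C) hδ)
  have h1RC : 1 ≤ R / C := (one_le_div hC).2 hCR
  have hqpos : (1 : ℝ) < q := lt_of_le_of_lt h1RC hq1
  have hq0 : 0 ≤ q := by
    have : (0 : ℝ) ≤ q := by linarith
    exact_mod_cast this
  have hnum : (q.num.toNat : ℤ) = q.num := Int.toNat_of_nonneg (Rat.num_nonneg.2 hq0)
  have hden : (0 : ℝ) < q.den := by exact_mod_cast q.den_pos
  have hqd : (q : ℝ) = (q.num.toNat : ℝ) / q.den := by
    have h2 : (q : ℝ) = (q.num : ℝ) / q.den := by exact_mod_cast (Rat.num_div_den q).symm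
    have h3 : ((q.num.toNat : ℤ) : ℝ) = (q.num : ℝ) := by rw [hnum]
    rw [h2, ← h3]
    push_cast
    rfl
  have hR' : R ≤ q * C := by
    have := (div_lt_iff₀ hC).1 hq1
    exact this.le
  have h4 := rational M hM (q * C) C hC q.num.toNat q.den q.den_pos (by
      have : (q.den : ℝ) ≤ (q.num.toNat : ℝ) := by
        rw [hqd, lt_div_iff₀ hden, one_mul] at hqpos
        exact hqpos.le
      exact_mod_cast this) (by
      rw [hqd]; field_simp) (fun u hu => (hrow u hu).trans hR') hcol t ht x y hx hy hinj h0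
  have h5 : (q : ℝ) * C * C ≤ R * C + ε / t := by
    have h6 : (q : ℝ) * (C * C) ≤ (R / C + ε / (t * C ^ 2)) * (C * C) :=
      mul_le_mul_of_nonneg_right hq2.le (mul_pos hC hC).le
    have h7 : (R / C + ε / (t * C ^ 2)) * (C * C) = R * C + ε / t := by
      field_simp
    rw [h7] at h6
    linarith
  have h8 : ((t : ℝ) - 1) * (q * C * C) ≤ ((t : ℝ) - 1) * (R * C + ε / t) :=
    mul_le_mul_of_nonneg_left h5 (by linarith)
  have h9 : ((t : ℝ) - 1) * (ε / t) ≤ ε := by
    rw [mul_div_assoc', div_le_iff₀ (by linarith)]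
    nlinarith
  nlinarith

end Pool.Agent.K7.H44.ZeroComp
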