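import Mathlib

/-!
# Matrices with bounded entries and integral column bounds

`A` is a square real matrix with zero diagonal, entries in `[0, a]`, `a` a natural number, and column
sums at most natural numbers `p j` whose sum is odd.  Then `∑ A i j * A j i ≤ a * (∑ p j - 1)`.
-/

set_option autoImplicit false

open Finset

namespace Pool.Agent.K7.H44.ZeroEntries

/-- fractional coordinates -/
noncomputable def fr {ι : Type*} [Fintype ι] (v : ι → ℝ) : Finset ι :=
  univ.filter (fun i => ((⌊v i⌋₊ : ℕ) : ℝ) ≠ v i)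

/-- Rounding lemma (integrality of the knapsack type polytope). -/
theorem round {ι : Type*} [Fintype ι] [DecidableEq ι] (c : ι → ℝ) (hc : ∀ i, 0 ≤ c i) (a p : ℕ) :
    ∀ (n : ℕ) (v : ι → ℝ), (fr v).card = n → (∀ i, 0 ≤ v i) → (∀ i, v i ≤ a) → ∑ i, v i ≤ p →
      ∃ w : ι → ℕ, (∀ i, w i ≤ a) ∧ ∑ i, w i ≤ p ∧ (∀ i, v i = 0 → w i = 0) ∧
        ∑ i, c i * v i ≤ ∑ i, c i * (w i : ℝ) := by
  intro n
  induction n using Nat.strong_induction_on with
  | _ n ih =>
  intro v hn h0 ha hp
  rcases Nat.lt_or_ge n 2 with h2 | h2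
  · -- at most one fractional coordinate: round up
    have hmem : ∀ i, i ∉ fr v → ((⌊v i⌋₊ : ℕ) : ℝ) = v i := by
      intro i hi
      by_contra h
      exact hi (mem_filter.2 ⟨mem_univ _, h⟩)
    refine ⟨fun i => ⌈v i⌉₊, fun i => Nat.ceil_le.2 (ha i), ?_, ?_, ?_⟩
    · rcases Nat.eq_zero_or_pos n with hz | hpos
      · have hemp : fr v = ∅ := card_eq_zero.1 (hn.trans hz)
        have h1 : ∀ i, ((⌈v i⌉₊ : ℕ) : ℝ) = v i := by
          intro i
          have := hmem i (by rw [hemp]; exact notMem_empty _)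
          rw [← this, Nat.ceil_natCast]
        have : ((∑ i, ⌈v i⌉₊ : ℕ) : ℝ) ≤ p := by
          push_cast
          rw [sum_congr rfl fun i _ => h1 i]
          exact hp
        exact_mod_cast this
      · have h1 : (fr v).card = 1 := by omega
        obtain ⟨i, hi⟩ := card_eq_one.1 h1
        have h1 : ∀ j ∈ univ.erase i, ((⌈v j⌉₊ : ℕ) : ℝ) = v j := by
          intro j hj
          have := hmem j (by rw [hi]; simpa using ne_of_mem_erase hj)
          rw [← this, Nat.ceil_natCast]
        have hs : ((∑ j ∈ univ.erase i, ⌈v j⌉₊ : ℕ) : ℝ) = ∑ j ∈ univ.erase i, v j := by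
          push_cast
          exact sum_congr rfl h1
        rw [← add_sum_erase univ _ (mem_univ i)] at hp ⊢
        rw [← hs] at hp
        have h3 : (∑ j ∈ univ.erase i, ⌈v j⌉₊) ≤ p := by
          have : ((∑ j ∈ univ.erase i, ⌈v j⌉₊ : ℕ) : ℝ) ≤ p := by linarith [h0 i]
          exact_mod_cast this
        have h4 : ⌈v i⌉₊ ≤ p - ∑ j ∈ univ.erase i, ⌈v j⌉₊ := by
          rw [Nat.ceil_le, Nat.cast_sub h3]
          linarith
        omega
    · intro i hi
      simp [hi]
    · exact sum_le_sum fun i _ => mul_le_mul_of_nonneg_left (Nat.le_ceil _) (hc i)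
  · -- two fractional coordinates: shift mass
    have h1 : 1 < (fr v).card := by omega
    obtain ⟨i', hi', j', hj', hij'⟩ := one_lt_card.1 h1
    obtain ⟨i, j, hi, hj, hij, hcij⟩ : ∃ i j, i ∈ fr v ∧ j ∈ fr v ∧ i ≠ j ∧ c j ≤ c i := by
      rcases le_total (c j') (c i') with h | h
      · exact ⟨i', j', hi', hj', hij', h⟩
      · exact ⟨j', i', hj', hi', hij'.symm, h⟩
    have hfi : ((⌊v i⌋₊ : ℕ) : ℝ) ≠ v i := (mem_filter.1 hi).2
    have hfj : ((⌊v j⌋₊ : ℕ) : ℝ) ≠ v j := (mem_filter.1 hj).2
    have hfi1 := Nat.floor_le (h0 i)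
    have hfj1 := Nat.floor_le (h0 j)
    have hfi2 := Nat.lt_floor_add_one (v i)
    have hfj2 := Nat.lt_floor_add_one (v j)
    have hfi3 : ((⌊v i⌋₊ : ℕ) : ℝ) < v i := lt_of_le_of_ne hfi1 hfi
    have hfj3 : ((⌊v j⌋₊ : ℕ) : ℝ) < v j := lt_of_le_of_ne hfj1 hfj
    set δ : ℝ := min (⌊v i⌋₊ + 1 - v i) (v j - ⌊v j⌋₊) with hδ
    have hδ0 : 0 < δ := lt_min (by linarith) (by linarith)
    have hδ1 : δ ≤ ⌊v i⌋₊ + 1 - v i := min_le_left _ _
    have hδ2 : δ ≤ v j - ⌊v j⌋₊ := min_le_right _ _
    set v' : ι → ℝ := Function.update (Function.update v i (v i + δ)) j (v j - δ) with hv'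
    have hvj : v' j = v j - δ := by simp [hv']
    have hvi : v' i = v i + δ := by simp [hv', hij]
    have hvk : ∀ k, k ≠ i → k ≠ j → v' k = v k := by
      intro k h1 h2
      simp [hv', h1, h2]
    have hsum : ∀ d : ι → ℝ, ∑ k, d k * v' k = ∑ k, d k * v k + (d i - d j) * δ := by
      intro d
      have e1 : ∀ k, d k * v' k = d k * v k + ((if k = i then d i * δ else 0) +
          (if k = j then -(d j * δ) else 0)) := by
        intro k
        by_cases h1 : k = i
        · subst h1
          rw [hvi, if_pos rfl, if_neg hij]; ring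
        · by_cases h2 : k = j
          · subst h2
            rw [hvj, if_neg h1, if_pos rfl]; ring
          · rw [hvk k h1 h2, if_neg h1, if_neg h2]; ring
      rw [sum_congr rfl fun k _ => e1 k, sum_add_distrib, sum_add_distrib]
      simp
      ring
    have hai : v i + δ ≤ a := by
      have h5 : (⌊v i⌋₊ : ℕ) < a := by
        have : ((⌊v i⌋₊ : ℕ) : ℝ) < a := lt_of_lt_of_le hfi3 (ha i)
        exact_mod_cast this
      have h6 : ((⌊v i⌋₊ : ℕ) : ℝ) + 1 ≤ a := by exact_mod_cast h5
      linarith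
    have hsub : fr v' ⊂ fr v := by
      have hsub1 : fr v' ⊆ fr v := by
        intro k hk
        by_cases h1 : k = i
        · rw [h1]; exact hi
        · by_cases h2 : k = j
          · rw [h2]; exact hj
          · have := (mem_filter.1 hk).2
            rw [hvk k h1 h2] at this
            exact mem_filter.2 ⟨mem_univ _, this⟩
      rw [Finset.ssubset_iff_of_subset hsub1]
      rcases le_total (⌊v i⌋₊ + 1 - v i) (v j - ⌊v j⌋₊) with h | h
      · refine ⟨i, hi, fun hk => (mem_filter.1 hk).2 ?_⟩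
        have : v' i = ((⌊v i⌋₊ + 1 : ℕ) : ℝ) := by
          rw [hvi, hδ, min_eq_left h]; push_cast; ring
        rw [this, Nat.floor_natCast]
      · refine ⟨j, hj, fun hk => (mem_filter.1 hk).2 ?_⟩
        have : v' j = ((⌊v j⌋₊ : ℕ) : ℝ) := by
          rw [hvj, hδ, min_eq_right h]; ring
        rw [this, Nat.floor_natCast]
    have hcard : (fr v').card < n := hn ▸ card_lt_card hsub
    obtain ⟨w, hw1, hw2, hw3, hw4⟩ := ih _ hcard v' rfl (by
      intro k
      by_cases h1 : k = i
      · rw [h1, hvi]; linarith [h0 i]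
      · by_cases h2 : k = j
        · rw [h2, hvj]
          have : (0 : ℝ) ≤ ⌊v j⌋₊ := Nat.cast_nonneg _
          linarith
        · rw [hvk k h1 h2]; exact h0 k) (by
      intro k
      by_cases h1 : k = i
      · rw [h1, hvi]; exact hai
      · by_cases h2 : k = j
        · rw [h2, hvj]; linarith [ha j]
        · rw [hvk k h1 h2]; exact ha k) (by
      have := hsum (fun _ => 1)
      simp only [one_mul, sub_self, zero_mul, add_zero] at this
      rw [this]; exact hp)
    refine ⟨w, hw1, hw2, fun k hk => hw3 k ?_, ?_⟩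
    · by_cases h1 : k = i
      · exfalso
        rw [h1] at hk
        rw [hk] at hfi
        simp at hfi
      · by_cases h2 : k = j
        · exfalso
          rw [h2] at hk
          rw [hk] at hfj
          simp at hfj
        · rw [hvk k h1 h2]; exact hk
    · have := hsum c
      have h7 : 0 ≤ (c i - c j) * δ := mul_nonneg (by linarith) hδ0.le
      linarith

/-- the quadratic form -/
noncomputable def F {ι : Type*} [Fintype ι] (A : ι → ι → ℝ) : ℝ := ∑ i, ∑ j, A i j * A j i

theorem nat_pair (a s s' : ℕ) (h1 : s ≤ a) (h2 : s' ≤ a) (hodd : Odd (s + s')) :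
    2 * (s * s') + a ≤ a * (s + s') := by
  rcases Nat.lt_trichotomy s s' with h | h | h
  · obtain ⟨d, rfl⟩ := Nat.exists_eq_add_of_lt h
    obtain ⟨e, rfl⟩ := Nat.exists_eq_add_of_le h2
    nlinarith [Nat.zero_le (s * d), Nat.zero_le (s * e), Nat.zero_le (d * e), Nat.zero_le (d * d)]
  · exfalso
    rw [h] at hodd
    exact (Nat.not_odd_iff_even.2 ⟨s', rfl⟩) hodd
  · obtain ⟨d, rfl⟩ := Nat.exists_eq_add_of_lt h
    obtain ⟨e, rfl⟩ := Nat.exists_eq_add_of_le h1
    nlinarith [Nat.zero_le (s' * d), Nat.zero_le (s' * e), Nat.zero_le (d * e), Nat.zero_le (d * d)]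

theorem nat_pair' (a s s' : ℕ) (h1 : s ≤ a) (h2 : s' ≤ a) :
    2 * (s * s') ≤ a * (s + s') := by
  nlinarith [Nat.mul_le_mul_right s' h1, Nat.mul_le_mul_left s h2]

/-- The integral case. -/
theorem nat_case {ι : Type*} [Fintype ι] [DecidableEq ι] (a t : ℕ) (B : ι → ι → ℕ)
    (hd : ∀ i, B i i = 0) (ha : ∀ i j, B i j ≤ a) (ht : ∑ i, ∑ j, B i j ≤ t) (hodd : Odd t) :
    ∑ i, ∑ j, B i j * B j i ≤ a * (t - 1) := by
  have hdbl : 2 * ∑ i, ∑ j, B i j = ∑ i, ∑ j, (B i j + B j i) := by
    have : ∑ i, ∑ j, B j i = ∑ i, ∑ j, B i j := sum_comm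
    simp only [sum_add_distrib]
    rw [this]; ring
  obtain ⟨m, hm⟩ := hodd
  rcases Nat.lt_or_ge (∑ i, ∑ j, B i j) t with hlt | hge
  · have h1 : ∑ i, ∑ j, B i j ≤ t - 1 := by omega
    have h2 : ∑ i, ∑ j, (2 * (B i j * B j i)) ≤ ∑ i, ∑ j, a * (B i j + B j i) :=
      sum_le_sum fun i _ => sum_le_sum fun j _ => nat_pair' a _ _ (ha i j) (ha j i)
    have h3 : ∑ i, ∑ j, (2 * (B i j * B j i)) = 2 * ∑ i, ∑ j, B i j * B j i := by
      simp only [mul_sum]
    have h4 : ∑ i, ∑ j, a * (B i j + B j i) = a * ∑ i, ∑ j, (B i j + B j i) := by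
      simp only [mul_sum]
    rw [h3, h4, ← hdbl] at h2
    nlinarith
  · have heq : ∑ i, ∑ j, B i j = t := le_antisymm ht hge
    -- there is an odd pair
    have hex : ∃ i j, Odd (B i j + B j i) := by
      by_contra hcon
      push Not at hcon
      have h1 : ∑ x : ι × ι, (B x.1 x.2 : ZMod 2) = 0 := by
        refine Finset.sum_involution (fun x _ => (x.2, x.1)) ?_ ?_ ?_ ?_
        · intro x _
          have := hcon x.1 x.2
          rw [Nat.not_odd_iff_even] at this
          have h2 := (ZMod.natCast_eq_zero_iff_even).2 this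
          push_cast at h2
          exact h2
        · intro x _ hx he
          apply hx
          have h3 : x.2 = x.1 := congrArg Prod.fst he
          rw [h3, hd]; simp
        · intro x _; exact mem_univ _
        · intro x _; rfl
      have h2 : ((∑ i, ∑ j, B i j : ℕ) : ZMod 2) = 0 := by
        push_cast
        rw [← h1, Fintype.sum_prod_type]
      rw [heq] at h2
      have := (ZMod.natCast_eq_zero_iff_even).1 h2
      exact (Nat.not_odd_iff_even.2 this) ⟨m, hm⟩
    obtain ⟨i0, j0, h0⟩ := hex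
    have hne : i0 ≠ j0 := by
      intro h
      rw [h, hd] at h0
      simp at h0
    -- the bound with the two ordered odd pairs
    have hpt : ∀ i j, 2 * (B i j * B j i) + (if (i = i0 ∧ j = j0) ∨ (i = j0 ∧ j = i0) then a else 0)
        ≤ a * (B i j + B j i) := by
      intro i j
      split_ifs with h
      · rcases h with ⟨rfl, rfl⟩ | ⟨rfl, rfl⟩
        · exact nat_pair a _ _ (ha _ _) (ha _ _) h0
        · exact nat_pair a _ _ (ha _ _) (ha _ _) (by rw [add_comm]; exact h0)
      · simpa using nat_pair' a _ _ (ha i j) (ha j i)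
    have h2 := sum_le_sum fun i (_ : i ∈ (univ : Finset ι)) =>
      sum_le_sum fun j (_ : j ∈ (univ : Finset ι)) => hpt i j
    have h5 : ∑ i, ∑ j, (if (i = i0 ∧ j = j0) ∨ (i = j0 ∧ j = i0) then a else 0) = 2 * a := by
      have e1 : ∀ i j : ι, (if (i = i0 ∧ j = j0) ∨ (i = j0 ∧ j = i0) then a else 0) =
          (if i = i0 then (if j = j0 then a else 0) else 0) +
          (if i = j0 then (if j = i0 then a else 0) else 0) := by
        intro i j
        by_cases h1 : i = i0
        · subst h1
          simp [hne]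
        · by_cases h3 : i = j0
          · subst h3
            simp [h1]
          · simp [h1, h3]
      simp only [e1, sum_add_distrib]
      simp
      ring
    simp only [sum_add_distrib] at h2
    rw [h5] at h2
    have h3 : ∑ i, ∑ j, (2 * (B i j * B j i)) = 2 * ∑ i, ∑ j, B i j * B j i := by
      simp only [mul_sum]
    have h4 : ∑ i, ∑ j, a * (B i j + B j i) = a * ∑ i, ∑ j, (B i j + B j i) := by
      simp only [mul_sum]
    rw [h3, h4, ← hdbl, heq] at h2
    have h6 : t - 1 + 1 = t := by omega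
    nlinarith

/-- Replacing one column. -/
theorem col {ι : Type*} [Fintype ι] [DecidableEq ι] (A : ι → ι → ℝ) (hd : ∀ i, A i i = 0)
    (j0 : ι) (w : ι → ℝ) (hw0 : w j0 = 0) (hw : ∑ i, A j0 i * A i j0 ≤ ∑ i, A j0 i * w i) :
    F A ≤ F (fun i j => if j = j0 then w i else A i j) := by
  have key : ∀ (A' : ι → ι → ℝ), (∀ i, A' i i = 0) → (∀ i j, j ≠ j0 → A' i j = A i j) →
      F A' = ∑ i ∈ univ.erase j0, ∑ j ∈ univ.erase j0, A i j * A j i +
        2 * ∑ i ∈ univ.erase j0, A j0 i * A' i j0 := by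
    intro A' hd' hA'
    unfold F
    rw [← add_sum_erase univ _ (mem_univ j0)]
    have e1 : ∑ j, A' j0 j * A' j j0 = ∑ i ∈ univ.erase j0, A j0 i * A' i j0 := by
      rw [← add_sum_erase univ _ (mem_univ j0), hd', zero_mul, zero_add]
      exact sum_congr rfl fun i hi => by rw [hA' _ _ (ne_of_mem_erase hi)]
    have e2 : ∑ i ∈ univ.erase j0, ∑ j, A' i j * A' j i =
        ∑ i ∈ univ.erase j0, (A j0 i * A' i j0 + ∑ j ∈ univ.erase j0, A i j * A j i) := by
      refine sum_congr rfl fun i hi => ?_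
      rw [← add_sum_erase univ _ (mem_univ j0)]
      congr 1
      · rw [hA' j0 i (ne_of_mem_erase hi)]; ring
      · exact sum_congr rfl fun j hj => by
          rw [hA' _ _ (ne_of_mem_erase hj), hA' _ _ (ne_of_mem_erase hi)]
    rw [e1, e2, sum_add_distrib]
    ring
  have k1 := key A hd (fun _ _ _ => rfl)
  have k2 := key (fun i j => if j = j0 then w i else A i j) (by
    intro i
    by_cases h : i = j0
    · simp [h, hw0]
    · simp [h, hd]) (by
    intro i j hj
    simp [hj])
  rw [k1, k2]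
  have h1 : ∑ i, A j0 i * A i j0 = ∑ i ∈ univ.erase j0, A j0 i * A i j0 := by
    rw [← add_sum_erase univ _ (mem_univ j0), hd, zero_mul, zero_add]
  have h2 : ∑ i, A j0 i * w i = ∑ i ∈ univ.erase j0, A j0 i * w i := by
    rw [← add_sum_erase univ _ (mem_univ j0), hd, zero_mul, zero_add]
  rw [h1, h2] at hw
  simp only [if_true]
  linarith

/-- The matrix inequality. -/
theorem main {ι : Type*} [Fintype ι] [DecidableEq ι] (a t : ℕ) (p : ι → ℕ) (hodd : Odd t)
    (hp : ∑ j, p j = t) (A : ι → ι → ℝ) (hd : ∀ i, A i i = 0) (h0 : ∀ i j, 0 ≤ A i j)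
    (ha : ∀ i j, A i j ≤ a) (hs : ∀ j, ∑ i, A i j ≤ p j) :
    ∑ i, ∑ j, A i j * A j i ≤ a * ((t : ℝ) - 1) := by
  -- round the columns one after the other
  have step : ∀ s : Finset ι, ∃ A' : ι → ι → ℝ, (∀ i, A' i i = 0) ∧ (∀ i j, 0 ≤ A' i j) ∧
      (∀ i j, A' i j ≤ a) ∧ (∀ j, ∑ i, A' i j ≤ p j) ∧ F A ≤ F A' ∧
      (∀ j ∈ s, ∀ i, ∃ m : ℕ, A' i j = m) := by
    intro s
    induction s using Finset.induction_on with
    | empty => exact ⟨A, hd, h0, ha, hs, le_rfl, by simp⟩
    | insert j0 s hj0 ih =>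
      obtain ⟨A', g1, g2, g3, g4, g5, g6⟩ := ih
      obtain ⟨w, hw1, hw2, hw3, hw4⟩ := round (fun i => A' j0 i) (fun i => g2 j0 i) a (p j0) _
        (fun i => A' i j0) rfl (fun i => g2 i j0) (fun i => g3 i j0) (g4 j0)
      have hw0 : w j0 = 0 := hw3 j0 (g1 j0)
      refine ⟨fun i j => if j = j0 then (w i : ℝ) else A' i j, ?_, ?_, ?_, ?_, ?_, ?_⟩
      · intro i
        by_cases h : i = j0
        · simp [h, hw0]
        · simp [h, g1]
      · intro i j
        by_cases h : j = j0
        · simp [h]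
        · simp [h, g2]
      · intro i j
        by_cases h : j = j0
        · simp only [h, if_true]; exact_mod_cast hw1 i
        · simp only [h, if_false]; exact g3 i j
      · intro j
        by_cases h : j = j0
        · simp only [h, if_true]; exact_mod_cast hw2
        · simp only [h, if_false]; exact g4 j
      · exact g5.trans (col A' g1 j0 _ (by simp [hw0]) hw4)
      · intro j hj i
        by_cases h : j = j0
        · exact ⟨w i, by simp [h]⟩
        · obtain ⟨m, hm⟩ := g6 j ((mem_insert.1 hj).resolve_left h) i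
          exact ⟨m, by simp [h, hm]⟩
  obtain ⟨A', g1, g2, g3, g4, g5, g6⟩ := step univ
  choose B hB using fun i j => g6 j (mem_univ j) i
  have hBd : ∀ i, B i i = 0 := fun i => by
    have := hB i i
    rw [g1] at this
    exact_mod_cast this.symm
  have hBa : ∀ i j, B i j ≤ a := fun i j => by
    have := g3 i j
    rw [hB] at this
    exact_mod_cast this
  have hBt : ∑ i, ∑ j, B i j ≤ t := by
    rw [sum_comm, ← hp]
    refine sum_le_sum fun j _ => ?_
    have := g4 j
    simp only [hB] at this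
    exact_mod_cast this
  have h1 := nat_case a t B hBd hBa hBt hodd
  have ht1 : 1 ≤ t := hodd.pos
  have h2 : F A' ≤ a * ((t : ℝ) - 1) := by
    unfold F
    simp only [hB]
    have h3 : ((∑ i, ∑ j, B i j * B j i : ℕ) : ℝ) ≤ ((a * (t - 1) : ℕ) : ℝ) := by exact_mod_cast h1
    rw [Nat.cast_mul, Nat.cast_sub ht1] at h3
    push_cast at h3
    exact h3
  exact g5.trans h2

/-- The inequality for zero entries, when the row bound is a natural multiple of the column bound. -/
theorem zero_entries {X Y : Type*} [Fintype X] [Fintype Y] [DecidableEq X] (M : X → Y → ℝ)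
    (hM : ∀ x y, 0 ≤ M x y) (a : ℕ) (C : ℝ) (hR : ∀ x, ∑ y, M x y ≤ a * C)
    (hC : ∀ y, ∑ x, M x y ≤ C) (t : ℕ) (ht : Odd t) (x : Fin t → X) (y : Fin t → Y)
    (hinj : Function.Injective fun i => (x i, y i)) (h0 : ∀ i, M (x i) (y i) = 0) :
    ∑ i, ∑ j, M (x i) (y j) * M (x j) (y i) ≤ ((t : ℝ) - 1) * (a * C) * C := by
  classical
  have ht1 : (0 : ℝ) ≤ (t : ℝ) - 1 := by
    have : 1 ≤ t := ht.pos
    have : (1 : ℝ) ≤ t := by exact_mod_cast this
    linarith
  have hC0 : 0 ≤ C := (sum_nonneg fun z _ => hM z (y ⟨0, ht.pos⟩)).trans (hC (y ⟨0, ht.pos⟩))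
  rcases eq_or_lt_of_le hC0 with hz | hpos
  · -- the matrix vanishes
    have hMz : ∀ u v, M u v = 0 := by
      intro u v
      have h1 := hC v
      rw [← hz] at h1
      have h2 : M u v ≤ ∑ x, M x v := single_le_sum (f := fun x => M x v) (fun z _ => hM z v)
        (mem_univ u)
      linarith [hM u v]
    simp [hMz, ← hz]
  · set A : X → X → ℝ := fun u v => (∑ j ∈ univ.filter (fun j => x j = v), M u (y j)) / C with hA
    set p : X → ℕ := fun v => (univ.filter (fun j => x j = v)).card with hpdef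
    have hpt : ∑ v, p v = t := by
      have := Finset.card_eq_sum_card_fiberwise (s := (univ : Finset (Fin t)))
        (t := (univ : Finset X)) (f := x) (fun _ _ => mem_univ _)
      rw [card_univ, Fintype.card_fin] at this
      exact this.symm
    have hAd : ∀ u, A u u = 0 := by
      intro u
      have : ∑ j ∈ univ.filter (fun j => x j = u), M u (y j) = 0 := by
        refine sum_eq_zero fun j hj => ?_
        rw [← (mem_filter.1 hj).2]; exact h0 j
      rw [hA]; simp [this]
    have hA0 : ∀ u v, 0 ≤ A u v := fun u v => div_nonneg (sum_nonneg fun j _ => hM _ _) hC0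
    have hAa : ∀ u v, A u v ≤ a := by
      intro u v
      rw [hA]
      simp only
      rw [div_le_iff₀ hpos]
      refine le_trans ?_ (hR u)
      have hinj2 : Set.InjOn y (univ.filter (fun j => x j = v)) := by
        intro i hi j hj hij
        have hi' := (mem_filter.1 (mem_coe.1 hi)).2
        have hj' := (mem_filter.1 (mem_coe.1 hj)).2
        apply hinj
        simp only [hi', hj', hij]
      rw [← sum_image (f := fun z => M u z) hinj2]
      exact sum_le_sum_of_subset_of_nonneg (subset_univ _) fun z _ _ => hM u z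
    have hAs : ∀ v, ∑ u, A u v ≤ p v := by
      intro v
      rw [hA]
      simp only
      rw [← sum_div, div_le_iff₀ hpos, sum_comm]
      calc ∑ j ∈ univ.filter (fun j => x j = v), ∑ u, M u (y j)
          ≤ ∑ _j ∈ univ.filter (fun j => x j = v), C := sum_le_sum fun j _ => hC (y j)
        _ = p v * C := by rw [sum_const, nsmul_eq_mul]
    have hmain := main a t p ht hpt A hAd hA0 hAa hAs
    have hrew : ∑ i, ∑ j, M (x i) (y j) * M (x j) (y i) =
        (∑ u, ∑ v, A u v * A v u) * (C * C) := by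
      have e1 : ∀ u v, A u v * A v u * (C * C) =
          ∑ i ∈ univ.filter (fun i => x i = u), ∑ j ∈ univ.filter (fun j => x j = v),
            M u (y j) * M v (y i) := by
        intro u v
        rw [hA]
        simp only
        rw [div_mul_div_comm, div_mul_cancel₀ _ (mul_pos hpos hpos).ne', sum_mul_sum, sum_comm]
      have e2 : ∀ (f : Fin t → ℝ), ∑ u, ∑ i ∈ univ.filter (fun i => x i = u), f i = ∑ i, f i :=
        fun f => Finset.sum_fiberwise_of_maps_to (fun _ _ => mem_univ _) f
      have e3 : ∀ i, ∑ j, M (x i) (y j) * M (x j) (y i) =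
          ∑ v, ∑ j ∈ univ.filter (fun j => x j = v), M (x i) (y j) * M v (y i) := by
        intro i
        rw [← e2]
        refine sum_congr rfl fun v _ => sum_congr rfl fun j hj => ?_
        rw [(mem_filter.1 hj).2]
      rw [sum_congr rfl fun i _ => e3 i, ← e2, sum_mul]
      refine sum_congr rfl fun u _ => ?_
      rw [sum_mul, sum_congr rfl fun v _ => e1 u v, sum_comm]
      refine sum_congr rfl fun v _ => sum_congr rfl fun i hi => ?_
      rw [(mem_filter.1 hi).2]
    rw [hrew]
    have hCC : 0 ≤ C * C := mul_nonneg hC0 hC0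
    calc (∑ u, ∑ v, A u v * A v u) * (C * C) ≤ (a * ((t : ℝ) - 1)) * (C * C) :=
          mul_le_mul_of_nonneg_right hmain hCC
      _ = ((t : ℝ) - 1) * (a * C) * C := by ring

end Pool.Agent.K7.H44.ZeroEntries
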