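import Pool.Agent.K7.H44.LemmaA

/-!
# The general inequality for zero entries with a loss of half the smaller squared bound
-/

set_option autoImplicit false

open Finset

namespace Pool.Agent.K7.H44.ZeroGen

open Pool.Agent.K7.H44.Circle Pool.Agent.K7.H44.LemmaA

/-- the matrix `M P^T` -/
noncomputable def AA (k : ℕ) (M : ℕ → ℕ → ℝ) (P : ℕ → ℕ → Prop) (u v : ℕ) : ℝ :=
  ∑ y ∈ range k, M u y * ((chi (P v y) : ℤ) : ℝ)

lemma chi_cast_nonneg (p : Prop) : (0 : ℝ) ≤ ((chi p : ℤ) : ℝ) := by exact_mod_cast chi_nonneg p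

lemma chi_cast_le (p : Prop) : ((chi p : ℤ) : ℝ) ≤ 1 := by
  unfold chi
  by_cases hp : p <;> simp [hp]

/-- The inequality for exact row and column sums. -/
theorem exact {n k : ℕ} (M : ℕ → ℕ → ℝ) (R C : ℝ) (hC : 0 < C) (hCR : C ≤ R)
    (hM : ∀ x < n, ∀ y < k, 0 ≤ M x y)
    (hrow : ∀ x < n, ∑ y ∈ range k, M x y = R) (hcol : ∀ y < k, ∑ x ∈ range n, M x y = C)
    (P : ℕ → ℕ → Prop) (hP : ∀ x < n, ∀ y < k, P x y → M x y = 0)
    (hodd : Odd (∑ x ∈ range n, ∑ y ∈ range k, chi (P x y))) :
    ∑ u ∈ range n, ∑ v ∈ range n, AA k M P u v * AA k M P v u ≤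
      (((∑ x ∈ range n, ∑ y ∈ range k, chi (P x y) : ℤ) : ℝ) - 1) * R * C + C ^ 2 / 2 := by
  classical
  set A := AA k M P with hA
  have hR0 : 0 < R := lt_of_lt_of_le hC hCR
  have hA0 : ∀ u < n, ∀ v, 0 ≤ A u v := fun u hu v =>
    sum_nonneg fun y hy => mul_nonneg (hM u hu y (mem_range.1 hy)) (chi_cast_nonneg _)
  have hAR : ∀ u < n, ∀ v, A u v ≤ R := by
    intro u hu v
    rw [← hrow u hu]
    exact sum_le_sum fun y hy =>
      mul_le_of_le_one_right (hM u hu y (mem_range.1 hy)) (chi_cast_le _)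
  have hAd : ∀ u < n, A u u = 0 := by
    intro u hu
    refine sum_eq_zero fun y hy => ?_
    by_cases h : P u y
    · rw [hP u hu y (mem_range.1 hy) h, zero_mul]
    · simp [chi, h]
  have hAs : ∑ u ∈ range n, ∑ v ∈ range n, A u v =
      ((∑ x ∈ range n, ∑ y ∈ range k, chi (P x y) : ℤ) : ℝ) * C := by
    rw [sum_comm]
    push_cast
    rw [sum_mul]
    refine sum_congr rfl fun v _ => ?_
    rw [hA]
    unfold AA
    rw [sum_comm, sum_mul]
    refine sum_congr rfl fun y hy => ?_
    rw [← sum_mul, hcol y (mem_range.1 hy), mul_comm]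
  -- the relation
  let S : ℕ → ℕ → Prop := fun u v => u ≠ v ∧ R < A u v + A v u
  have hS : ∀ u v, S u v ↔ S v u := by
    intro u v
    simp only [S]
    rw [add_comm (A u v), ne_comm]
  have hS0 : ∀ u, ¬ S u u := fun u h => h.1 rfl
  let K : ℕ → ℕ → ℝ := fun x x' => if S x x' then R - A x' x else A x' x
  have hKcost : ∀ x, ∀ x' < n, ∑ y ∈ range k, M x' y * ((chi (¬ (S x x' ↔ P x y)) : ℤ) : ℝ) =
      K x x' := by
    intro x x' hx'
    by_cases h : S x x'
    · simp only [K, if_pos h]
      rw [← hrow x' hx', hA]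
      unfold AA
      rw [← sum_sub_distrib]
      refine sum_congr rfl fun y _ => ?_
      by_cases hp : P x y
      · simp [chi, h, hp]
      · simp [chi, h, hp]
    · simp only [K, if_neg h]
      rw [hA]
      unfold AA
      refine sum_congr rfl fun y _ => ?_
      by_cases hp : P x y
      · simp [chi, h, hp]
      · simp [chi, h, hp]
  have hσ : C ≤ ∑ x ∈ range n, ∑ x' ∈ range n, K x x' := by
    refine (lemmaA M R C hC hM hrow hcol S hS hS0 P hodd).trans (le_of_eq ?_)
    refine sum_congr rfl fun x _ => ?_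
    rw [sum_comm]
    exact sum_congr rfl fun x' hx' => hKcost x x' (mem_range.1 hx')
  set σ := ∑ x ∈ range n, ∑ x' ∈ range n, K x x' with hσdef
  have hK0 : ∀ x, ∀ x' < n, 0 ≤ K x x' := by
    intro x x' hx'
    simp only [K]
    split_ifs
    · linarith [hAR x' hx' x]
    · exact hA0 x' hx' x
  have hKd : ∀ x < n, K x x = 0 := by
    intro x hx
    simp only [K, if_neg (hS0 x)]
    exact hAd x hx
  have hKz : ∀ x < n, ∀ x' < n, K x x' + K x' x ≤ R := by
    intro x hx x' hx'
    by_cases h : S x x'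
    · have h' := (hS x x').1 h
      simp only [K, if_pos h, if_pos h']
      linarith [h.2]
    · have h' : ¬ S x' x := fun g => h ((hS x' x).1 g)
      simp only [K, if_neg h, if_neg h']
      by_cases he : x = x'
      · subst he
        rw [hAd x hx]; linarith
      · have : ¬ (R < A x x' + A x' x) := fun g => h ⟨he, g⟩
        linarith
  -- the identity
  have hid : ∀ u v, R * (A u v + A v u) - 2 * (A u v * A v u) =
      R * (K u v + K v u) - 2 * (K u v * K v u) := by
    intro u v
    by_cases h : S u v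
    · have h' := (hS u v).1 h
      simp only [K, if_pos h, if_pos h']
      ring
    · have h' : ¬ S v u := fun g => h ((hS v u).1 g)
      simp only [K, if_neg h, if_neg h']
      ring
  have hsum := sum_congr (rfl : range n = range n) fun u _ =>
    sum_congr (rfl : range n = range n) fun v _ => hid u v
  simp only [sum_sub_distrib, ← mul_sum, sum_add_distrib] at hsum
  have hAc : ∑ u ∈ range n, ∑ v ∈ range n, A v u = ∑ u ∈ range n, ∑ v ∈ range n, A u v := sum_comm
  have hKc : ∑ u ∈ range n, ∑ v ∈ range n, K v u = σ := by rw [hσdef, sum_comm]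
  rw [hAc, hKc, ← hσdef, hAs] at hsum
  -- bound for the products
  set z : ℕ → ℕ → ℝ := fun u v => K u v + K v u with hz
  have hz0 : ∀ u < n, ∀ v < n, 0 ≤ z u v := fun u hu v hv => add_nonneg (hK0 u v hv) (hK0 v u hu)
  have hzσ : ∀ u < n, ∀ v < n, z u v ≤ σ := by
    intro u hu v hv
    by_cases he : u = v
    · subst he
      simp only [hz, hKd u hu, add_zero]
      linarith
    · simp only [hz]
      have h1 : ∀ x ∈ range n, 0 ≤ ∑ x' ∈ range n, K x x' := fun x _ =>
        sum_nonneg fun x' hx' => hK0 x x' (mem_range.1 hx')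
      have h2 : K u v ≤ ∑ x' ∈ range n, K u x' :=
        single_le_sum (f := fun x' => K u x') (fun x' hx' => hK0 u x' (mem_range.1 hx'))
          (mem_range.2 hv)
      have h3 : K v u ≤ ∑ x' ∈ range n, K v x' :=
        single_le_sum (f := fun x' => K v x') (fun x' hx' => hK0 v x' (mem_range.1 hx'))
          (mem_range.2 hu)
      have h4 : ∑ x ∈ ({u, v} : Finset ℕ), ∑ x' ∈ range n, K x x' ≤ σ := by
        rw [hσdef]
        refine sum_le_sum_of_subset_of_nonneg ?_ fun x hx _ => h1 x hx
        intro x hx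
        rcases mem_insert.1 hx with rfl | hx
        · exact mem_range.2 hu
        · rw [mem_singleton.1 hx]; exact mem_range.2 hv
      rw [sum_pair he] at h4
      linarith
  have hzs : ∑ u ∈ range n, ∑ v ∈ range n, z u v = 2 * σ := by
    simp only [hz, sum_add_distrib]
    rw [hKc, ← hσdef]; ring
  have hprod : ∀ B : ℝ, (∀ u < n, ∀ v < n, z u v ≤ B) →
      ∑ u ∈ range n, ∑ v ∈ range n, K u v * K v u ≤ B * σ / 2 := by
    intro B hB
    have h1 : ∑ u ∈ range n, ∑ v ∈ range n, K u v * K v u ≤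
        ∑ u ∈ range n, ∑ v ∈ range n, B / 4 * z u v := by
      refine sum_le_sum fun u hu => sum_le_sum fun v hv => ?_
      have h2 := hB u (mem_range.1 hu) v (mem_range.1 hv)
      have h3 := hz0 u (mem_range.1 hu) v (mem_range.1 hv)
      have h4 : K u v * K v u ≤ z u v * z u v / 4 := by
        simp only [hz]
        nlinarith [sq_nonneg (K u v - K v u)]
      have h5 : z u v * z u v ≤ B * z u v := mul_le_mul_of_nonneg_right h2 h3
      linarith
    simp only [← mul_sum] at h1
    rw [hzs] at h1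
    linarith
  have hfin : σ * R - ∑ u ∈ range n, ∑ v ∈ range n, K u v * K v u ≥ R * C - C ^ 2 / 2 := by
    rcases le_total σ R with h | h
    · have h1 := hprod σ hzσ
      nlinarith [mul_nonneg (sub_nonneg.2 hσ) (by linarith : (0 : ℝ) ≤ 2 * R - σ - C)]
    · have h1 := hprod R hKz
      nlinarith [sq_nonneg (R - C), mul_nonneg hR0.le (sub_nonneg.2 h)]
  nlinarith

end Pool.Agent.K7.H44.ZeroGen
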